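import Pool.Agent.Helper185.Fat1
import Mathlib

/-!
# A compact linearly ordered space without the Blumberg property
-/

namespace Pool.Agent.H328R3.Blum

open Set Topology
open Pool.Agent.Helper185.Fat

/-- `A` meets the closure points of every function. -/
def Stat (A : Set Om1) : Prop :=
  ∀ h : Om1 → Om1, ∃ δ ∈ A, (∃ ξ, ξ < δ) ∧ ∀ ξ < δ, h ξ < δ

theorem exists_split : ∃ A : Set Om1, Stat A ∧ Stat Aᶜ := by
  classical
  by_contra hcon
  push Not at hcon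
  have hc : Cardinal.mk Om1 ≤ Cardinal.mk (ℕ → Bool) := by
    rw [om1_mk]
    simpa using Cardinal.aleph_one_le_continuum
  obtain ⟨⟨c, hcinj⟩⟩ := hc
  have hn : ∀ n, ∃ (h : Om1 → Om1) (b : Bool), ∀ δ, (∃ ξ, ξ < δ) → (∀ ξ < δ, h ξ < δ) → c δ n = b := by
    intro n
    by_cases h1 : Stat {δ | c δ n = true}
    · have h2 := hcon _ h1
      unfold Stat at h2
      push Not at h2
      obtain ⟨h, hh⟩ := h2
      refine ⟨h, true, fun δ hδ1 hδ2 => ?_⟩
      by_contra h3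
      obtain ⟨ξ, hξ, hξ2⟩ := hh δ h3 hδ1
      exact absurd (hδ2 ξ hξ) (not_lt.2 hξ2)
    · unfold Stat at h1
      push Not at h1
      obtain ⟨h, hh⟩ := h1
      refine ⟨h, false, fun δ hδ1 hδ2 => ?_⟩
      by_contra h3
      obtain ⟨ξ, hξ, hξ2⟩ := hh δ (by simpa using h3) hδ1
      exact absurd (hδ2 ξ hξ) (not_lt.2 hξ2)
  choose h b hb using hn
  have hB : ∀ ξ, ∃ B, ∀ n, h n ξ < B := by
    intro ξ
    obtain ⟨B, hB⟩ := exists_gt (Set.countable_range (fun n => h n ξ))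
    exact ⟨B, fun n => hB _ ⟨n, rfl⟩⟩
  choose B hB using hB
  obtain ⟨β⟩ := om1_nonempty
  obtain ⟨δ, h1, h2⟩ := exists_closed_gt B β
  obtain ⟨ε, h3, h4⟩ := exists_closed_gt B δ
  have : c δ = c ε := by
    funext n
    rw [hb n δ ⟨β, h1⟩ (fun ξ hξ => (hB ξ n).trans (h2 ξ hξ)),
      hb n ε ⟨δ, h3⟩ (fun ξ hξ => (hB ξ n).trans (h4 ξ hξ))]
  exact absurd (hcinj this) h3.ne

/-- Subsets of `A` which contain each of their limits that is not above them. -/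
def IsK (A x : Set Om1) : Prop :=
  x ⊆ A ∧ ∀ δ, (∃ ξ, ξ < δ) → (∀ ξ < δ, ∃ γ ∈ x, ξ < γ ∧ γ < δ) → (∃ γ ∈ x, δ ≤ γ) → δ ∈ x

/-- The points of the space. -/
@[ext] structure K (A : Set Om1) : Type where
  /-- the underlying set -/
  s : Set Om1
  ok : IsK A s

variable {A : Set Om1}

/-- The lexicographical order. -/
noncomputable instance : LinearOrder (K A) :=
  LinearOrder.lift' (fun x : K A => (toLex (fun ξ : Om1 => (ξ ∈ x.s : Prop)) : Lex (Om1 → Prop)))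
    (by
      intro x y hxy
      have h2 : (fun ξ : Om1 => (ξ ∈ x.s : Prop)) = (fun ξ : Om1 => (ξ ∈ y.s : Prop)) :=
        toLex.injective hxy
      ext ξ
      have := congrFun h2 ξ
      exact iff_of_eq this)

theorem lt_iff (x y : K A) :
    x < y ↔ ∃ ξ, (∀ η < ξ, (η ∈ x.s ↔ η ∈ y.s)) ∧ ξ ∉ x.s ∧ ξ ∈ y.s := by
  have h1 : x < y ↔ ∃ ξ, (∀ η < ξ, (η ∈ x.s) = (η ∈ y.s)) ∧ ((ξ ∈ x.s : Prop) < (ξ ∈ y.s : Prop)) :=
    Iff.rfl
  rw [h1]
  refine exists_congr (fun ξ => and_congr ?_ ?_)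
  · exact forall₂_congr (fun η _ => by rw [eq_iff_iff])
  · rw [lt_iff_le_not_ge]
    simp only [le_Prop_eq]
    tauto

noncomputable instance : TopologicalSpace (K A) := Preorder.topology _

instance : OrderTopology (K A) := ⟨rfl⟩

theorem exists_lub (S : Set (K A)) : ∃ s : K A, IsLUB S s := by
  classical
  let step : (ξ : Om1) → ((η : Om1) → η < ξ → Prop) → Prop := fun ξ prev =>
    ∃ x ∈ S, ξ ∈ x.s ∧ ∀ η (hη : η < ξ), (η ∈ x.s ↔ prev η hη)
  let s : Om1 → Prop := WellFounded.fix (wellFounded_lt (α := Om1)) step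
  have hs : ∀ ξ, s ξ ↔ ∃ x ∈ S, ξ ∈ x.s ∧ ∀ η < ξ, (η ∈ x.s ↔ s η) := fun ξ => by
    have := WellFounded.fix_eq (wellFounded_lt (α := Om1)) step ξ
    exact iff_of_eq this
  have hK : IsK A {ξ | s ξ} := by
    refine ⟨?_, ?_⟩
    · intro ξ hξ
      obtain ⟨x, _, hx, _⟩ := (hs ξ).1 hξ
      exact x.ok.1 hx
    · rintro δ hδ hcof ⟨γ, hγ, hle⟩
      rcases hle.lt_or_eq with h | h
      · obtain ⟨x, hxS, hx1, hx2⟩ := (hs γ).1 hγ
        have : δ ∈ x.s := by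
          refine x.ok.2 δ hδ (fun ξ hξ => ?_) ⟨γ, hx1, hle⟩
          obtain ⟨γ', h1, h2, h3⟩ := hcof ξ hξ
          exact ⟨γ', (hx2 γ' (h3.trans h)).2 h1, h2, h3⟩
        exact (hx2 δ h).1 this
      · rw [h]; exact hγ
  refine ⟨⟨_, hK⟩, ?_, ?_⟩
  · intro x hx
    by_contra hcon
    rw [not_le, lt_iff] at hcon
    obtain ⟨ξ, h1, h2, h3⟩ := hcon
    exact h2 ((hs ξ).2 ⟨x, hx, h3, fun η hη => (h1 η hη).symm⟩)
  · intro u hu
    by_contra hcon
    rw [not_le, lt_iff] at hcon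
    obtain ⟨ξ, h1, h2, h3⟩ := hcon
    obtain ⟨x, hxS, hx1, hx2⟩ := (hs ξ).1 h3
    have : u < x := by
      rw [lt_iff]
      exact ⟨ξ, fun η hη => (h1 η hη).trans (hx2 η hη).symm, h2, hx1⟩
    exact absurd (hu hxS) (not_le.2 this)

/-- A complete linear order is compact. -/
theorem compact_of_lub {X : Type} [LinearOrder X] [TopologicalSpace X] [OrderTopology X]
    (h : ∀ S : Set X, ∃ s, IsLUB S s) : CompactSpace X := by
  refine ⟨isCompact_iff_ultrafilter_le_nhds.2 (fun F _ => ?_)⟩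
  obtain ⟨s, hs1, hs2⟩ := h {a | ∀ᶠ x in (F : Filter X), a ≤ x}
  refine ⟨s, Set.mem_univ _, ?_⟩
  rw [nhds_eq_order]
  refine le_inf ?_ ?_
  · refine le_iInf₂ (fun b hb => ?_)
    rw [Filter.le_principal_iff]
    have : ∃ a ∈ {a | ∀ᶠ x in (F : Filter X), a ≤ x}, b < a := by
      by_contra hcon
      push Not at hcon
      exact absurd (hs2 hcon) (not_le.2 hb)
    obtain ⟨a, ha, hba⟩ := this
    exact Filter.mem_of_superset ha (fun x hx => lt_of_lt_of_le hba hx)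
  · refine le_iInf₂ (fun b hb => ?_)
    rw [Filter.le_principal_iff]
    have : b ∉ {a | ∀ᶠ x in (F : Filter X), a ≤ x} := fun hmem =>
      absurd (hs1 hmem) (not_le.2 hb)
    have h2 : ∀ᶠ x in (F : Filter X), ¬ b ≤ x := Ultrafilter.eventually_not.2 this
    exact Filter.mem_of_superset h2 (fun x hx => not_le.1 hx)

theorem Stat.unbounded (hA : Stat A) (β : Om1) : ∃ ξ ∈ A, β < ξ := by
  obtain ⟨δ, h1, ⟨ξ, h2⟩, h3⟩ := hA (fun _ => β)
  exact ⟨δ, h1, h3 ξ h2⟩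

theorem bounded (hA : Stat Aᶜ) (x : K A) : ∃ β, ∀ γ ∈ x.s, γ < β := by
  by_contra hcon
  push Not at hcon
  have hcon2 : ∀ β, ∃ γ ∈ x.s, β < γ := by
    intro β
    obtain ⟨β', hβ'⟩ := exists_gt (Set.countable_singleton β)
    obtain ⟨γ, h1, h2⟩ := hcon β'
    exact ⟨γ, h1, (hβ' β rfl).trans_le h2⟩
  choose h h1 h2 using hcon2
  obtain ⟨δ, hδA, hδ0, hδ⟩ := hA h
  apply hδA
  apply x.ok.1
  refine x.ok.2 δ hδ0 (fun ξ hξ => ⟨h ξ, h1 ξ, h2 ξ, hδ ξ hξ⟩) ⟨h δ, h1 δ, (h2 δ).le⟩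

/-- Nodes: points with a largest element. -/
structure Nd (A : Set Om1) : Type where
  /-- the point -/
  t : K A
  /-- the largest element -/
  m : Om1
  mem : m ∈ t.s
  le : ∀ η ∈ t.s, η ≤ m

/-- The points which end-extend a node. -/
def Ext (p : Nd A) (y : K A) : Prop := ∀ η ≤ p.m, (η ∈ y.s ↔ η ∈ p.t.s)

theorem Ext.refl (p : Nd A) : Ext p p.t := fun _ _ => Iff.rfl

theorem Ext.m_le {p q : Nd A} (h : Ext p q.t) : p.m ≤ q.m :=
  q.le _ ((h p.m le_rfl).2 p.mem)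

theorem Ext.trans {p q : Nd A} {y : K A} (h : Ext p q.t) (h2 : Ext q y) : Ext p y :=
  fun η hη => (h2 η (hη.trans h.m_le)).trans (h η hη)

/-- Add a new largest element. -/
def addTop (p : Nd A) (ξ : Om1) (hξ : ξ ∈ A) (h : p.m < ξ) : Nd A where
  t := ⟨insert ξ p.t.s, by
    refine ⟨?_, ?_⟩
    · rintro η (hη | hη)
      · rw [hη]; exact hξ
      · exact p.t.ok.1 hη
    · rintro δ hδ0 hcof ⟨γ, hγ, hle⟩
      have hγξ : γ ≤ ξ := by
        rcases hγ with hγ | hγ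
        · exact hγ.le
        · exact (p.le γ hγ).trans h.le
      rcases (hle.trans hγξ).lt_or_eq with h1 | h1
      · right
        have hcof' : ∀ ξ' < δ, ∃ γ ∈ p.t.s, ξ' < γ ∧ γ < δ := by
          intro ξ' hξ'
          obtain ⟨γ', h2, h3, h4⟩ := hcof ξ' hξ'
          refine ⟨γ', ?_, h3, h4⟩
          rcases h2 with h2 | h2
          · rw [h2] at h4
            exact absurd (h4.trans h1) (lt_irrefl _)
          · exact h2
        refine p.t.ok.2 δ hδ0 hcof' ⟨p.m, p.mem, ?_⟩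
        by_contra hcon
        obtain ⟨γ', h2, h3, h4⟩ := hcof' p.m (not_le.1 hcon)
        exact absurd (p.le γ' h2) (not_le.2 h3)
      · rw [h1]; exact Set.mem_insert _ _⟩
  m := ξ
  mem := Set.mem_insert _ _
  le := by
    rintro η (hη | hη)
    · exact hη.le
    · exact (p.le η hη).trans h.le

theorem addTop_ext (p : Nd A) (ξ : Om1) (hξ : ξ ∈ A) (h : p.m < ξ) :
    Ext p (addTop p ξ hξ h).t := by
  intro η hη
  change η ∈ insert ξ p.t.s ↔ η ∈ p.t.s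
  constructor
  · rintro (h1 | h1)
    · rw [h1] at hη
      exact absurd hη (not_le.2 h)
    · exact h1
  · intro h1
    exact Set.mem_insert_of_mem _ h1

theorem lt_of_ext_addTop (p : Nd A) (ξ : Om1) (hξ : ξ ∈ A) (h : p.m < ξ) {z : K A}
    (hz : Ext (addTop p ξ hξ h) z) : p.t < z := by
  rw [lt_iff]
  refine ⟨ξ, ?_, ?_, ?_⟩
  · intro η hη
    have h1 := hz η hη.le
    rw [h1]
    change η ∈ p.t.s ↔ η ∈ insert ξ p.t.s
    constructor
    · intro h2; exact Set.mem_insert_of_mem _ h2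
    · rintro (h2 | h2)
      · exact absurd h2 hη.ne
      · exact h2
  · intro h1
    exact absurd (p.le ξ h1) (not_le.2 h)
  · exact (hz ξ le_rfl).2 (Set.mem_insert _ _)

theorem exists_open (hA : Stat A) (p : Nd A) :
    ∃ V : Set (K A), IsOpen V ∧ V.Nonempty ∧ ∀ y ∈ V, Ext p y := by
  obtain ⟨ξ, hξ, h⟩ := hA.unbounded p.m
  obtain ⟨ζ, hζ, h'⟩ := hA.unbounded ξ
  refine ⟨Ioo p.t (addTop p ξ hξ h).t, isOpen_Ioo, ⟨(addTop p ζ hζ (h.trans h')).t, ?_, ?_⟩, ?_⟩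
  · exact lt_of_ext_addTop p ζ hζ (h.trans h') (Ext.refl _)
  · rw [lt_iff]
    refine ⟨ξ, ?_, ?_, ?_⟩
    · intro η hη
      change η ∈ insert ζ p.t.s ↔ η ∈ insert ξ p.t.s
      constructor
      · rintro (h1 | h1)
        · exact absurd (h1 ▸ hη) (not_lt.2 h'.le)
        · exact Or.inr h1
      · rintro (h1 | h1)
        · exact absurd h1 hη.ne
        · exact Or.inr h1
    · rintro (h1 | h1)
      · exact absurd h1 h'.ne
      · exact absurd (p.le ξ h1) (not_le.2 h)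
    · exact Set.mem_insert _ _
  · rintro y ⟨hy1, hy2⟩
    rw [lt_iff] at hy1 hy2
    obtain ⟨a, ha1, ha2, ha3⟩ := hy1
    obtain ⟨b, hb1, hb2, hb3⟩ := hy2
    have hap : p.m < a := by
      by_contra hcon
      rw [not_lt] at hcon
      rcases lt_trichotomy b a with hba | hba | hba
      · have h1 : b ∉ p.t.s := fun h2 => hb2 ((ha1 b hba).1 h2)
        rcases hb3 with h2 | h2
        · rw [h2] at hba
          exact absurd (h.trans (hba.trans_le hcon)) (lt_irrefl _)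
        · exact h1 h2
      · rw [hba] at hb2
        exact hb2 ha3
      · have h1 := (hb1 a hba).1 ha3
        rcases h1 with h2 | h2
        · rw [h2] at hcon
          exact absurd (h.trans_le hcon) (lt_irrefl _)
        · exact ha2 h2
    intro η hη
    exact (ha1 η (hη.trans_lt hap)).symm

/-- Cut a point at one of its elements. -/
def cut (y : K A) (η : Om1) (hη : η ∈ y.s) : Nd A where
  t := ⟨{ξ | ξ ∈ y.s ∧ ξ ≤ η}, by
    refine ⟨fun ξ hξ => y.ok.1 hξ.1, ?_⟩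
    rintro δ hδ0 hcof ⟨γ, hγ, hle⟩
    refine ⟨y.ok.2 δ hδ0 (fun ξ hξ => ?_) ⟨γ, hγ.1, hle⟩, hle.trans hγ.2⟩
    obtain ⟨γ', h1, h2⟩ := hcof ξ hξ
    exact ⟨γ', h1.1, h2⟩⟩
  m := η
  mem := ⟨hη, le_rfl⟩
  le := fun ξ hξ => hξ.2

/-- Inside an open set that meets a cone there is a cone. -/
theorem reduce (hA : Stat A) (p : Nd A) (U : Set (K A)) (hU : IsOpen U) (y : K A) (hy : y ∈ U)
    (hpy : Ext p y) : ∃ q : Nd A, Ext p q.t ∧ ∀ z, Ext q z → z ∈ U := by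
  classical
  -- a node in `U`
  have h1 : ∃ x : Nd A, x.t ∈ U ∧ Ext p x.t := by
    by_cases hmax : ∃ η ∈ y.s, ∀ ξ ∈ y.s, ξ ≤ η
    · obtain ⟨η, h1, h2⟩ := hmax
      exact ⟨⟨y, η, h1, h2⟩, hy, hpy⟩
    · push Not at hmax
      have hpy' : p.t < y := by
        rcases lt_trichotomy p.t y with h | h | h
        · exact h
        · exfalso
          have hm : p.m ∈ y.s := (hpy _ le_rfl).2 p.mem
          obtain ⟨ξ, h2, h3⟩ := hmax p.m hm
          rw [← h] at h2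
          exact absurd (p.le ξ h2) (not_le.2 h3)
        · exfalso
          rw [lt_iff] at h
          obtain ⟨ξ, h2, h3, h4⟩ := h
          exact h3 ((hpy ξ (p.le ξ h4)).2 h4)
      obtain ⟨a, ha1, ha2⟩ := exists_Ioc_subset_of_mem_nhds (hU.mem_nhds hy) ⟨_, hpy'⟩
      rw [lt_iff] at ha1
      obtain ⟨ζ, h2, h3, h4⟩ := ha1
      have hm : p.m ∈ y.s := (hpy _ le_rfl).2 p.mem
      have hη : max ζ p.m ∈ y.s := by
        rcases max_choice ζ p.m with h | h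
        · rw [h]; exact h4
        · rw [h]; exact hm
      refine ⟨cut y (max ζ p.m) hη, ha2 ⟨?_, ?_⟩, ?_⟩
      · rw [lt_iff]
        refine ⟨ζ, fun ξ hξ => ?_, h3, ?_⟩
        · rw [h2 ξ hξ]
          exact ⟨fun h => ⟨h, hξ.le.trans (le_max_left _ _)⟩, fun h => h.1⟩
        · exact ⟨h4, le_max_left _ _⟩
      · rw [← not_lt, lt_iff]
        rintro ⟨ξ, h5, h6, h7⟩
        exact h6 h7.1
      · intro ξ hξ
        rw [← hpy ξ hξ]
        exact ⟨fun h => h.1, fun h => ⟨h, hξ.trans (le_max_right _ _)⟩⟩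
  obtain ⟨x, hxU, hpx⟩ := h1
  obtain ⟨ξ₀, hξ₀, hlt₀⟩ := hA.unbounded x.m
  have hex : x.t < (addTop x ξ₀ hξ₀ hlt₀).t := lt_of_ext_addTop x ξ₀ hξ₀ hlt₀ (Ext.refl _)
  obtain ⟨b, hb1, hb2⟩ := exists_Ico_subset_of_mem_nhds (hU.mem_nhds hxU) ⟨_, hex⟩
  rw [lt_iff] at hb1
  obtain ⟨ζ, h2, h3, h4⟩ := hb1
  obtain ⟨ξ, hξ, hlt⟩ := hA.unbounded (max x.m ζ)
  have hlt1 : x.m < ξ := (le_max_left _ _).trans_lt hlt
  have hlt2 : ζ < ξ := (le_max_right _ _).trans_lt hlt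
  refine ⟨addTop x ξ hξ hlt1, hpx.trans (addTop_ext x ξ hξ hlt1), fun z hz => hb2 ⟨?_, ?_⟩⟩
  · exact (lt_of_ext_addTop x ξ hξ hlt1 hz).le
  · have hzx : ∀ η < ξ, (η ∈ z.s ↔ η ∈ x.t.s) := by
      intro η hη
      rw [hz η hη.le]
      change η ∈ insert ξ x.t.s ↔ η ∈ x.t.s
      constructor
      · rintro (h | h)
        · exact absurd h hη.ne
        · exact h
      · intro h; exact Or.inr h
    rw [lt_iff]
    refine ⟨ζ, fun η hη => ?_, ?_, h4⟩
    · rw [hzx η (hη.trans hlt2)]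
      exact h2 η hη
    · rw [hzx ζ hlt2]
      exact h3

theorem lists_countable {α : Type} {S : Set α} (hS : S.Countable) :
    {L : List α | ∀ a ∈ L, a ∈ S}.Countable := by
  have := hS.to_subtype
  refine (Set.countable_range (fun l : List S => l.map Subtype.val)).mono ?_
  intro L hL
  exact ⟨L.attach.map (fun a => ⟨a.1, hL a.1 a.2⟩), by simp⟩

theorem extend (hA : Stat A) (O : ℕ → Set (K A)) (hO : ∀ n, IsOpen (O n)) (p : Nd A) (n : ℕ)
    (ξ : Om1) : ∃ q : Nd A, Ext p q.t ∧ ξ < q.m ∧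
      ((∀ z, Ext q z → z ∈ O n) ∨ (∀ z, Ext q z → z ∉ O n)) := by
  obtain ⟨ζ, hζ, hlt⟩ := hA.unbounded (max p.m ξ)
  have hlt1 : p.m < ζ := (le_max_left _ _).trans_lt hlt
  have hlt2 : ξ < ζ := (le_max_right _ _).trans_lt hlt
  by_cases h : ∃ y, Ext (addTop p ζ hζ hlt1) y ∧ y ∈ O n
  · obtain ⟨y, hy1, hy2⟩ := h
    obtain ⟨q, hq1, hq2⟩ := reduce hA (addTop p ζ hζ hlt1) (O n) (hO n) y hy2 hy1
    exact ⟨q, (addTop_ext p ζ hζ hlt1).trans hq1, hlt2.trans_le hq1.m_le, Or.inl hq2⟩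
  · push Not at h
    exact ⟨addTop p ζ hζ hlt1, addTop_ext p ζ hζ hlt1, hlt2, Or.inr h⟩

theorem baire (hA : Stat A) (O : ℕ → Set (K A)) (hO : ∀ n, IsOpen (O n)) (p : Nd A) :
    ∃ q : Nd A, Ext p q.t ∧ ∀ n, ((∀ z, Ext q z → z ∈ O n) ∨ (∀ z, Ext q z → z ∉ O n)) := by
  classical
  choose E hE1 hE2 hE3 using extend hA O hO
  -- nodes obtained from lists
  let N : List (ℕ × Om1) → Nd A := fun L => L.foldr (fun a q => E q a.1 a.2) p
  have hbd : ∀ ξ : Om1, ∃ β, ξ < β ∧ ∀ L : List (ℕ × Om1), (∀ a ∈ L, a.2 ≤ ξ) → (N L).m < β := by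
    intro ξ
    have hc : {L : List (ℕ × Om1) | ∀ a ∈ L, a ∈ (univ ×ˢ Iic ξ : Set (ℕ × Om1))}.Countable :=
      lists_countable (Set.countable_univ.prod (om1_Iic ξ))
    obtain ⟨β, hβ⟩ := exists_gt ((hc.image (fun L => (N L).m)).insert ξ)
    refine ⟨β, hβ ξ (Set.mem_insert _ _), fun L hL => hβ _ (Set.mem_insert_of_mem _ ⟨L, ?_, rfl⟩)⟩
    intro a ha
    exact ⟨Set.mem_univ _, hL a ha⟩
  choose h hh1 hh2 using hbd
  obtain ⟨δ, hδA, ⟨ξ₀, hξ₀⟩, hδ⟩ := hA h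
  have hN : ∀ L : List (ℕ × Om1), (∀ a ∈ L, a.2 < δ) → (N L).m < δ := by
    intro L hL
    have : ∃ ξ, ξ < δ ∧ ∀ a ∈ L, a.2 ≤ ξ := by
      induction L with
      | nil => exact ⟨ξ₀, hξ₀, by simp⟩
      | cons a L ih =>
        obtain ⟨ξ, h1, h2⟩ := ih (fun b hb => hL b (List.mem_cons_of_mem _ hb))
        refine ⟨max a.2 ξ, max_lt (hL a (by simp)) h1, ?_⟩
        intro b hb
        rcases List.mem_cons.1 hb with hb | hb
        · rw [hb]; exact le_max_left _ _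
        · exact (h2 b hb).trans (le_max_right _ _)
    obtain ⟨ξ, h1, h2⟩ := this
    exact (hh2 ξ L h2).trans (hδ ξ h1)
  obtain ⟨ν, hν⟩ := (om1_Iio δ).exists_eq_range ⟨ξ₀, hξ₀⟩
  have hνlt : ∀ n, ν n < δ := fun n => by
    have : ν n ∈ Set.Iio δ := by rw [hν]; exact ⟨n, rfl⟩
    exact this
  have hνs : ∀ ξ, ξ < δ → ∃ n, ν n = ξ := fun ξ hξ => by
    have : ξ ∈ Set.range ν := by rw [← hν]; exact hξ
    exact this
  let L : ℕ → List (ℕ × Om1) := fun n => Nat.rec (motive := fun _ => List (ℕ × Om1)) []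
    (fun n l => (n, ν n) :: l) n
  have hLs : ∀ n, L (n + 1) = (n, ν n) :: L n := fun n => rfl
  have hLδ : ∀ n, ∀ a ∈ L n, a.2 < δ := by
    intro n
    induction n with
    | zero => intro a ha; exact absurd ha (by simp [L])
    | succ n ih =>
      intro a ha
      rw [hLs] at ha
      rcases List.mem_cons.1 ha with ha | ha
      · rw [ha]; exact hνlt n
      · exact ih a ha
  let T : ℕ → Nd A := fun n => N (L n)
  have hTs : ∀ n, T (n + 1) = E (T n) n (ν n) := fun n => rfl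
  have hTlt : ∀ n, (T n).m < δ := fun n => hN _ (hLδ n)
  have hTe : ∀ n k, Ext (T n) (T (n + k)).t := by
    intro n k
    induction k with
    | zero => exact Ext.refl _
    | succ k ih =>
      refine ih.trans ?_
      change Ext (T (n + k)) (T (n + k + 1)).t
      rw [hTs]
      exact hE1 _ _ _
  have hTe' : ∀ n k, n ≤ k → Ext (T n) (T k).t := by
    intro n k hnk
    obtain ⟨j, rfl⟩ := Nat.exists_eq_add_of_le hnk
    exact hTe n j
  have hTbig : ∀ ξ < δ, ∃ n, ξ < (T n).m := by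
    intro ξ hξ
    obtain ⟨n, hn⟩ := hνs ξ hξ
    refine ⟨n + 1, ?_⟩
    rw [hTs, ← hn]
    exact hE2 _ _ _
  -- the union
  have hmemT : ∀ n η, η ≤ (T n).m → (∃ k, η ∈ (T k).t.s) → η ∈ (T n).t.s := by
    rintro n η hη ⟨k, hk⟩
    rcases le_total n k with hnk | hnk
    · exact (hTe' n k hnk η hη).1 hk
    · exact (hTe' k n hnk η ((T k).le η hk)).2 hk
  let W : Set Om1 := {η | η = δ ∨ ∃ k, η ∈ (T k).t.s}
  have hWle : ∀ η ∈ W, η ≤ δ := by
    rintro η (hη | ⟨k, hk⟩)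
    · exact hη.le
    · exact ((T k).le η hk).trans (hTlt k).le
  have hW : IsK A W := by
    refine ⟨?_, ?_⟩
    · rintro η (hη | ⟨k, hk⟩)
      · rw [hη]; exact hδA
      · exact (T k).t.ok.1 hk
    · rintro ε hε0 hcof ⟨γ, hγ, hle⟩
      rcases (hle.trans (hWle γ hγ)).lt_or_eq with h1 | h1
      · right
        obtain ⟨n, hn⟩ := hTbig ε h1
        refine ⟨n, (T n).t.ok.2 ε hε0 (fun ξ hξ => ?_) ⟨(T n).m, (T n).mem, hn.le⟩⟩
        obtain ⟨γ', h2, h3, h4⟩ := hcof ξ hξ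
        refine ⟨γ', ?_, h3, h4⟩
        rcases h2 with h2 | h2
        · rw [h2] at h4
          exact absurd (h4.trans h1) (lt_irrefl _)
        · exact hmemT n γ' (h4.trans hn).le h2
      · left; exact h1
  let q : Nd A := ⟨⟨W, hW⟩, δ, Or.inl rfl, hWle⟩
  have hTq : ∀ n, Ext (T n) q.t := by
    intro n η hη
    constructor
    · rintro (h1 | h1)
      · exact absurd (h1 ▸ (hη.trans_lt (hTlt n))) (lt_irrefl _)
      · exact hmemT n η hη h1
    · intro h1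
      exact Or.inr ⟨n, h1⟩
  refine ⟨q, hTq 0, fun n => ?_⟩
  have h1 := hE3 (T n) n (ν n)
  rw [← hTs] at h1
  rcases h1 with h1 | h1
  · left
    intro z hz
    exact h1 z ((hTq (n + 1)).trans hz)
  · right
    intro z hz
    exact h1 z ((hTq (n + 1)).trans hz)

/-- There are nodes. -/
theorem exists_node (hA : Stat A) : Nonempty (Nd A) := by
  obtain ⟨β⟩ := om1_nonempty
  obtain ⟨ξ, hξ, _⟩ := hA.unbounded β
  refine ⟨⟨⟨{ξ}, ?_, ?_⟩, ξ, rfl, ?_⟩⟩
  · intro η hη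
    rw [Set.mem_singleton_iff] at hη
    rw [hη]; exact hξ
  · rintro δ ⟨ζ, hζ⟩ hcof ⟨γ, hγ, hle⟩
    obtain ⟨γ', h1, h2, h3⟩ := hcof ζ hζ
    rw [Set.mem_singleton_iff] at hγ h1
    rw [hγ] at hle
    rw [h1] at h3
    exact absurd (h3.trans_le hle) (lt_irrefl _)
  · intro η hη
    exact (Set.mem_singleton_iff.1 hη).le

theorem not_blumberg (hA : Stat A) (hA' : Stat Aᶜ) : ∃ f : K A → ℝ, ∀ D : Set (K A), Dense D →
    ¬ ContinuousOn f D := by
  classical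
  choose rho hrho using bounded hA'
  have hc : Cardinal.mk Om1 ≤ Cardinal.mk ℝ := by
    rw [om1_mk, Cardinal.mk_real]
    exact Cardinal.aleph_one_le_continuum
  obtain ⟨ι⟩ := hc
  refine ⟨fun x => ι (rho x), fun D hD hf => ?_⟩
  -- rational tests
  have hO : ∀ q : ℚ, ∃ O : Set (K A), IsOpen O ∧ ∀ d ∈ D, (d ∈ O ↔ (q : ℝ) < ι (rho d)) := by
    intro q
    obtain ⟨O, hO1, hO2⟩ := (continuousOn_iff'.1 hf) (Ioi (q : ℝ)) isOpen_Ioi
    refine ⟨O, hO1, fun d hd => ?_⟩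
    have := congrArg (fun s => d ∈ s) hO2
    simp only [Set.mem_inter_iff, Set.mem_preimage, Set.mem_Ioi, hd, and_true, eq_iff_iff] at this
    exact this.symm
  choose O hO1 hO2 using hO
  obtain ⟨en, hen⟩ := exists_surjective_nat ℚ
  obtain ⟨p⟩ := exists_node hA
  obtain ⟨q, hpq, hq⟩ := baire hA (fun n => O (en n)) (fun n => hO1 _) p
  -- all values on the cone agree
  have hval : ∀ d ∈ D, ∀ e ∈ D, Ext q d → Ext q e → rho d = rho e := by
    intro d hd e he hqd hqe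
    apply ι.injective
    by_contra hne
    have key : ∀ d ∈ D, ∀ e ∈ D, Ext q d → Ext q e → ¬ (ι (rho d) < ι (rho e)) := by
      intro d hd e he hqd hqe hlt
      obtain ⟨r, hr1, hr2⟩ := exists_rat_btwn hlt
      obtain ⟨n, hn⟩ := hen r
      have h1 := hq n
      simp only [hn] at h1
      rcases h1 with h1 | h1
      · have := (hO2 r d hd).1 (h1 d hqd)
        exact absurd this (not_lt.2 hr1.le)
      · exact h1 e hqe ((hO2 r e he).2 hr2)
    rcases lt_or_gt_of_ne hne with h | h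
    · exact key d hd e he hqd hqe h
    · exact key e he d hd hqe hqd h
  obtain ⟨V, hV1, hV2, hV3⟩ := exists_open hA q
  obtain ⟨d, hdV, hdD⟩ := hD.inter_open_nonempty V hV1 hV2
  obtain ⟨ξ, hξ, hlt⟩ := hA.unbounded (max q.m (rho d))
  have hlt1 : q.m < ξ := (le_max_left _ _).trans_lt hlt
  have hlt2 : rho d < ξ := (le_max_right _ _).trans_lt hlt
  obtain ⟨V', hV'1, hV'2, hV'3⟩ := exists_open hA (addTop q ξ hξ hlt1)
  obtain ⟨e, heV, heD⟩ := hD.inter_open_nonempty V' hV'1 hV'2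
  have hee := hV'3 e heV
  have h1 : rho d = rho e :=
    hval d hdD e heD (hV3 d hdV) ((addTop_ext q ξ hξ hlt1).trans hee)
  have h2 : ξ ∈ e.s := (hee ξ le_rfl).2 (Set.mem_insert _ _)
  have h3 := hrho e ξ h2
  rw [← h1] at h3
  exact absurd (h3.trans hlt2) (lt_irrefl _)

end Pool.Agent.H328R3.Blum
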