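import Pool.Agent.H328R3.SFin

/-!
Block towers with gaps: the tower set is not Hurewicz.
-/

set_option autoImplicit false
set_option linter.unusedSectionVars false

namespace Pool.Agent.H328R3.GT

open Set Filter Pool.Agent.Helper185.Blk Pool.Agent.Helper185.Silver Pool.Agent.Helper185.Sel

/-- `A` misses infinitely many intervals with both end points in the infinite set `C` -/
def Gap (C A : Set ℕ) : Prop :=
  C.Infinite → ∀ N : ℕ, ∃ a ∈ C, ∃ b ∈ C, N ≤ a ∧ a < b ∧ ∀ n, a ≤ n → n < b → n ∉ A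

theorem Gap.mono {C A A' : Set ℕ} (h : Gap C A) (hA : Sub A' A) : Gap C A' := by
  intro hC N
  obtain ⟨M, hM⟩ := hA
  obtain ⟨a, ha, b, hb, h1, h2, h3⟩ := h hC (max N M)
  exact ⟨a, ha, b, hb, le_of_max_le_left h1, h2, fun n hn hnb hnA =>
    h3 n hn hnb (hM n ((le_of_max_le_right h1).trans hn) hnA)⟩

theorem Gap.infinite_diff {C A : Set ℕ} (h : Gap C A) (hC : C.Infinite) : (C \ A).Infinite := by
  intro hfin
  obtain ⟨M, hM⟩ := hfin.bddAbove
  obtain ⟨a, ha, b, hb, h1, h2, h3⟩ := h hC (M + 1)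
  have := hM (show a ∈ C \ A from ⟨ha, h3 a le_rfl h2⟩)
  omega

theorem exists_gap {p : ℕ → Finset ℕ} (hp : Bl p) (C : Set ℕ) :
    ∃ q, Bl q ∧ Le q p ∧ Gap C (UU q univ) := by
  classical
  by_cases hC : C.Infinite
  · have hstep : ∀ k : ℕ, ∃ k' : ℕ, k < k' ∧ ∃ a ∈ C, ∃ b ∈ C, a < b ∧ (∀ n ∈ p k, n < a) ∧
        b ≤ k' ∧ k ≤ a := by
      intro k
      obtain ⟨a, ha, hka⟩ := hC.exists_gt (max k ((p k).sup id))
      obtain ⟨b, hb, hab⟩ := hC.exists_gt a
      have h1 := (le_max_left k ((p k).sup id)).trans_lt hka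
      refine ⟨b, h1.trans hab, a, ha, b, hb, hab, ?_, le_rfl, h1.le⟩
      intro n hn
      have h2 : n ≤ (p k).sup id := Finset.le_sup (f := id) hn
      exact (h2.trans (le_max_right _ _)).trans_lt hka
    choose s hs a ha b hb hab hpa hbs hka using hstep
    let f : ℕ → ℕ := fun n => s^[n] 0
    have hfs : ∀ n, f (n + 1) = s (f n) := fun n => Function.iterate_succ_apply' s n 0
    have hf : StrictMono f := strictMono_nat_of_lt_succ (fun n => by rw [hfs]; exact hs _)
    refine ⟨fun j => p (f j), hp.comp hf, ⟨0, fun j _ => ⟨{f j}, by simp⟩⟩, ?_⟩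
    intro _ N
    refine ⟨a (f N), ha _, b (f N), hb _, (hf.id_le N).trans (hka _), hab _, ?_⟩
    rintro n hn hnb ⟨j, -, hj⟩
    rcases lt_trichotomy j N with h | h | h
    · obtain ⟨c, hc⟩ := hp.ne (f N)
      have h1 := hp.lt' (hf h) n hj c hc
      have h2 := hpa _ c hc
      omega
    · subst h
      have h2 := hpa _ n hj
      omega
    · have h1 : f (N + 1) ≤ f j := hf.monotone h
      have h2 := hp.le (f j) n hj
      rw [hfs] at h1
      have h3 := hbs (f N)
      omega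
  · exact ⟨p, hp, Le.refl p, fun h => absurd h hC⟩

section Rec

variable {I : Type} [LinearOrder I] [WellFoundedLT I]

/-- the requirement at stage `i`, with gaps -/
def Req2 (B : I → Set ℕ) (O : I → ℕ → Set (Set ℕ)) (i : I)
    (prev : (j : I) → j < i → ℕ → Finset ℕ) (q : ℕ → Finset ℕ) : Prop :=
  Bl q ∧ (∀ (j : I) (h : j < i), Le q (prev j h)) ∧
    Gap (B i) (UU q univ) ∧ TaskP q (before i prev) (O i)

theorem Req2.req {B : I → Set ℕ} {O : I → ℕ → Set (Set ℕ)} {i : I}
    {prev : (j : I) → j < i → ℕ → Finset ℕ} {q : ℕ → Finset ℕ} (h : Req2 B O i prev q) :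
    Req B O i prev q :=
  ⟨h.1, h.2.1, fun hB => h.2.2.1.infinite_diff hB, h.2.2.2⟩

theorem exists_tower2 (hI : ∀ i : I, (Iio i).Countable) (B : I → Set ℕ)
    (O : I → ℕ → Set (Set ℕ)) (hO : ∀ i n, Op (O i n)) :
    ∃ p : I → ℕ → Finset ℕ, ∀ i, Req2 B O i (fun j _ => p j) (p i) := by
  classical
  let step : (i : I) → ((j : I) → j < i → ℕ → Finset ℕ) → ℕ → Finset ℕ := fun i prev =>
    if h : ∃ q, Req2 B O i prev q then h.choose else fun j => {j}
  let p : I → ℕ → Finset ℕ := WellFounded.fix (wellFounded_lt (α := I)) step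
  have hp : ∀ i, p i = step i (fun j _ => p j) := fun i =>
    WellFounded.fix_eq (wellFounded_lt (α := I)) step i
  refine ⟨p, ?_⟩
  intro i
  induction i using WellFoundedLT.induction with
  | ind i ih =>
    have hex : ∃ q, Req2 B O i (fun j _ => p j) q := by
      obtain ⟨r0, hr0, hr02⟩ := exists_lower (hI i) (fun j _ => p j) (fun j h => (ih j h).1)
        (fun j k _ hk hjk => (ih k hk).2.1 j hjk)
      obtain ⟨r, hr1, hrr, hgap⟩ := exists_gap hr0 (B i)
      obtain ⟨q, h1, h2, h3, h4⟩ := stage hr1 (countable_before (hI i) (fun j _ => p j)) (hO i) (B i)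
      exact ⟨q, h1, fun j h => (h2.trans h1 hr1 hrr).trans h1 hr0 (hr02 j h),
        hgap.mono (UU_univ_sub h1 hr1 h2), h4⟩
    rw [hp i]
    simp only [step]
    rw [dif_pos hex]
    exact hex.choose_spec

end Rec

end Pool.Agent.H328R3.GT
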