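import Mathlib

/-!
Conditions used to build a Hurewicz set generating a Borel group which is not σ-compact.
-/

namespace Pool.Agent.H328R3.Hur

open Set Filter

/-- the Cantor group -/
abbrev Z : Type := ℕ × ℕ → ZMod 2

/-- a condition: block boundaries, heights and local constraints -/
structure Cond where
  /-- block boundaries -/
  N : ℕ → ℕ
  /-- column heights -/
  M : ℕ → ℕ
  /-- constraint of each block -/
  F : ℕ → Set Z

/-- the conditions with local constraints with the splitting property -/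
def IsCond (p : Cond) : Prop :=
  StrictMono p.N ∧
  (∀ i (x y : Z), (∀ n m, p.N i ≤ n → n < p.N (i + 1) → m < p.M n → x (n, m) = y (n, m)) →
    x ∈ p.F i → y ∈ p.F i) ∧
  (∀ i (h : Z), ∃ x ∈ p.F i, ∃ y ∈ p.F i,
    ∀ n m, p.N i ≤ n → n < p.N (i + 1) → m < p.M n → x (n, m) + y (n, m) = h (n, m))

/-- `q` is stronger than `p` -/
def Le (q p : Cond) : Prop :=
  ∃ s, (∀ i, s ≤ q.N i → ∃ a, p.N a = q.N i) ∧ (∀ n, s ≤ n → p.M n ≤ q.M n) ∧
    (∀ i, s ≤ q.N i → ∀ x ∈ q.F i, ∀ a, q.N i ≤ p.N a → p.N (a + 1) ≤ q.N (i + 1) → x ∈ p.F a)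

/-- points satisfying the constraints from `s` on -/
def K (p : Cond) (s : ℕ) : Set Z := {x | ∀ i, s ≤ p.N i → x ∈ p.F i}

/-- points satisfying almost all constraints -/
def Kstar (p : Cond) : Set Z := ⋃ s, K p s

/-- all but finitely many columns are finite -/
def HH : Set Z := {x | ∃ N : ℕ, ∀ n, N ≤ n → ∃ M : ℕ, ∀ m, M ≤ m → x (n, m) = 0}

theorem K_mono (p : Cond) {s t : ℕ} (h : s ≤ t) : K p s ⊆ K p t :=
  fun _ hx i hi => hx i (h.trans hi)

theorem block {N : ℕ → ℕ} (hN : StrictMono N) {k t : ℕ} (h : N k ≤ t) :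
    ∃ l, k ≤ l ∧ N l ≤ t ∧ t < N (l + 1) := by
  classical
  have hex : ∃ l, t < N (l + 1) := ⟨t, lt_of_lt_of_le (Nat.lt_succ_self t) (hN.id_le (t + 1))⟩
  by_cases h0 : ∃ l, l < k ∧ t < N (l + 1)
  · obtain ⟨l, h1, h2⟩ := h0
    have h3 := hN.monotone (show l + 1 ≤ k from h1)
    omega
  · push Not at h0
    refine ⟨Nat.find hex, ?_, ?_, Nat.find_spec hex⟩
    · by_contra hc
      exact absurd (Nat.find_spec hex) (not_lt.2 (h0 _ (not_le.1 hc)))
    · rcases Nat.eq_zero_or_pos (Nat.find hex) with h3 | h3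
      · rw [h3]
        exact (hN.monotone (Nat.zero_le k)).trans h
      · have h4 := Nat.find_min hex (m := Nat.find hex - 1) (by omega)
        have h5 : Nat.find hex - 1 + 1 = Nat.find hex := by omega
        rw [h5] at h4
        exact not_lt.1 h4

theorem Le.refl {p : Cond} (hp : IsCond p) : Le p p := by
  refine ⟨0, fun i _ => ⟨i, rfl⟩, fun n _ => le_rfl, ?_⟩
  intro i _ x hx a h1 h2
  have h3 : i ≤ a := hp.1.le_iff_le.1 h1
  have h4 : a + 1 ≤ i + 1 := hp.1.le_iff_le.1 h2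
  have : a = i := by omega
  rw [this]
  exact hx

/-- finding the block of `q` inside the given range that contains a block of `p` -/
theorem sub_block {p q : Cond} (hp : StrictMono p.N) (hq : StrictMono q.N) {s : ℕ}
    (hA : ∀ i, s ≤ q.N i → ∃ a, p.N a = q.N i) {b a : ℕ} (hs : s ≤ q.N b)
    (h : q.N b ≤ p.N a) : ∃ c, b ≤ c ∧ s ≤ q.N c ∧ q.N c ≤ p.N a ∧ p.N (a + 1) ≤ q.N (c + 1) := by
  obtain ⟨c, h1, h2, h3⟩ := block hq h
  have h4 : s ≤ q.N c := hs.trans (hq.monotone h1)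
  obtain ⟨d, hd⟩ := hA (c + 1) (h4.trans (hq.monotone (Nat.le_succ c)))
  refine ⟨c, h1, h4, h2, ?_⟩
  rw [← hd] at h3 ⊢
  exact hp.monotone (hp.lt_iff_lt.1 h3)

theorem Le.trans {r q p : Cond} (h1 : Le r q) (h2 : Le q p) (hr : StrictMono r.N)
    (hq : StrictMono q.N) (hp : StrictMono p.N) : Le r p := by
  obtain ⟨s1, a1, b1, c1⟩ := h1
  obtain ⟨s0, a0, b0, c0⟩ := h2
  refine ⟨max s0 s1, ?_, ?_, ?_⟩
  · intro i hi
    obtain ⟨b, hb⟩ := a1 i ((le_max_right _ _).trans hi)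
    rw [← hb] at hi ⊢
    exact a0 b ((le_max_left _ _).trans hi)
  · intro n hn
    exact (b0 n ((le_max_left _ _).trans hn)).trans (b1 n ((le_max_right _ _).trans hn))
  · intro i hi x hx a ha1 ha2
    have hi0 : s0 ≤ r.N i := (le_max_left _ _).trans hi
    have hi1 : s1 ≤ r.N i := (le_max_right _ _).trans hi
    obtain ⟨b, hb⟩ := a1 i hi1
    obtain ⟨b', hb'⟩ := a1 (i + 1) (hi1.trans (hr.monotone (Nat.le_succ i)))
    rw [← hb] at ha1 hi0
    obtain ⟨c, hc1, hc2, hc3, hc4⟩ := sub_block hp hq a0 hi0 ha1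
    have h5 : q.N (c + 1) ≤ r.N (i + 1) := by
      rw [← hb'] at ha2 ⊢
      apply hq.monotone
      have h6 : q.N c < q.N b' := lt_of_le_of_lt hc3 (lt_of_lt_of_le (hp (Nat.lt_succ_self a)) ha2)
      exact hq.lt_iff_lt.1 h6
    have h7 : x ∈ q.F c := c1 i hi1 x hx c (by rw [← hb]; exact hq.monotone hc1) h5
    exact c0 c hc2 x h7 a hc3 hc4

theorem Kstar_mono {q p : Cond} (h : Le q p) (hq : StrictMono q.N) (hp : StrictMono p.N) :
    Kstar q ⊆ Kstar p := by
  intro x hx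
  obtain ⟨s, hs⟩ := mem_iUnion.1 hx
  obtain ⟨s0, a0, b0, c0⟩ := h
  let i0 := max s s0
  have h1 : s ≤ q.N i0 := (le_max_left _ _).trans (hq.id_le i0)
  have h2 : s0 ≤ q.N i0 := (le_max_right _ _).trans (hq.id_le i0)
  refine mem_iUnion.2 ⟨q.N i0, ?_⟩
  intro a ha
  obtain ⟨c, hc1, hc2, hc3, hc4⟩ := sub_block hp hq a0 h2 ha
  exact c0 c hc2 x (hs c (h1.trans (hq.monotone hc1))) a hc3 hc4

/-- global splitting -/
theorem split {p : Cond} (hp : IsCond p) (h : Z) :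
    ∃ x y : Z, (∀ i, x ∈ p.F i) ∧ (∀ i, y ∈ p.F i) ∧
      ∀ n m, p.N 0 ≤ n → m < p.M n → x (n, m) + y (n, m) = h (n, m) := by
  classical
  obtain ⟨hN, hL, hS⟩ := hp
  choose X hX Y hY hXY using fun i => hS i h
  have hb : ∀ n, ∃ l, p.N 0 ≤ n → p.N l ≤ n ∧ n < p.N (l + 1) := by
    intro n
    by_cases h0 : p.N 0 ≤ n
    · obtain ⟨l, _, h1, h2⟩ := block hN h0
      exact ⟨l, fun _ => ⟨h1, h2⟩⟩
    · exact ⟨0, fun h1 => absurd h1 h0⟩
  choose L hLL using hb
  have huniq : ∀ i n, p.N i ≤ n → n < p.N (i + 1) → L n = i := by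
    intro i n h1 h2
    obtain ⟨h3, h4⟩ := hLL n ((hN.monotone (Nat.zero_le i)).trans h1)
    have h5 : p.N (L n) < p.N (i + 1) := lt_of_le_of_lt h3 h2
    have h6 : p.N i < p.N (L n + 1) := lt_of_le_of_lt h1 h4
    have h7 := hN.lt_iff_lt.1 h5
    have h8 := hN.lt_iff_lt.1 h6
    omega
  refine ⟨fun c => X (L c.1) c, fun c => Y (L c.1) c, ?_, ?_, ?_⟩
  · intro i
    refine hL i (X i) _ ?_ (hX i)
    intro n m h1 h2 _
    change X i (n, m) = X (L n) (n, m)
    rw [huniq i n h1 h2]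
  · intro i
    refine hL i (Y i) _ ?_ (hY i)
    intro n m h1 h2 _
    change Y i (n, m) = Y (L n) (n, m)
    rw [huniq i n h1 h2]
  · intro n m h1 h2
    obtain ⟨h3, h4⟩ := hLL n h1
    exact hXY (L n) n m h3 h4 h2

/-- changing a point outside the region of `p` -/
theorem mem_of_agree {p : Cond} (hp : IsCond p) {x y : Z}
    (h : ∀ n m, p.N 0 ≤ n → m < p.M n → x (n, m) = y (n, m)) {i : ℕ} (hx : x ∈ p.F i) :
    y ∈ p.F i :=
  hp.2.1 i x y (fun n m h1 _ h3 => h n m ((hp.1.monotone (Nat.zero_le i)).trans h1) h3) hx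

theorem split_HH {p : Cond} (hp : IsCond p) {h : Z} (hh : h ∈ HH) :
    ∃ x ∈ Kstar p, ∃ y ∈ Kstar p, x ∈ HH ∧ y ∈ HH ∧ x + y = h := by
  classical
  obtain ⟨x, y, hx, hy, hxy⟩ := split hp h
  refine ⟨fun c => if p.N 0 ≤ c.1 ∧ c.2 < p.M c.1 then x c else h c, mem_iUnion.2 ⟨0, ?_⟩,
    fun c => if p.N 0 ≤ c.1 ∧ c.2 < p.M c.1 then y c else 0, mem_iUnion.2 ⟨0, ?_⟩, ?_, ?_, ?_⟩
  · intro i _
    refine mem_of_agree hp ?_ (hx i)
    intro n m h1 h2
    simp [h1, h2]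
  · intro i _
    refine mem_of_agree hp ?_ (hy i)
    intro n m h1 h2
    simp [h1, h2]
  · obtain ⟨N, hN⟩ := hh
    refine ⟨N, fun n hn => ?_⟩
    obtain ⟨M, hM⟩ := hN n hn
    refine ⟨max M (p.M n), fun m hm => ?_⟩
    have h1 : ¬ m < p.M n := not_lt.2 ((le_max_right _ _).trans hm)
    simp only [h1, and_false, if_false]
    exact hM m ((le_max_left _ _).trans hm)
  · refine ⟨0, fun n _ => ⟨p.M n, fun m hm => ?_⟩⟩
    have h1 : ¬ m < p.M n := not_lt.2 hm
    simp only [h1, and_false, if_false]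
  · funext c
    obtain ⟨n, m⟩ := c
    simp only [Pi.add_apply]
    by_cases h1 : p.N 0 ≤ n ∧ m < p.M n
    · rw [if_pos h1, if_pos h1]
      exact hxy n m h1.1 h1.2
    · rw [if_neg h1, if_neg h1, add_zero]

theorem isClopen_of_local {A : Set Z} (S : Finset (ℕ × ℕ))
    (h : ∀ x y : Z, (∀ c ∈ S, x c = y c) → x ∈ A → y ∈ A) : IsClopen A := by
  have key : ∀ B : Set Z, (∀ x y : Z, (∀ c ∈ S, x c = y c) → x ∈ B → y ∈ B) → IsOpen B := by
    intro B hB
    rw [isOpen_iff_mem_nhds]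
    intro x hx
    have h1 : IsOpen (⋂ c ∈ S, {y : Z | y c = x c}) := by
      apply isOpen_biInter_finset
      intro c _
      have h2 : Continuous (fun y : Z => y c) := continuous_apply c
      exact (isOpen_discrete ({x c} : Set (ZMod 2))).preimage h2
    refine Filter.mem_of_superset (h1.mem_nhds (by simp)) ?_
    intro y hy
    refine hB x y (fun c hc => ?_) hx
    have := mem_iInter₂.1 hy c hc
    exact this.symm
  refine ⟨⟨key _ ?_⟩, key A h⟩
  intro x y hxy hx hy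
  exact hx (h y x (fun c hc => (hxy c hc).symm) hy)

theorem isClosed_F {p : Cond} (hp : IsCond p) (i : ℕ) : IsClosed (p.F i) := by
  classical
  refine (isClopen_of_local
    ((Finset.range (p.N (i + 1))).biUnion
      (fun n => (Finset.range (p.M n)).image (fun m => (n, m)))) ?_).1
  intro x y hxy hx
  refine hp.2.1 i x y (fun n m _ h2 h3 => hxy _ ?_) hx
  rw [Finset.mem_biUnion]
  exact ⟨n, Finset.mem_range.2 h2, Finset.mem_image.2 ⟨m, Finset.mem_range.2 h3, rfl⟩⟩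

theorem isClosed_K {p : Cond} (hp : IsCond p) (s : ℕ) : IsClosed (K p s) := by
  have : K p s = ⋂ i, ⋂ (_ : s ≤ p.N i), p.F i := by
    ext x
    simp [K]
  rw [this]
  exact isClosed_iInter (fun i => isClosed_iInter (fun _ => isClosed_F hp i))

theorem isCompact_K {p : Cond} (hp : IsCond p) (s : ℕ) : IsCompact (K p s) :=
  (isClosed_K hp s).isCompact

theorem region {p : Cond} (hp : IsCond p) {W : Set Z} (hW : IsOpen W)
    (hpW : ∀ x ∈ Kstar p, x ∈ HH → x ∈ W) (s : ℕ) :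
    ∃ k, ∀ x ∈ K p s, (∀ n m, s ≤ n → n < k → p.M n ≤ m → m < k → x (n, m) = 0) → x ∈ W := by
  by_contra hcon
  push Not at hcon
  let C : ℕ → Set Z := fun k =>
    {x | x ∈ K p s ∧ (∀ n m, s ≤ n → n < k → p.M n ≤ m → m < k → x (n, m) = 0) ∧ x ∉ W}
  have hne : ∀ k, (C k).Nonempty := fun k => by
    obtain ⟨x, h1, h2, h3⟩ := hcon k
    exact ⟨x, h1, h2, h3⟩
  have hcl : ∀ k, IsClosed (C k) := by
    intro k
    have h1 : IsClosed {x : Z | ∀ n m, s ≤ n → n < k → p.M n ≤ m → m < k → x (n, m) = 0} := by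
      simp only [Set.ofPred_forall]
      refine isClosed_iInter fun n => isClosed_iInter fun m => isClosed_iInter fun _ =>
        isClosed_iInter fun _ => isClosed_iInter fun _ => isClosed_iInter fun _ => ?_
      exact isClosed_eq (continuous_apply _) continuous_const
    exact (isClosed_K hp s).inter (h1.inter hW.isClosed_compl)
  have hdec : ∀ k, C (k + 1) ⊆ C k := by
    rintro k x ⟨h1, h2, h3⟩
    exact ⟨h1, fun n m a b c d => h2 n m a (by omega) c (by omega), h3⟩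
  obtain ⟨x, hx⟩ := IsCompact.nonempty_iInter_of_sequence_nonempty_isCompact_isClosed C hdec hne
    (hcl 0).isCompact hcl
  rw [mem_iInter] at hx
  refine (hx 0).2.2 (hpW x (mem_iUnion.2 ⟨s, (hx 0).1⟩) ⟨s, fun n hn => ⟨p.M n, fun m hm => ?_⟩⟩)
  exact (hx (max n m + 1)).2.1 n m hn (by omega) hm (by omega)

end Pool.Agent.H328R3.Hur
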