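import Pool.Agent.H328R3.HurA

/-!
The two closure steps for the conditions of `HurA`.
-/

namespace Pool.Agent.H328R3.Hur

open Set Filter

theorem exists_index {N : ℕ → ℕ} (hN : StrictMono N) :
    ∃ L : ℕ → ℕ, (∀ n, N 0 ≤ n → N (L n) ≤ n ∧ n < N (L n + 1)) ∧
      ∀ i n, N i ≤ n → n < N (i + 1) → L n = i := by
  have hb : ∀ n, ∃ l, N 0 ≤ n → N l ≤ n ∧ n < N (l + 1) := by
    intro n
    by_cases h0 : N 0 ≤ n
    · obtain ⟨l, _, h1, h2⟩ := block hN h0
      exact ⟨l, fun _ => ⟨h1, h2⟩⟩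
    · exact ⟨0, fun h1 => absurd h1 h0⟩
  choose L hLL using hb
  refine ⟨L, hLL, ?_⟩
  intro i n h1 h2
  obtain ⟨h3, h4⟩ := hLL n ((hN.monotone (Nat.zero_le i)).trans h1)
  have h5 : N (L n) < N (i + 1) := lt_of_le_of_lt h3 h2
  have h6 : N i < N (L n + 1) := lt_of_le_of_lt h1 h4
  have h7 := hN.lt_iff_lt.1 h5
  have h8 := hN.lt_iff_lt.1 h6
  omega

theorem gdelta {p : Cond} (hp : IsCond p) (W : ℕ → Set Z) (hW : ∀ n, IsOpen (W n))
    (h : ∀ x ∈ Kstar p, x ∈ HH → ∀ n, x ∈ W n) :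
    ∃ q, IsCond q ∧ Le q p ∧ ∀ x ∈ Kstar q, ∀ n, x ∈ W n := by
  classical
  let W' : ℕ → Set Z := fun j => ⋂ i ∈ Finset.range (j + 1), W i
  have hW' : ∀ j, IsOpen (W' j) := fun j => isOpen_biInter_finset (fun i _ => hW i)
  have hpW : ∀ j, ∀ x ∈ Kstar p, x ∈ HH → x ∈ W' j := fun j x hx hx' =>
    mem_iInter₂.2 (fun i _ => h x hx hx' i)
  choose k hk using fun j s => region hp (hW' j) (hpW j) s
  let g : ℕ → ℕ → ℕ := fun j s => p.N (max (k j s) (s + 1))
  have hg1 : ∀ j s, k j s ≤ g j s := fun j s => (le_max_left _ _).trans (hp.1.id_le _)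
  have hg2 : ∀ j s, s < g j s := fun j s =>
    lt_of_lt_of_le (Nat.lt_succ_self s) ((le_max_right _ _).trans (hp.1.id_le _))
  let S : ℕ → ℕ := fun j => Nat.rec (p.N 0) (fun j s => g j (g j s)) j
  let T : ℕ → ℕ := fun j => g j (S j)
  have hSS : ∀ j, S (j + 1) = g j (T j) := fun j => rfl
  have hSr : ∀ j, ∃ a, p.N a = S j := by
    intro j
    cases j with
    | zero => exact ⟨0, rfl⟩
    | succ j => exact ⟨_, rfl⟩
  have hTr : ∀ j, ∃ a, p.N a = T j := fun j => ⟨_, rfl⟩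
  have hST : ∀ j, S j < T j := fun j => hg2 j _
  have hTS : ∀ j, T j < S (j + 1) := fun j => hg2 j _
  have hS : StrictMono S := strictMono_nat_of_lt_succ (fun j => (hST j).trans (hTS j))
  have hS0 : ∀ j, p.N 0 ≤ S j := fun j => hS.monotone (Nat.zero_le j)
  have hM : ∀ j n, S j ≤ n → S (j + 1) ≤ S (n + 1) := by
    intro j n hn
    have := hS.id_le j
    exact hS.monotone (Nat.succ_le_succ (this.trans hn))
  let q : Cond := ⟨S, fun n => max (p.M n) (S (n + 1)), fun j => {x |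
    (∀ a, S j ≤ p.N a → p.N (a + 1) ≤ S (j + 1) → x ∈ p.F a) ∧
    ((∀ n m, S j ≤ n → n < T j → p.M n ≤ m → m < S (j + 1) → x (n, m) = 0) ∨
     (∀ n m, T j ≤ n → n < S (j + 1) → p.M n ≤ m → m < S (j + 1) → x (n, m) = 0))}⟩
  have hLe : Le q p := by
    refine ⟨0, fun i _ => hSr i, fun n _ => le_max_left _ _, ?_⟩
    intro i _ x hx a h1 h2
    exact hx.1 a h1 h2
  refine ⟨q, ⟨hS, ?_, ?_⟩, hLe, ?_⟩
  · rintro i x y hxy ⟨h1, h2⟩
    refine ⟨?_, ?_⟩
    · intro a ha1 ha2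
      refine hp.2.1 a x y ?_ (h1 a ha1 ha2)
      intro n m h3 h4 h5
      exact hxy n m (ha1.trans h3) (lt_of_lt_of_le h4 ha2) (lt_of_lt_of_le h5 (le_max_left _ _))
    · rcases h2 with h2 | h2
      · left
        intro n m h3 h4 h5 h6
        rw [← hxy n m h3 (h4.trans (hTS i))
          (lt_of_lt_of_le h6 ((hM i n h3).trans (le_max_right _ _)))]
        exact h2 n m h3 h4 h5 h6
      · right
        intro n m h3 h4 h5 h6
        rw [← hxy n m ((hST i).le.trans h3) h4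
          (lt_of_lt_of_le h6 ((hM i n ((hST i).le.trans h3)).trans (le_max_right _ _)))]
        exact h2 n m h3 h4 h5 h6
  · intro j f
    obtain ⟨x0, y0, hx0, hy0, hxy0⟩ := split hp f
    refine ⟨fun c => if p.M c.1 ≤ c.2 then (if c.1 < T j then 0 else f c) else x0 c, ⟨?_, ?_⟩,
      fun c => if p.M c.1 ≤ c.2 then (if c.1 < T j then f c else 0) else y0 c, ⟨?_, ?_⟩, ?_⟩
    · intro a _ _
      refine mem_of_agree hp ?_ (hx0 a)
      intro n m _ h2
      simp [not_le.2 h2]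
    · left
      intro n m h1 h2 h3 h4
      simp [h2, h3]
    · intro a _ _
      refine mem_of_agree hp ?_ (hy0 a)
      intro n m _ h2
      simp [not_le.2 h2]
    · right
      intro n m h1 h2 h3 h4
      simp [not_lt.2 h1, h3]
    · intro n m h1 h2 h3
      by_cases h4 : p.M n ≤ m
      · by_cases h5 : n < T j
        · simp [h4, h5]
        · simp [h4, h5]
      · simp only [h4, if_false]
        exact hxy0 n m ((hS0 j).trans h1) (not_le.1 h4)
  · intro x hx i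
    obtain ⟨s, hs⟩ := mem_iUnion.1 hx
    let j := max i s
    have hj : s ≤ S j := (le_max_right _ _).trans (hS.id_le j)
    have hij : i ≤ j := le_max_left _ _
    have hxK : x ∈ K p (S j) := by
      intro a ha
      obtain ⟨c, hc1, hc2, hc3, hc4⟩ := sub_block (p := p) (q := q) hp.1 hS (s := 0)
        (fun i _ => hSr i) (Nat.zero_le _) ha
      exact (hs c (hj.trans (hS.monotone hc1))).1 a hc3 hc4
    have hxj := hs j hj
    have hfin : x ∈ W' j := by
      rcases hxj.2 with h2 | h2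
      · refine hk j (S j) x hxK ?_
        intro n m h3 h4 h5 h6
        have h7 : k j (S j) ≤ T j := hg1 j _
        exact h2 n m h3 (by omega) h5 (by have := hTS j; omega)
      · refine hk j (T j) x (K_mono p (hST j).le hxK) ?_
        intro n m h3 h4 h5 h6
        have h7 : k j (T j) ≤ S (j + 1) := hg1 j _
        exact h2 n m h3 (by omega) h5 (by omega)
    exact mem_iInter₂.1 hfin i (Finset.mem_range.2 (Nat.lt_succ_of_le hij))

theorem lower_seq (p : ℕ → Cond) (hp : ∀ n, IsCond (p n))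
    (hd : ∀ m n, m ≤ n → Le (p n) (p m)) : ∃ q, IsCond q ∧ ∀ n, Le q (p n) := by
  classical
  have hd' : ∀ m n, ∃ s, m ≤ n → (∀ i, s ≤ (p n).N i → ∃ a, (p m).N a = (p n).N i) ∧
      (∀ l, s ≤ l → (p m).M l ≤ (p n).M l) ∧
      (∀ i, s ≤ (p n).N i → ∀ x ∈ (p n).F i, ∀ a, (p n).N i ≤ (p m).N a →
        (p m).N (a + 1) ≤ (p n).N (i + 1) → x ∈ (p m).F a) := by
    intro m n
    by_cases h : m ≤ n
    · obtain ⟨s, h1⟩ := hd m n h
      exact ⟨s, fun _ => h1⟩
    · exact ⟨0, fun h1 => absurd h1 h⟩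
  choose σ hσ using hd'
  let θ : ℕ → ℕ := fun i => (Finset.range (i + 1)).sup (fun m => σ m i)
  have hθ : ∀ m i, m ≤ i → σ m i ≤ θ i := fun m i h =>
    Finset.le_sup (f := fun m => σ m i) (Finset.mem_range.2 (Nat.lt_succ_of_le h))
  let S : ℕ → ℕ := fun i => Nat.rec ((p 0).N (θ 0))
    (fun i s => (p (i + 1)).N (max (θ (i + 1)) (s + 1))) i
  have hSr : ∀ i, ∃ a, (p i).N a = S i := by
    intro i
    cases i with
    | zero => exact ⟨_, rfl⟩
    | succ i => exact ⟨_, rfl⟩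
  have hSθ : ∀ i, θ i ≤ S i := by
    intro i
    cases i with
    | zero => exact (hp 0).1.id_le _
    | succ i => exact (le_max_left _ _).trans ((hp (i + 1)).1.id_le _)
  have hS : StrictMono S := strictMono_nat_of_lt_succ (fun i =>
    lt_of_lt_of_le (Nat.lt_succ_self _) ((le_max_right _ _).trans ((hp (i + 1)).1.id_le _)))
  have hσS : ∀ m i, m ≤ i → σ m i ≤ S i := fun m i h => (hθ m i h).trans (hSθ i)
  have hSr' : ∀ i, ∃ a, (p i).N a = S (i + 1) := by
    intro i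
    obtain ⟨b, hb⟩ := hSr (i + 1)
    obtain ⟨a, ha⟩ := (hσ i (i + 1) (Nat.le_succ i)).1 b
      (by rw [hb]; exact hσS i (i + 1) (Nat.le_succ i))
    exact ⟨a, by rw [ha, hb]⟩
  obtain ⟨L, hL1, hL2⟩ := exists_index hS
  let q : Cond := ⟨S, fun n => (p (L n)).M n, fun i => {x |
    ∀ a, S i ≤ (p i).N a → (p i).N (a + 1) ≤ S (i + 1) → x ∈ (p i).F a}⟩
  refine ⟨q, ⟨hS, ?_, ?_⟩, ?_⟩
  · intro i x y hxy hx a ha1 ha2
    refine (hp i).2.1 a x y ?_ (hx a ha1 ha2)
    intro n m h3 h4 h5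
    have h6 : L n = i := hL2 i n (ha1.trans h3) (lt_of_lt_of_le h4 ha2)
    refine hxy n m (ha1.trans h3) (lt_of_lt_of_le h4 ha2) ?_
    change m < (p (L n)).M n
    rw [h6]
    exact h5
  · intro i f
    obtain ⟨x0, y0, hx0, hy0, hxy0⟩ := split (hp i) f
    refine ⟨x0, fun a _ _ => hx0 a, y0, fun a _ _ => hy0 a, ?_⟩
    intro n m h1 h2 h3
    have h6 : L n = i := hL2 i n h1 h2
    change m < (p (L n)).M n at h3
    rw [h6] at h3
    obtain ⟨b, hb⟩ := hSr i
    refine hxy0 n m ?_ h3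
    change S i ≤ n at h1
    rw [← hb] at h1
    exact ((hp i).1.monotone (Nat.zero_le b)).trans h1
  · intro m
    refine ⟨S m, ?_, ?_, ?_⟩
    · intro i hi
      have hmi : m ≤ i := hS.le_iff_le.1 hi
      obtain ⟨b, hb⟩ := hSr i
      obtain ⟨a, ha⟩ := (hσ m i hmi).1 b (by rw [hb]; exact hσS m i hmi)
      exact ⟨a, by rw [ha, hb]⟩
    · intro n hn
      obtain ⟨h1, h2⟩ := hL1 n ((hS.monotone (Nat.zero_le m)).trans hn)
      have hmi : m ≤ L n := by
        have : S m < S (L n + 1) := lt_of_le_of_lt hn h2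
        exact Nat.lt_succ_iff.1 (hS.lt_iff_lt.1 this)
      exact (hσ m (L n) hmi).2.1 n ((hσS m (L n) hmi).trans h1)
    · intro i hi x hx a ha1 ha2
      have hmi : m ≤ i := hS.le_iff_le.1 hi
      obtain ⟨b, hb⟩ := hSr i
      obtain ⟨b', hb'⟩ := hSr' i
      change S i ≤ (p m).N a at ha1
      change (p m).N (a + 1) ≤ S (i + 1) at ha2
      rw [← hb] at ha1
      obtain ⟨c, hc1, hc2, hc3, hc4⟩ := sub_block (hp m).1 (hp i).1 (hσ m i hmi).1
        (by rw [hb]; exact hσS m i hmi) ha1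
      have h6 : (p i).N c < (p i).N b' := by
        rw [hb']
        exact lt_of_le_of_lt hc3 (lt_of_lt_of_le ((hp m).1 (Nat.lt_succ_self a)) ha2)
      have h7 : (p i).N (c + 1) ≤ S (i + 1) := by
        rw [← hb']
        exact (hp i).1.monotone ((hp i).1.lt_iff_lt.1 h6)
      have h8 : x ∈ (p i).F c := hx c (by rw [← hb]; exact (hp i).1.monotone hc1) h7
      exact (hσ m i hmi).2.2 c hc2 x h8 a hc3 hc4

/-- the trivial condition -/
def triv : Cond := ⟨fun i => i, fun _ => 0, fun _ => univ⟩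

theorem triv_isCond : IsCond triv :=
  ⟨strictMono_id, fun _ _ _ _ _ => mem_univ _, fun _ _ => ⟨0, mem_univ _, 0, mem_univ _,
    fun _ _ _ _ h => absurd h (Nat.not_lt_zero _)⟩⟩

end Pool.Agent.H328R3.Hur
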