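import Pool.Agent.H328R3.HurB

/-!
The group of points almost all of whose columns are finite: it is Borel and not σ-compact.
-/

namespace Pool.Agent.H328R3.Hur

open Set Filter

/-- the subgroup of points almost all of whose columns are finite -/
def HG : AddSubgroup Z where
  carrier := HH
  zero_mem' := ⟨0, fun _ _ => ⟨0, fun _ _ => rfl⟩⟩
  add_mem' := by
    rintro x y ⟨N, hN⟩ ⟨N', hN'⟩
    refine ⟨max N N', fun n hn => ?_⟩
    obtain ⟨M, hM⟩ := hN n ((le_max_left _ _).trans hn)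
    obtain ⟨M', hM'⟩ := hN' n ((le_max_right _ _).trans hn)
    refine ⟨max M M', fun m hm => ?_⟩
    rw [Pi.add_apply, hM m ((le_max_left _ _).trans hm), hM' m ((le_max_right _ _).trans hm),
      add_zero]
  neg_mem' := by
    rintro x ⟨N, hN⟩
    refine ⟨N, fun n hn => ?_⟩
    obtain ⟨M, hM⟩ := hN n hn
    exact ⟨M, fun m hm => by rw [Pi.neg_apply, hM m hm, neg_zero]⟩

theorem coe_HG : (HG : Set Z) = HH := rfl

theorem measurable_HH : @MeasurableSet Z (borel Z) HH := by
  letI : MeasurableSpace Z := borel Z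
  haveI : BorelSpace Z := ⟨rfl⟩
  have : HH = ⋃ N : ℕ, ⋂ n : ℕ, ⋂ (_ : N ≤ n), ⋃ M : ℕ, ⋂ m : ℕ, ⋂ (_ : M ≤ m),
      {x : Z | x (n, m) = 0} := by
    ext x
    simp [HH]
  rw [this]
  refine MeasurableSet.iUnion fun N => MeasurableSet.iInter fun n => MeasurableSet.iInter fun _ =>
    MeasurableSet.iUnion fun M => MeasurableSet.iInter fun m => MeasurableSet.iInter fun _ => ?_
  have h1 : IsClosed {x : Z | x (n, m) = 0} :=
    isClosed_eq (continuous_apply _) continuous_const
  exact h1.measurableSet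

theorem exists_agree {W : Set Z} (hW : IsOpen W) {u : Z} (hu : u ∈ W) :
    ∃ N : ℕ, ∀ v : Z, (∀ n m, n < N → m < N → v (n, m) = u (n, m)) → v ∈ W := by
  classical
  obtain ⟨I, t, h1, h2⟩ := isOpen_pi_iff.1 hW u hu
  refine ⟨I.sup (fun c => max c.1 c.2 + 1), fun v hv => h2 ?_⟩
  intro c hc
  have h3 : max c.1 c.2 + 1 ≤ I.sup (fun c => max c.1 c.2 + 1) :=
    Finset.le_sup (f := fun c : ℕ × ℕ => max c.1 c.2 + 1) hc
  have h4 : v c = u c := hv c.1 c.2 (by omega) (by omega)
  rw [h4]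
  exact (h1 c hc).2

/-- columns below `b` are initial segments given by `g`, the others are full -/
def uu (g : ℕ → ℕ) (b : ℕ) : Z := fun c => if c.1 < b then (if c.2 < g c.1 then 1 else 0) else 1

theorem uu_notMem (g : ℕ → ℕ) (b : ℕ) : uu g b ∉ HH := by
  rintro ⟨N, hN⟩
  obtain ⟨M, hM⟩ := hN (max N b) (le_max_left _ _)
  have h1 := hM M le_rfl
  have h2 : ¬ max N b < b := not_lt.2 (le_max_right _ _)
  simp [uu, h2] at h1

theorem not_sigmaCompact : ¬ IsSigmaCompact HH := by
  classical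
  rintro ⟨C, hC, hU⟩
  have hex : ∀ (j : ℕ) (s : ℕ × (ℕ → ℕ)), ∃ N : ℕ, ∀ v : Z,
      (∀ n m, n < N → m < N → v (n, m) = uu s.2 s.1 (n, m)) → v ∉ C j := by
    intro j s
    have h1 : uu s.2 s.1 ∈ (C j)ᶜ := by
      intro h2
      apply uu_notMem s.2 s.1
      rw [← hU]
      exact mem_iUnion.2 ⟨j, h2⟩
    obtain ⟨N, hN⟩ := exists_agree (hC j).isClosed.isOpen_compl h1
    exact ⟨N, hN⟩
  choose R hR using hex
  let step : ℕ → ℕ × (ℕ → ℕ) → ℕ × (ℕ → ℕ) := fun j s =>
    (max (s.1 + 1) (R j s), fun n => if n < s.1 then s.2 n else R j s)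
  let st : ℕ → ℕ × (ℕ → ℕ) := fun j => Nat.rec (0, fun _ => 0) (fun j s => step j s) j
  have hst : ∀ j, st (j + 1) = step j (st j) := fun j => rfl
  have hb : StrictMono (fun j => (st j).1) := strictMono_nat_of_lt_succ (fun j => by
    rw [hst]
    exact lt_of_lt_of_le (Nat.lt_succ_self _) (le_max_left _ _))
  have hg1 : ∀ j n, n < (st j).1 → (st (j + 1)).2 n = (st j).2 n := by
    intro j n hn
    rw [hst]
    simp [step, hn]
  have hg : ∀ d j n, n < (st j).1 → (st (j + d)).2 n = (st j).2 n := by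
    intro d
    induction d with
    | zero => intro j n _; rfl
    | succ d ih =>
      intro j n hn
      rw [← ih j n hn]
      exact hg1 (j + d) n (lt_of_lt_of_le hn (hb.monotone (Nat.le_add_right j d)))
  let G : ℕ → ℕ := fun n => (st (n + 1)).2 n
  have hG : ∀ j n, n < (st j).1 → G n = (st j).2 n := by
    intro j n hn
    have h1 : n < (st (n + 1)).1 := lt_of_lt_of_le (Nat.lt_succ_self n) (hb.id_le (n + 1))
    rcases le_total j (n + 1) with h | h
    · obtain ⟨d, hd⟩ := Nat.exists_eq_add_of_le h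
      change (st (n + 1)).2 n = _
      rw [hd]
      exact hg d j n hn
    · obtain ⟨d, hd⟩ := Nat.exists_eq_add_of_le h
      rw [hd]
      exact (hg d (n + 1) n h1).symm
  let v : Z := fun c => if c.2 < G c.1 then 1 else 0
  have hv : v ∈ HH := by
    refine ⟨0, fun n _ => ⟨G n, fun m hm => ?_⟩⟩
    simp [v, not_lt.2 hm]
  rw [← hU] at hv
  obtain ⟨j, hj⟩ := mem_iUnion.1 hv
  refine hR j (st j) v ?_ hj
  intro n m hn hm
  have h1 : (st (j + 1)).1 = max ((st j).1 + 1) (R j (st j)) := by rw [hst]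
  have h2 : n < (st (j + 1)).1 := by
    rw [h1]
    exact lt_of_lt_of_le hn (le_max_right _ _)
  have h3 : G n = if n < (st j).1 then (st j).2 n else R j (st j) := by
    rw [hG (j + 1) n h2, hst]
  by_cases h4 : n < (st j).1
  · rw [if_pos h4] at h3
    simp [v, uu, h3, h4]
  · rw [if_neg h4] at h3
    simp [v, uu, h3, h4, hm]

end Pool.Agent.H328R3.Hur
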