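import Pool.Agent.H328R3.HurC

/-!
The tower of conditions and the Hurewicz set, under the continuum hypothesis.
-/

namespace Pool.Agent.H328R3.Hur

open Set Filter Pointwise

section Rec

variable {I : Type} [LinearOrder I] [WellFoundedLT I]

theorem exists_lower {i : I} (hI : (Iio i).Countable) (prev : (j : I) → j < i → Cond)
    (hbl : ∀ j h, IsCond (prev j h))
    (hchain : ∀ (j k : I) (hj : j < i) (hk : k < i), j < k → Le (prev k hk) (prev j hj)) :
    ∃ p, IsCond p ∧ ∀ j h, Le p (prev j h) := by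
  classical
  have : Countable (Iio i) := hI.to_subtype
  rcases isEmpty_or_nonempty (Iio i) with he | hne
  · exact ⟨triv, triv_isCond, fun j h => (he.false ⟨j, h⟩).elim⟩
  · obtain ⟨e, he⟩ := exists_surjective_nat (Iio i)
    have hch : ∀ a b : Iio i, a ≤ b → Le (prev b.1 b.2) (prev a.1 a.2) := by
      intro a b hab
      rcases eq_or_lt_of_le hab with h | h
      · subst h
        exact Le.refl (hbl _ _)
      · exact hchain a.1 b.1 a.2 b.2 h
    obtain ⟨p, hp1, hp2⟩ := lower_seq (fun n => prev (partialSups e n).1 (partialSups e n).2)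
      (fun n => hbl _ _) (fun m n hmn => hch _ _ ((partialSups e).monotone hmn))
    refine ⟨p, hp1, fun j h => ?_⟩
    obtain ⟨n, hn⟩ := he ⟨j, h⟩
    refine (hp2 n).trans ?_ hp1.1 (hbl _ _).1 (hbl _ _).1
    have h1 := hch (e n) (partialSups e n) (le_partialSups e n)
    rw [hn] at h1
    exact h1

/-- the requirement at stage `i` -/
def Req (W : I → ℕ → Set Z) (g : I → Z) (i : I)
    (prev : (j : I) → j < i → Cond × Set Z) (v : Cond × Set Z) : Prop :=
  IsCond v.1 ∧ (∀ (j : I) (h : j < i), Le v.1 (prev j h).1) ∧ v.2.Countable ∧ v.2 ⊆ HH ∧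
    (∀ (j : I) (h : j < i), v.2 ⊆ Kstar (prev j h).1) ∧
    ((∃ x ∈ v.2, ∃ n, x ∉ W i n) ∨ ∀ x ∈ Kstar v.1, ∀ n, x ∈ W i n) ∧
    (g i ∈ HH → ∃ x ∈ v.2, ∃ y ∈ v.2, x + y = g i)

theorem stage (W : ℕ → Set Z) (hW : ∀ n, IsOpen (W n)) (g : Z) {r : Cond} (hr : IsCond r) :
    ∃ v : Cond × Set Z, IsCond v.1 ∧ Le v.1 r ∧ v.2.Countable ∧ v.2 ⊆ HH ∧ v.2 ⊆ Kstar r ∧
      ((∃ x ∈ v.2, ∃ n, x ∉ W n) ∨ ∀ x ∈ Kstar v.1, ∀ n, x ∈ W n) ∧
      (g ∈ HH → ∃ x ∈ v.2, ∃ y ∈ v.2, x + y = g) := by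
  classical
  have h1 : ∃ S : Set Z, S.Countable ∧ S ⊆ HH ∧ S ⊆ Kstar r ∧
      (g ∈ HH → ∃ x ∈ S, ∃ y ∈ S, x + y = g) := by
    by_cases hg : g ∈ HH
    · obtain ⟨x, hx, y, hy, hx', hy', hxy⟩ := split_HH hr hg
      refine ⟨{x, y}, (countable_singleton y).insert x, ?_, ?_,
        fun _ => ⟨x, by simp, y, by simp, hxy⟩⟩
      · rintro z (rfl | rfl)
        · exact hx'
        · exact hy'
      · rintro z (rfl | rfl)
        · exact hx
        · exact hy
    · exact ⟨∅, countable_empty, empty_subset _, empty_subset _, fun h => absurd h hg⟩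
  obtain ⟨S, hS1, hS2, hS3, hS4⟩ := h1
  by_cases hc : ∃ x ∈ Kstar r, x ∈ HH ∧ ∃ n, x ∉ W n
  · obtain ⟨x, hx1, hx2, hx3⟩ := hc
    refine ⟨(r, insert x S), hr, Le.refl hr, hS1.insert x, ?_, ?_, Or.inl ⟨x, by simp, hx3⟩, ?_⟩
    · rintro z (rfl | hz)
      · exact hx2
      · exact hS2 hz
    · rintro z (rfl | hz)
      · exact hx1
      · exact hS3 hz
    · intro hg
      obtain ⟨a, ha, b, hb, hab⟩ := hS4 hg
      exact ⟨a, Or.inr ha, b, Or.inr hb, hab⟩
  · push Not at hc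
    obtain ⟨q, hq1, hq2, hq3⟩ := gdelta hr W hW hc
    exact ⟨(q, S), hq1, hq2, hS1, hS2, hS3, Or.inr hq3, hS4⟩

theorem exists_tower (hI : ∀ i : I, (Iio i).Countable) (W : I → ℕ → Set Z)
    (hW : ∀ i n, IsOpen (W i n)) (g : I → Z) :
    ∃ p : I → Cond × Set Z, ∀ i, Req W g i (fun j _ => p j) (p i) := by
  classical
  let step : (i : I) → ((j : I) → j < i → Cond × Set Z) → Cond × Set Z := fun i prev =>
    if h : ∃ q, Req W g i prev q then h.choose else (triv, ∅)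
  let p : I → Cond × Set Z := WellFounded.fix (wellFounded_lt (α := I)) step
  have hp : ∀ i, p i = step i (fun j _ => p j) := fun i =>
    WellFounded.fix_eq (wellFounded_lt (α := I)) step i
  refine ⟨p, ?_⟩
  intro i
  induction i using WellFoundedLT.induction with
  | ind i ih =>
    have hex : ∃ q, Req W g i (fun j _ => p j) q := by
      obtain ⟨r, hr1, hr2⟩ := exists_lower (hI i) (fun j _ => (p j).1) (fun j h => (ih j h).1)
        (fun j k _ hk hjk => (ih k hk).2.1 j hjk)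
      obtain ⟨v, h1, h2, h3, h4, h5, h6, h7⟩ := stage (W i) (hW i) (g i) hr1
      refine ⟨v, h1, fun j h => h2.trans (hr2 j h) h1.1 hr1.1 (ih j h).1.1, h3, h4,
        fun j h => h5.trans (Kstar_mono (hr2 j h) hr1.1 (ih j h).1.1), h6, h7⟩
    rw [hp i]
    simp only [step]
    rw [dif_pos hex]
    exact hex.choose_spec

end Rec

theorem exists_basis : ∃ b : ℕ → Set Z, (∀ k, IsOpen (b k)) ∧
    ∀ W : Set Z, IsOpen W → ∃ S : Set ℕ, W = ⋃ k ∈ S, b k := by
  classical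
  obtain ⟨B, hB1, hB2, hB3⟩ := TopologicalSpace.exists_countable_basis Z
  have hne : B.Nonempty := by
    by_contra hc
    rw [not_nonempty_iff_eq_empty] at hc
    have h1 := hB3.sUnion_eq
    rw [hc, sUnion_empty] at h1
    exact absurd (mem_univ (0 : Z)) (by rw [← h1]; exact notMem_empty _)
  obtain ⟨b, hb⟩ := hB1.exists_eq_range hne
  refine ⟨b, fun k => hB3.isOpen (by rw [hb]; exact ⟨k, rfl⟩), ?_⟩
  intro W hW
  refine ⟨{k | b k ⊆ W}, ?_⟩
  ext x
  constructor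
  · intro hx
    obtain ⟨v, hv1, hv2, hv3⟩ := hB3.exists_subset_of_mem_open hx hW
    rw [hb] at hv1
    obtain ⟨k, rfl⟩ := hv1
    exact mem_iUnion₂.2 ⟨k, hv3, hv2⟩
  · intro hx
    obtain ⟨k, hk, hxk⟩ := mem_iUnion₂.1 hx
    exact hk hxk

/-- Under the continuum hypothesis there is a well-order enumerating all tasks. -/
theorem exists_enumeration (hCH : Cardinal.aleph 1 = Cardinal.continuum.{0}) :
    ∃ (I : Type) (_ : LinearOrder I) (_ : WellFoundedLT I), (∀ i : I, (Iio i).Countable) ∧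
      ∃ (W : I → ℕ → Set Z) (g : I → Z), (∀ i n, IsOpen (W i n)) ∧
        (∀ (V : ℕ → Set Z), (∀ n, IsOpen (V n)) → ∃ i, W i = V) ∧ ∀ h, ∃ i, g i = h := by
  classical
  obtain ⟨b, hb1, hb2⟩ := exists_basis
  let I : Type := (Cardinal.aleph 1).ord.ToType
  refine ⟨I, inferInstance, inferInstance, ?_, ?_⟩
  · intro i
    rw [← Cardinal.le_aleph0_iff_set_countable, ← Cardinal.lt_aleph_one_iff]
    exact Cardinal.mk_Iio_toType_ord_lt i
  · let T : Type := (ℕ → Set ℕ) × Z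
    have hT : Cardinal.mk T ≤ Cardinal.mk I := by
      have hI : Cardinal.mk I = Cardinal.continuum := by
        rw [← hCH]
        exact Cardinal.mk_ord_toType _
      rw [hI]
      change Cardinal.mk ((ℕ → Set ℕ) × Z) ≤ _
      simp
    obtain ⟨e⟩ := (Cardinal.le_def T I).1 hT
    have : Nonempty T := ⟨(fun _ => ∅, 0)⟩
    have hsurj : Function.Surjective (Function.invFun e) := Function.invFun_surjective e.injective
    refine ⟨fun i n => ⋃ k ∈ (Function.invFun e i).1 n, b k, fun i => (Function.invFun e i).2,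
      fun i n => isOpen_biUnion (fun k _ => hb1 k), ?_, ?_⟩
    · intro V hV
      choose S hS using fun n => hb2 (V n) (hV n)
      obtain ⟨i, hi⟩ := hsurj (S, 0)
      refine ⟨i, ?_⟩
      funext n
      change (⋃ k ∈ (Function.invFun e i).1 n, b k) = V n
      rw [hi, hS n]
    · intro h
      obtain ⟨i, hi⟩ := hsurj (fun _ => ∅, h)
      refine ⟨i, ?_⟩
      change (Function.invFun e i).2 = h
      rw [hi]

theorem main (hCH : Cardinal.aleph 1 = Cardinal.continuum.{0}) :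
    ∃ X : Set Z, (AddSubgroup.closure X : Set Z) = HH ∧
      (∀ h ∈ AddSubgroup.closure X, ∃ x ∈ X, ∃ y ∈ X, x + y = h) ∧
      ∀ U : ℕ → Set (Set Z), (∀ n, (∀ u ∈ U n, IsOpen u) ∧ X ⊆ ⋃₀ U n) →
        ∃ F : ℕ → Finset (Set Z), (∀ n, (F n : Set (Set Z)) ⊆ U n) ∧
          ∀ x ∈ X, ∀ᶠ n in atTop, x ∈ ⋃₀ (F n : Set (Set Z)) := by
  classical
  obtain ⟨I, _, _, hI, W, g, hW1, hW2, hg⟩ := exists_enumeration hCH
  obtain ⟨p, hp⟩ := exists_tower hI W hW1 g
  let X : Set Z := ⋃ i, (p i).2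
  have hXH : X ⊆ HH := iUnion_subset fun i => (hp i).2.2.2.1
  have hle : AddSubgroup.closure X ≤ HG := (AddSubgroup.closure_le HG).2 hXH
  have hsum : ∀ h ∈ HH, ∃ x ∈ X, ∃ y ∈ X, x + y = h := by
    intro h hh
    obtain ⟨i, hi⟩ := hg h
    obtain ⟨x, hx, y, hy, hxy⟩ := (hp i).2.2.2.2.2.2 (by rw [hi]; exact hh)
    rw [hi] at hxy
    exact ⟨x, mem_iUnion.2 ⟨i, hx⟩, y, mem_iUnion.2 ⟨i, hy⟩, hxy⟩
  refine ⟨X, ?_, fun h hh => hsum h (hle hh), ?_⟩
  · apply Subset.antisymm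
    · exact hle
    · intro h hh
      obtain ⟨x, hx, y, hy, hxy⟩ := hsum h hh
      rw [← hxy]
      exact AddSubgroup.add_mem _ (AddSubgroup.subset_closure hx)
        (AddSubgroup.subset_closure hy)
  · intro U hU
    obtain ⟨i, hi⟩ := hW2 (fun n => ⋃₀ U n) (fun n => isOpen_sUnion (hU n).1)
    have hK : ∀ x ∈ Kstar (p i).1, ∀ n, x ∈ ⋃₀ U n := by
      have h1 := (hp i).2.2.2.2.2.1
      rw [hi] at h1
      rcases h1 with h1 | h1
      · obtain ⟨x, hx, n, hn⟩ := h1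
        exact absurd ((hU n).2 (mem_iUnion.2 ⟨i, hx⟩)) hn
      · exact h1
    have hcount : (⋃ j ∈ Iic i, (p j).2).Countable := by
      refine Countable.biUnion ?_ (fun j _ => (hp j).2.2.1)
      rw [← Iio_insert]
      exact (hI i).insert i
    have hD : ∃ D : ℕ → Finset Z, (∀ n, (D n : Set Z) ⊆ X) ∧
        ∀ x ∈ ⋃ j ∈ Iic i, (p j).2, ∀ᶠ n in atTop, x ∈ D n := by
      rcases eq_empty_or_nonempty (⋃ j ∈ Iic i, (p j).2) with h0 | h0
      · refine ⟨fun _ => ∅, fun n => by simp, fun x hx => ?_⟩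
        rw [h0] at hx
        exact absurd hx (notMem_empty x)
      · obtain ⟨e, he⟩ := hcount.exists_eq_range h0
        refine ⟨fun n => (Finset.range (n + 1)).image e, fun n => ?_, fun x hx => ?_⟩
        · intro z hz
          rw [Finset.coe_image] at hz
          obtain ⟨k, _, rfl⟩ := hz
          have h2 : e k ∈ ⋃ j ∈ Iic i, (p j).2 := by
            rw [he]
            exact ⟨k, rfl⟩
          obtain ⟨j, _, hj⟩ := mem_iUnion₂.1 h2
          exact mem_iUnion.2 ⟨j, hj⟩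
        · rw [he] at hx
          obtain ⟨k, rfl⟩ := hx
          filter_upwards [eventually_ge_atTop k] with n hn
          exact Finset.mem_image.2 ⟨k, Finset.mem_range.2 (Nat.lt_succ_of_le hn), rfl⟩
    obtain ⟨D, hD1, hD2⟩ := hD
    have hcov : ∀ n, ∃ F : Finset (Set Z), (F : Set (Set Z)) ⊆ U n ∧
        K (p i).1 n ∪ (D n : Set Z) ⊆ ⋃₀ (F : Set (Set Z)) := by
      intro n
      have hc : IsCompact (K (p i).1 n ∪ (D n : Set Z)) :=
        (isCompact_K (hp i).1 n).union (D n).finite_toSet.isCompact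
      have hsub : K (p i).1 n ∪ (D n : Set Z) ⊆ ⋃₀ U n := by
        rintro x (hx | hx)
        · exact hK x (mem_iUnion.2 ⟨n, hx⟩) n
        · exact (hU n).2 (hD1 n hx)
      rw [sUnion_eq_biUnion] at hsub
      obtain ⟨b', hb1, hb2, hb3⟩ := hc.elim_finite_subcover_image (c := fun u => u)
        (fun u hu => (hU n).1 u hu) hsub
      refine ⟨hb2.toFinset, by simpa using hb1, ?_⟩
      rw [sUnion_eq_biUnion]
      simpa using hb3
    choose F hF1 hF2 using hcov
    refine ⟨F, hF1, ?_⟩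
    intro x hx
    obtain ⟨j, hj⟩ := mem_iUnion.1 hx
    rcases le_or_gt j i with h | h
    · filter_upwards [hD2 x (mem_iUnion₂.2 ⟨j, h, hj⟩)] with n hn
      exact hF2 n (Or.inr hn)
    · obtain ⟨s, hs⟩ := mem_iUnion.1 ((hp j).2.2.2.2.1 i h hj)
      filter_upwards [eventually_ge_atTop s] with n hn
      exact hF2 n (Or.inl (K_mono _ hn hs))

theorem main_exists (hCH : Cardinal.aleph 1 = Cardinal.continuum.{0}) :
    ∃ (G : Type) (_ : TopologicalSpace G) (_ : PolishSpace G) (_ : CompactSpace G)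
      (_ : AddCommGroup G) (_ : IsTopologicalAddGroup G) (X : Set G),
      (∀ g : G, g + g = 0) ∧
      @MeasurableSet G (borel G) (AddSubgroup.closure X : Set G) ∧
      ¬ IsSigmaCompact (AddSubgroup.closure X : Set G) ∧
      (∀ h ∈ AddSubgroup.closure X, ∃ x ∈ X, ∃ y ∈ X, x + y = h) ∧
      (¬ ∃ F : Set G, IsSigmaCompact F ∧ X ⊆ F ∧ F ⊆ (AddSubgroup.closure X : Set G)) ∧
      ∀ U : ℕ → Set (Set G), (∀ n, (∀ u ∈ U n, IsOpen u) ∧ X ⊆ ⋃₀ U n) →
        ∃ F : ℕ → Finset (Set G), (∀ n, (F n : Set (Set G)) ⊆ U n) ∧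
          ∀ x ∈ X, ∀ᶠ n in atTop, x ∈ ⋃₀ (F n : Set (Set G)) := by
  obtain ⟨X, h1, h0, h2⟩ := main hCH
  have : PolishSpace (ZMod 2) := inferInstance
  refine ⟨Z, inferInstance, inferInstance, inferInstance, inferInstance, inferInstance, X,
    ?_, ?_, ?_, h0, ?_, h2⟩
  · intro z
    funext c
    rw [Pi.add_apply, Pi.zero_apply]
    exact CharTwo.add_self_eq_zero _
  · rw [h1]
    exact measurable_HH
  · rw [h1]
    exact not_sigmaCompact
  · rintro ⟨F, ⟨C, hC, hCF⟩, h3, h4⟩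
    rw [h1] at h4
    apply not_sigmaCompact
    have h5 : HH = ⋃ c : ℕ × ℕ, (C c.1 + C c.2) := by
      apply Subset.antisymm
      · intro h hh
        obtain ⟨x, hx, y, hy, hxy⟩ := h0 h (by rw [← SetLike.mem_coe, h1]; exact hh)
        obtain ⟨a, ha⟩ := mem_iUnion.1 (by rw [hCF]; exact h3 hx : x ∈ ⋃ n, C n)
        obtain ⟨b, hb⟩ := mem_iUnion.1 (by rw [hCF]; exact h3 hy : y ∈ ⋃ n, C n)
        exact mem_iUnion.2 ⟨(a, b), Set.mem_add.2 ⟨x, ha, y, hb, hxy⟩⟩
      · intro h hh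
        obtain ⟨c, hc⟩ := mem_iUnion.1 hh
        obtain ⟨x, hx, y, hy, rfl⟩ := Set.mem_add.1 hc
        have hx' : x ∈ HG := h4 (by rw [← hCF]; exact mem_iUnion.2 ⟨_, hx⟩)
        have hy' : y ∈ HG := h4 (by rw [← hCF]; exact mem_iUnion.2 ⟨_, hy⟩)
        exact HG.add_mem hx' hy'
    rw [h5]
    exact isSigmaCompact_iUnion_of_isCompact _ (fun c => (hC c.1).add (hC c.2))

end Pool.Agent.H328R3.Hur
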