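import Pool.Agent.H328R3.GapTower

/-!
The block tower set with gaps fails the Hurewicz property.
-/

set_option autoImplicit false
set_option linter.unusedSectionVars false

namespace Pool.Agent.H328R3.GT

open Set Filter Pool.Agent.Helper185.Blk Pool.Agent.Helper185.Silver Pool.Agent.Helper185.Sel

/-- The selection principle `U_fin(A, B)`: for every sequence of members of `A`, none of which
contains a finite subcover, some finite subfamilies have unions forming a member of `B`. -/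
def Ufin {X : Type*} (A B : Set (Set (Set X))) : Prop :=
  ∀ U : ℕ → Set (Set X), (∀ n, U n ∈ A) → (∀ n, ¬ ∃ F ⊆ U n, F.Finite ∧ ⋃₀ F = univ) →
    ∃ F : ℕ → Set (Set X), (∀ n, (F n).Finite ∧ F n ⊆ U n) ∧ range (fun n => ⋃₀ F n) ∈ B

variable {I : Type} [LinearOrder I] [WellFoundedLT I]
variable {B : I → Set ℕ} {O : I → ℕ → Set (Set ℕ)} {p : I → ℕ → Finset ℕ}

theorem not_ufin_XT [Nonempty I] (hp : ∀ i, Req2 B O i (fun j _ => p j) (p i))
    (hall : ∀ C : Set ℕ, ∃ i, B i = C) :
    ¬ Ufin (GammaOf (OpenFam (XT p))) (GammaOf (OpenFam (XT p))) := by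
  classical
  intro h
  obtain ⟨i0⟩ := (inferInstance : Nonempty I)
  let V : ℕ → ℕ → Set (XT p) := fun n m => {x | ∃ k, n ≤ k ∧ k ≤ m ∧ (x : Z) k = true}
  have hVo : ∀ n m, IsOpen (V n m) := by
    intro n m
    have h1 : V n m = ⋃ k ∈ {k | n ≤ k ∧ k ≤ m}, {x : XT p | (x : Z) k = true} := by
      ext x
      simp only [V, mem_ofPred_eq, mem_iUnion, exists_prop, and_assoc]
    rw [h1]
    refine isOpen_biUnion (fun k _ => ?_)
    have h0 : Continuous (fun z : Z => z k) := continuous_apply k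
    have h1 : IsOpen ((fun z : Z => z k) ⁻¹' {true}) := (isOpen_discrete _).preimage h0
    exact h1.preimage continuous_subtype_val
  have hVne : ∀ n m, V n m ≠ univ := by
    intro n m hn
    let A : Set ℕ := UU (p i0) univ \ {k | k ≤ m}
    have hA : EqS A (UU (p i0) univ) := ⟨m + 1, fun k hk => ⟨fun h => h.1, fun h => ⟨h, by
      simp only [mem_ofPred_eq]; omega⟩⟩⟩
    have h1 : (⟨ch A, ch_mem p i0 hA⟩ : XT p) ∈ V n m := by rw [hn]; trivial
    obtain ⟨k, hk1, hk2, hk3⟩ := h1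
    have h2 : k ∈ supp (ch A) := hk3
    rw [supp_ch] at h2
    exact h2.2 hk2
  have hVm : ∀ n m m', m ≤ m' → V n m ⊆ V n m' := by
    rintro n m m' hmm x ⟨k, hk1, hk2, hk3⟩
    exact ⟨k, hk1, hk2.trans hmm, hk3⟩
  have hVx : ∀ n (x : XT p), {m | x ∉ V n m}.Finite := by
    intro n x
    obtain ⟨i, hi⟩ := x.2
    have hinf : (supp (x : Z)).Infinite := by
      intro hfin
      apply UU_infinite (hp i).1 infinite_univ
      obtain ⟨N, hN⟩ := hi
      apply (hfin.union (finite_lt_nat N)).subset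
      intro k hk
      by_cases h1 : k < N
      · exact Or.inr h1
      · exact Or.inl ((hN k (not_lt.1 h1)).2 hk)
    obtain ⟨k, hk, hnk⟩ := hinf.exists_gt n
    apply (finite_lt_nat k).subset
    intro m hm
    by_contra hcon
    exact hm ⟨k, hnk.le, not_lt.1 hcon, hk⟩
  have hgam : ∀ n, range (V n) ∈ GammaOf (OpenFam (XT p)) := by
    intro n
    refine range_gamma (adm_open _) (U := fun _ => range (V n)) ?_ ?_
      (fun m => mem_range_self m) (hVx n)
    · rintro _ _ ⟨m, rfl⟩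
      exact hVo n m
    · rintro _ ⟨m, hm⟩
      exact hVne n m hm
  have hbd : ∀ n (F : Set (Set (XT p))), F.Finite → F ⊆ range (V n) → ∃ M, ⋃₀ F ⊆ V n M := by
    intro n F hF hFV
    have h1 : ∀ v : Set (XT p), ∃ m, v ∈ F → v = V n m := by
      intro v
      by_cases hv : v ∈ F
      · obtain ⟨m, hm⟩ := hFV hv
        exact ⟨m, fun _ => hm.symm⟩
      · exact ⟨0, fun h => absurd h hv⟩
    choose μ hμ using h1
    obtain ⟨G, hG⟩ := (hF.image μ).bddAbove
    refine ⟨G, ?_⟩
    rintro x ⟨v, hv, hxv⟩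
    rw [hμ v hv] at hxv
    exact hVm n _ _ (hG ⟨v, hv, rfl⟩) hxv
  obtain ⟨F, hF, hFG⟩ := h (fun n => range (V n)) hgam (by
    rintro n ⟨F, hF1, hF2, hF3⟩
    obtain ⟨M, hM⟩ := hbd n F hF2 hF1
    apply hVne n M
    rw [hF3] at hM
    exact univ_subset_iff.1 hM)
  choose g hg using fun n => hbd n (F n) (hF n).1 (hF n).2
  let W : ℕ → Set (XT p) := fun n => ⋃₀ F n
  have hWinf : (range W).Infinite := hFG.2.2.1
  have hWx : ∀ x, {u | u ∈ range W ∧ x ∉ u}.Finite := hFG.2.2.2
  have hnew : ∀ N, ∃ n, N ≤ n ∧ W n ∉ W '' {m | m < N} := by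
    intro N
    by_contra hcon
    push Not at hcon
    apply hWinf
    apply ((finite_lt_nat N).image W).subset
    rintro _ ⟨n, rfl⟩
    by_cases hn : n < N
    · exact ⟨n, hn, rfl⟩
    · exact hcon n (not_lt.1 hn)
  choose t ht1 ht2 using hnew
  let s : ℕ → ℕ := fun k => (fun n => t (max n (g n) + 1))^[k] (t 0)
  have hs : ∀ k, s (k + 1) = t (max (s k) (g (s k)) + 1) := fun k =>
    Function.iterate_succ_apply' (fun n => t (max n (g n) + 1)) k (t 0)
  have hsl : ∀ k, s k < s (k + 1) ∧ g (s k) < s (k + 1) := by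
    intro k
    have h1 := ht1 (max (s k) (g (s k)) + 1)
    rw [← hs] at h1
    have h2 := le_max_left (s k) (g (s k))
    have h3 := le_max_right (s k) (g (s k))
    omega
  have hsm : StrictMono s := strictMono_nat_of_lt_succ (fun k => (hsl k).1)
  have hWs : ∀ j k, j < k → W (s j) ≠ W (s k) := by
    intro j k hjk hW
    obtain ⟨k', rfl⟩ : ∃ k', k = k' + 1 := ⟨k - 1, by omega⟩
    have h1 := ht2 (max (s k') (g (s k')) + 1)
    rw [← hs] at h1
    apply h1
    refine ⟨s j, ?_, hW⟩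
    have h2 : s j ≤ s k' := hsm.monotone (by omega)
    have h3 := le_max_left (s k') (g (s k'))
    simp only [mem_ofPred_eq]
    omega
  have hWsi : Function.Injective (fun k => W (s k)) := by
    intro j k hjk
    rcases lt_trichotomy j k with h | h | h
    · exact absurd hjk (hWs j k h)
    · exact h
    · exact absurd hjk.symm (hWs k j h)
  obtain ⟨i, hi⟩ := hall (range s)
  have hx : ch (UU (p i) univ) ∈ XT p := ch_mem p i (EqS.refl _)
  have hfin : {k | (⟨_, hx⟩ : XT p) ∉ W (s k)}.Finite := by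
    have h1 := (hWx ⟨_, hx⟩).preimage (hWsi.injOn (s := (fun k => W (s k)) ⁻¹' _))
    apply h1.subset
    intro k hk
    exact ⟨mem_range_self _, hk⟩
  obtain ⟨K, hK⟩ := hfin.bddAbove
  obtain ⟨a, ha, b, hb, hab1, hab2, hab3⟩ := (hp i).2.2.1
    (by rw [hi]; exact infinite_range_of_injective hsm.injective) (s (K + 1))
  rw [hi] at ha hb
  obtain ⟨k, rfl⟩ := ha
  obtain ⟨l, rfl⟩ := hb
  have hkl : k < l := hsm.lt_iff_lt.1 hab2
  have hkK : K + 1 ≤ k := hsm.le_iff_le.1 hab1
  have hxk : (⟨_, hx⟩ : XT p) ∈ W (s k) := by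
    by_contra hcon
    have := hK hcon
    omega
  obtain ⟨n, hn1, hn2, hn3⟩ := hg (s k) hxk
  have hn4 : n ∈ supp (ch (UU (p i) univ)) := hn3
  rw [supp_ch] at hn4
  have h1 := (hsl k).2
  have h2 : s (k + 1) ≤ s l := hsm.monotone hkl
  exact hab3 n hn1 (by omega) hn4

end Pool.Agent.H328R3.GT
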