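import Pool.Agent.H328R3.QDSys

/-!
# The manifold of the system: a quasi-development, and the failure of developability
-/

set_option autoImplicit false

namespace Pool.Agent.H328R3.QD

open Set Topology Relation Function
open Pool.Agent.Helper185.Man (Sys Mf Pre mk chart D crd pt Term Step)

section general

variable {S : Sys} {r : S.N → ℝ}

/-- A countable base of the plane. -/
theorem exists_base : ∃ O : ℕ → Set (ℝ × ℝ), (∀ i, IsOpen (O i)) ∧
    ∀ (p : ℝ × ℝ) (U : Set (ℝ × ℝ)), IsOpen U → p ∈ U → ∃ i, p ∈ O i ∧ O i ⊆ U := by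
  obtain ⟨b, hbc, _, hb⟩ := TopologicalSpace.exists_countable_basis (ℝ × ℝ)
  have hne : b.Nonempty := by
    obtain ⟨v, hv, _⟩ := hb.exists_subset_of_mem_open (mem_univ (0 : ℝ × ℝ)) isOpen_univ
    exact ⟨v, hv⟩
  obtain ⟨O, hO⟩ := hbc.exists_eq_range hne
  refine ⟨O, fun i => hb.isOpen (hO ▸ mem_range_self i), fun p U hU hp => ?_⟩
  obtain ⟨v, hv, hpv, hvU⟩ := hb.exists_subset_of_mem_open hp hU
  rw [hO] at hv
  obtain ⟨i, rfl⟩ := hv
  exact ⟨i, hpv, hvU⟩

/-- A quasi-development of the glued space, from a labelling of the points by natural numbers and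
a choice of nodes isolating the points with a given label. -/
theorem quasiDev (lab : S.X → ℕ) (nd : S.X → S.N) (h1 : ∀ x, S.mem x (nd x))
    (h2 : ∀ x x', lab x = lab x' → S.mem x' (nd x) → x' = x) :
    ∃ G : ℕ → Set (Set (Mf S r)), (∀ k, ∀ V ∈ G k, IsOpen V) ∧
      ∀ x : Mf S r, ∀ U : Set (Mf S r), IsOpen U → x ∈ U →
        ∃ k, (∃ V ∈ G k, x ∈ V) ∧ ∀ V ∈ G k, x ∈ V → V ⊆ U := by
  obtain ⟨O, hO, hOb⟩ := exists_base
  let GT : ℕ × ℕ → Set (Set (Mf S r)) := fun c =>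
    {V | ∃ κ, S.g κ = c.1 ∧ V = chart S r κ '' (O c.2)}
  let GP : ℕ × ℕ → Set (Set (Mf S r)) := fun c =>
    {V | ∃ x, lab x = c.1 ∧ V = chart S r (nd x) '' (O c.2)}
  let e : ℕ ≃ ℕ × (ℕ × ℕ) := (Denumerable.eqv (ℕ × (ℕ × ℕ))).symm
  refine ⟨fun k => if (e k).1 = 0 then GT (e k).2 else GP (e k).2, ?_, ?_⟩
  · intro k V hV
    by_cases hk : (e k).1 = 0
    · simp only [hk, if_true] at hV
      obtain ⟨κ, _, rfl⟩ := hV
      exact (Pool.Agent.Helper185.Man.isOpenEmbedding_chart κ).isOpenMap _ (hO _)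
    · simp only [hk, if_false] at hV
      obtain ⟨x, _, rfl⟩ := hV
      exact (Pool.Agent.Helper185.Man.isOpenEmbedding_chart _).isOpenMap _ (hO _)
  · intro m U hU hm
    rcases Pool.Agent.Helper185.Man.term_or_pt m with ⟨a, ha, rfl⟩ | ⟨x, t, rfl⟩
    · have hU' : IsOpen (chart S r a.1 ⁻¹' U) :=
        hU.preimage (Pool.Agent.Helper185.Man.isOpenEmbedding_chart a.1).continuous
      obtain ⟨i, hi1, hi2⟩ := hOb a.2 _ hU' hm
      refine ⟨e.symm (0, (S.g a.1, i)), ?_⟩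
      simp only [Equiv.apply_symm_apply, if_true]
      refine ⟨⟨chart S r a.1 '' (O i), ⟨a.1, rfl, rfl⟩, a.2, hi1, rfl⟩, ?_⟩
      rintro V ⟨κ, hκ, rfl⟩ ⟨q, hq, hqa⟩
      have h3 := Pool.Agent.Helper185.Man.reach_term (r := r) ha
        (show mk S r a = mk S r ⟨κ, q⟩ from hqa.symm)
      have h4 := Pool.Agent.Helper185.Man.reach_C h3
      have h5 : (⟨κ, q⟩ : Pre S) = a := by
        rcases ReflTransGen.cases_head h3 with h | ⟨c, hc1, hc2⟩
        · exact h
        · exfalso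
          have h6 := S.C_g _ _ hc1.1
          have h7 := Pool.Agent.Helper185.Man.g_le (Pool.Agent.Helper185.Man.reach_C hc2)
          simp only at h6 hκ
          omega
      subst h5
      rintro _ ⟨q', hq', rfl⟩
      exact hi2 hq'
    · have hpt := Pool.Agent.Helper185.Man.pt_eq (r := r) (h1 x) t
      have hU' : IsOpen (chart S r (nd x) ⁻¹' U) :=
        hU.preimage (Pool.Agent.Helper185.Man.isOpenEmbedding_chart _).continuous
      have hm' : (crd S x (nd x), t) ∈ chart S r (nd x) ⁻¹' U := by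
        change mk S r ⟨nd x, _⟩ ∈ U
        rw [← hpt]; exact hm
      obtain ⟨i, hi1, hi2⟩ := hOb _ _ hU' hm'
      refine ⟨e.symm (1, (lab x, i)), ?_⟩
      simp only [Equiv.apply_symm_apply, one_ne_zero, if_false]
      refine ⟨⟨chart S r (nd x) '' (O i), ⟨x, rfl, rfl⟩, _, hi1, hpt.symm⟩, ?_⟩
      rintro V ⟨x', hx', rfl⟩ ⟨q, hq, hqa⟩
      have h3 := (Pool.Agent.Helper185.Man.pt_height (r := r) hqa.symm).1
      have h4 := h2 x' x hx' h3
      subst h4
      rintro _ ⟨q', hq', rfl⟩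
      exact hi2 hq'

/-- The charts of the glued space. -/
noncomputable def lchart (ν : S.N) :
    OpenPartialHomeomorph (Mf S r) (EuclideanSpace ℝ (Fin 2)) :=
  ((Pool.Agent.Helper185.Man.isOpenEmbedding_chart (S := S) (r := r) ν).toOpenPartialHomeomorph
    (chart S r ν)).symm.trans
    ((Homeomorph.finTwoArrow (X := ℝ)).symm.trans
      (EuclideanSpace.equiv (Fin 2) ℝ).toHomeomorph.symm).toOpenPartialHomeomorph

theorem lchart_source (ν : S.N) : (lchart (r := r) ν).source = D S r ν := by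
  simp [lchart, D]

/-- The glued space is a 2-manifold. -/
@[reducible] noncomputable def charted :
    ChartedSpace (EuclideanSpace ℝ (Fin 2)) (Mf S r) where
  atlas := range (fun ν => lchart (r := r) ν)
  chartAt m := lchart (Pool.Agent.Helper185.Man.mk_surj m).choose.1
  mem_chart_source m := by
    rw [lchart_source]
    have h := Pool.Agent.Helper185.Man.mem_D (r := r)
      (a := (Pool.Agent.Helper185.Man.mk_surj m).choose)
    rw [(Pool.Agent.Helper185.Man.mk_surj m).choose_spec] at h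
    exact h
  chart_mem_atlas m := mem_range_self _

end general

variable {𝒜 : Set (ℕ → ℝ)}

/-- The labels. -/
def lab : Px 𝒜 → ℕ
  | .inl _ => 0
  | .inr _ => 1

/-- The isolating nodes. -/
def nd : Px 𝒜 → Nd 𝒜
  | .inl s => .inl (s, 0)
  | .inr y => .inr (y, 0)

/-- The glued space is not developable. -/
theorem not_dev (hA : AD 𝒜) (hmad : ∀ t, Fast t → ∃ s ∈ 𝒜, (range s ∩ range t).Infinite)
    (r : (sys hA).N → ℝ) :
    ¬ (∃ G : ℕ → Set (Set (Mf (sys hA) r)),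
        (∀ k, ∀ V ∈ G k, IsOpen V) ∧
        (∀ k, ⋃₀ G k = Set.univ) ∧
        ∀ x : Mf (sys hA) r, ∀ U : Set (Mf (sys hA) r), IsOpen U → x ∈ U →
          ∃ k, ∀ V ∈ G k, x ∈ V → V ⊆ U) := by
  rintro ⟨G, hGo, hGc, hG⟩
  -- neighbourhoods of the sequence points
  have hnb : ∀ (k : ℕ) (s : 𝒜), ∃ n, ∃ V ∈ G k, pt r (.inl s : (sys hA).X) 0 ∈ V ∧
      ∀ j, n ≤ j → pt r (.inr (s.1 j) : (sys hA).X) 0 ∈ V := by
    intro k s
    obtain ⟨V, hV, hsV⟩ : ∃ V ∈ G k, pt r (.inl s : (sys hA).X) 0 ∈ V := by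
      have := hGc k ▸ mem_univ (pt r (.inl s : (sys hA).X) 0)
      exact this
    obtain ⟨κ, _, h2, h3⟩ := Pool.Agent.Helper185.Man.pt_nhds (hGo k V hV) hsV
      (ν := (.inl (s, 0) : Nd 𝒜)) (show Me (.inl s : Px 𝒜) (.inl (s, 0) : Nd 𝒜) from rfl)
    rcases κ with ⟨s', n⟩ | ⟨y, m⟩
    · obtain rfl : s = s' := h2
      exact ⟨n, V, hV, hsV, fun j hj => h3 (.inr (s.1 j)) ⟨j, hj, rfl⟩⟩
    · exact (h2 : False).elim
  choose n V hVG hsV hV using hnb
  -- the sets of reals missed by the neighbourhoods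
  let F : ℕ → Set ℝ := fun k => {y | ∀ (s : 𝒜) j, n k s ≤ j → s.1 j ≠ y}
  have hcov : ∀ y : ℝ, ∃ k, y ∈ F k := by
    intro y
    obtain ⟨k, hk⟩ := hG (pt r (.inr y : (sys hA).X) 0) (D (sys hA) r (.inr (y, 0) : Nd 𝒜))
      (Pool.Agent.Helper185.Man.isOpen_D _)
      (Pool.Agent.Helper185.Man.pt_mem_D.2 (show Me (.inr y : Px 𝒜) (.inr (y, 0) : Nd 𝒜) from rfl))
    refine ⟨k, fun s j hj hjy => ?_⟩
    have h1 := hV k s j hj
    rw [hjy] at h1
    have h2 := hk (V k s) (hVG k s) h1 (hsV k s)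
    exact (Pool.Agent.Helper185.Man.pt_mem_D.1 h2 : Me (.inl s : Px 𝒜) (.inr (y, 0) : Nd 𝒜))
  -- some of them is infinite
  have hinf : ∃ k, (F k ∩ Icc 0 1).Infinite := by
    by_contra hcon
    push Not at hcon
    have h1 : (Icc (0 : ℝ) 1).Countable := by
      refine (countable_iUnion (fun k => (hcon k).countable)).mono ?_
      intro y hy
      obtain ⟨k, hk⟩ := hcov y
      exact mem_iUnion.2 ⟨k, hk, hy⟩
    have h2 : ¬ (Icc (0 : ℝ) 1).Countable := by
      rw [← Cardinal.le_aleph0_iff_set_countable, Cardinal.mk_Icc_real (by norm_num)]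
      exact not_le.2 Cardinal.aleph0_lt_continuum
    exact h2 h1
  obtain ⟨k, hk⟩ := hinf
  obtain ⟨t, ht, htF⟩ := exists_fast hk
  obtain ⟨s, hs, hst⟩ := hmad t ht
  -- infinitely many members of the sequence lie in the set
  have h1 : ({i | s i ∈ range t}).Infinite := by
    intro hfin
    apply hst
    refine (hfin.image s).subset ?_
    rintro _ ⟨⟨i, rfl⟩, h⟩
    exact ⟨i, h, rfl⟩
  obtain ⟨i, ⟨l, hl⟩, hi⟩ := h1.exists_gt (n k ⟨s, hs⟩)
  exact htF l ⟨s, hs⟩ i hi.le hl.symm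

/-- The number of nodes. -/
theorem nodes_le (𝒜 : Set (ℕ → ℝ)) : Nonempty (Nd 𝒜 ↪ ℝ) := by
  rw [← Cardinal.le_def, Cardinal.mk_real]
  have hω : Cardinal.aleph0 ≤ Cardinal.continuum := Cardinal.aleph0_le_continuum
  have h1 : Cardinal.mk 𝒜 ≤ Cardinal.continuum := by
    refine (Cardinal.mk_set_le 𝒜).trans ?_
    simp [Cardinal.mk_real]
  rw [Cardinal.mk_sum, Cardinal.mk_prod, Cardinal.mk_prod]
  simp only [Cardinal.lift_id, Cardinal.mk_real, Cardinal.mk_nat]
  exact Cardinal.add_le_of_le hω (Cardinal.mul_le_of_le hω h1 hω)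
    (Cardinal.mul_le_of_le hω le_rfl hω)

/-- There is a quasi-developable 2-manifold with a `G_δ`-diagonal which is not developable. -/
theorem main : ∃ (X : Type) (_ : TopologicalSpace X) (_ : T2Space X) (n : ℕ)
      (_ : ChartedSpace (EuclideanSpace ℝ (Fin n)) X),
      IsGδ (Set.diagonal X) ∧
      (∃ G : ℕ → Set (Set X),
        (∀ k, ∀ V ∈ G k, IsOpen V) ∧
        ∀ x : X, ∀ U : Set X, IsOpen U → x ∈ U →
          ∃ k, (∃ V ∈ G k, x ∈ V) ∧ ∀ V ∈ G k, x ∈ V → V ⊆ U) ∧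
      ¬ (∃ G : ℕ → Set (Set X),
        (∀ k, ∀ V ∈ G k, IsOpen V) ∧
        (∀ k, ⋃₀ G k = Set.univ) ∧
        ∀ x : X, ∀ U : Set X, IsOpen U → x ∈ U →
          ∃ k, ∀ V ∈ G k, x ∈ V → V ⊆ U) := by
  obtain ⟨𝒜, hA, hmad⟩ := exists_mad
  obtain ⟨r0⟩ := nodes_le 𝒜
  let r : (sys hA).N → ℝ := r0
  have hr : Function.Injective r := r0.injective
  refine ⟨Mf (sys hA) r, inferInstance, Pool.Agent.Helper185.Man.t2 hr, 2, charted,
    Pool.Agent.Helper185.Man.isGdelta_diagonal, ?_, not_dev hA hmad r⟩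
  refine quasiDev (S := sys hA) (r := r) lab nd ?_ ?_
  · rintro (s | y)
    · exact (rfl : s = s)
    · exact (rfl : y = y)
  · rintro (s | y) (s' | y') h1 h2
    · exact congrArg _ (h2 : s' = s)
    · exact absurd h1 (by simp [lab])
    · exact absurd h1 (by simp [lab])
    · exact congrArg _ (h2 : y' = y)

end Pool.Agent.H328R3.QD
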