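import Pool.Agent.Helper185.Man4

/-!
# The system of a maximal almost disjoint family of fast sequences of reals
-/

set_option autoImplicit false

namespace Pool.Agent.H328R3.QD

open Set Topology Relation Function

/-- An injective sequence in the unit interval whose tails have small diameter. -/
def Fast (s : ℕ → ℝ) : Prop :=
  Injective s ∧ (∀ k, s k ∈ Icc (0 : ℝ) 1) ∧ ∀ n k l, n ≤ k → n ≤ l → |s k - s l| ≤ (1 / 2) ^ n

/-- An almost disjoint family of fast sequences. -/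
def AD (𝒜 : Set (ℕ → ℝ)) : Prop :=
  (∀ s ∈ 𝒜, Fast s) ∧ ∀ s ∈ 𝒜, ∀ t ∈ 𝒜, s ≠ t → (range s ∩ range t).Finite

/-- A maximal almost disjoint family of fast sequences. -/
theorem exists_mad : ∃ 𝒜 : Set (ℕ → ℝ), AD 𝒜 ∧
    ∀ t, Fast t → ∃ s ∈ 𝒜, (range s ∩ range t).Infinite := by
  obtain ⟨𝒜, h𝒜⟩ := zorn_subset {𝒜 : Set (ℕ → ℝ) | AD 𝒜} (by
    intro c hc hchain
    refine ⟨⋃₀ c, ⟨?_, ?_⟩, fun s hs => subset_sUnion_of_mem hs⟩
    · rintro s ⟨A, hA, hs⟩
      exact (hc hA).1 s hs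
    · rintro s ⟨A, hA, hs⟩ t ⟨B, hB, ht⟩ hst
      rcases hchain.total hA hB with h | h
      · exact (hc hB).2 s (h hs) t ht hst
      · exact (hc hA).2 s hs t (h ht) hst)
  have hAD : AD 𝒜 := h𝒜.prop
  refine ⟨𝒜, hAD, fun t ht => ?_⟩
  by_cases htA : t ∈ 𝒜
  · refine ⟨t, htA, ?_⟩
    rw [inter_self]
    exact infinite_range_of_injective ht.1
  · by_contra hcon
    push Not at hcon
    have hAD' : AD (insert t 𝒜) := by
      refine ⟨?_, ?_⟩
      · rintro s (rfl | hs)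
        · exact ht
        · exact hAD.1 s hs
      · rintro s (rfl | hs) u (rfl | hu) hsu
        · exact absurd rfl hsu
        · rw [inter_comm]
          exact hcon u hu
        · exact hcon s hs
        · exact hAD.2 s hs u hu hsu
    have h1 := h𝒜.le_of_ge (y := insert t 𝒜) hAD' (subset_insert t 𝒜)
    exact htA (h1 (mem_insert t 𝒜))

/-- An infinite set of reals in the unit interval contains a fast sequence. -/
theorem exists_fast {F : Set ℝ} (hF : (F ∩ Icc 0 1).Infinite) : ∃ t, Fast t ∧ ∀ k, t k ∈ F := by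
  classical
  -- an accumulation point
  obtain ⟨z, _, hz⟩ := hF.exists_accPt_of_subset_isCompact isCompact_Icc inter_subset_right
  rw [accPt_iff_nhds] at hz
  have hstep : ∀ ε : ℝ, 0 < ε → ∃ y ∈ F ∩ Icc 0 1, y ≠ z ∧ |y - z| < ε := by
    intro ε hε
    obtain ⟨y, ⟨hy1, hy2⟩, hy3⟩ := hz (Metric.ball z ε) (Metric.ball_mem_nhds z hε)
    exact ⟨y, hy2, hy3, by simpa [Real.dist_eq] using hy1⟩
  choose! nx hnx1 hnx2 hnx3 using hstep
  -- the sequence
  let f : ℕ → ℝ := fun n => Nat.rec (motive := fun _ => ℝ) (nx (1 / 2))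
    (fun n y => nx (min ((1 / 2) ^ (n + 2)) |y - z|)) n
  have hf0 : f 0 = nx (1 / 2) := rfl
  have hfs : ∀ n, f (n + 1) = nx (min ((1 / 2) ^ (n + 2)) |f n - z|) := fun _ => rfl
  have hpos : ∀ n, 0 < |f n - z| := by
    intro n
    induction n with
    | zero =>
      rw [hf0]
      exact abs_pos.2 (sub_ne_zero.2 (hnx2 _ (by norm_num)))
    | succ n ih =>
      rw [hfs]
      exact abs_pos.2 (sub_ne_zero.2 (hnx2 _ (lt_min (by positivity) ih)))
  have hlt : ∀ n, |f (n + 1) - z| < |f n - z| := by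
    intro n
    rw [hfs]
    exact (hnx3 _ (lt_min (by positivity) (hpos n))).trans_le (min_le_right _ _)
  have hanti : StrictAnti (fun n => |f n - z|) := strictAnti_nat_of_succ_lt hlt
  have hsmall : ∀ n, |f n - z| < (1 / 2) ^ (n + 1) := by
    intro n
    cases n with
    | zero =>
      rw [hf0]
      have := hnx3 (1 / 2) (by norm_num)
      simpa using this
    | succ n =>
      rw [hfs]
      exact (hnx3 _ (lt_min (by positivity) (hpos n))).trans_le (min_le_left _ _)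
  have hmem : ∀ n, f n ∈ F ∩ Icc 0 1 := by
    intro n
    cases n with
    | zero => rw [hf0]; exact hnx1 _ (by norm_num)
    | succ n => rw [hfs]; exact hnx1 _ (lt_min (by positivity) (hpos n))
  refine ⟨f, ⟨?_, fun k => (hmem k).2, ?_⟩, fun k => (hmem k).1⟩
  · intro a b hab
    exact hanti.injective (by simp only [hab])
  · intro n k l hk hl
    have h1 : |f k - z| ≤ (1 / 2) ^ (n + 1) :=
      (hanti.antitone hk).trans (hsmall n).le
    have h2 : |f l - z| ≤ (1 / 2) ^ (n + 1) :=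
      (hanti.antitone hl).trans (hsmall n).le
    have h3 : f k - f l = (f k - z) - (f l - z) := by ring
    rw [h3]
    have h4 := abs_sub (f k - z) (f l - z)
    have h5 : ((1 / 2 : ℝ)) ^ n = (1 / 2) ^ (n + 1) + (1 / 2) ^ (n + 1) := by ring
    linarith

variable (𝒜 : Set (ℕ → ℝ))

/-- The nodes. -/
abbrev Nd : Type := (𝒜 × ℕ) ⊕ (ℝ × ℕ)

/-- The points. -/
abbrev Px : Type := 𝒜 ⊕ ℝ

variable {𝒜}

/-- The relation between a node and its children. -/
def Ch : Nd 𝒜 → Nd 𝒜 → Prop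
  | .inl (s, n), .inl (s', n') => s = s' ∧ n' = n + 1
  | .inl (s, n), .inr (y, m) => s.1 n = y ∧ m = n + 1
  | .inr _, .inl _ => False
  | .inr (y, m), .inr (y', m') => y = y' ∧ m' = m + 1

/-- The grade. -/
def gr : Nd 𝒜 → ℕ
  | .inl (_, n) => n
  | .inr (_, m) => m

/-- The relation between points and nodes. -/
def Me : Px 𝒜 → Nd 𝒜 → Prop
  | .inl s, .inl (s', _) => s = s'
  | .inl _, .inr _ => False
  | .inr y, .inl (s, n) => ∃ k, n ≤ k ∧ s.1 k = y
  | .inr y, .inr (y', _) => y = y'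

theorem Ch_gr {ν κ : Nd 𝒜} (h : Ch ν κ) : gr κ = gr ν + 1 := by
  rcases ν with ⟨s, n⟩ | ⟨y, m⟩ <;> rcases κ with ⟨s', n'⟩ | ⟨y', m'⟩ <;> simp only [Ch, gr] at h ⊢
  · exact h.2
  · exact h.2
  · exact h.2

theorem Me_up {x : Px 𝒜} {ν κ : Nd 𝒜} (h : Ch ν κ) (hx : Me x κ) : Me x ν := by
  rcases ν with ⟨s, n⟩ | ⟨y, m⟩ <;> rcases κ with ⟨s', n'⟩ | ⟨y', m'⟩ <;>
    rcases x with u | z <;> simp only [Ch, Me] at h hx ⊢
  · obtain ⟨rfl, _⟩ := h; exact hx
  · obtain ⟨rfl, rfl⟩ := h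
    obtain ⟨k, hk, hk'⟩ := hx
    exact ⟨k, by omega, hk'⟩
  · obtain ⟨h1, rfl⟩ := h
    exact ⟨n, le_rfl, by rw [h1, hx]⟩
  · rw [hx, h.1]

theorem Me_up' {x : Px 𝒜} {ν κ : Nd 𝒜} (h : ReflTransGen Ch ν κ) (hx : Me x κ) : Me x ν := by
  induction h with
  | refl => exact hx
  | tail _ h2 ih => exact ih (Me_up h2 hx)

theorem Me_down {x : Px 𝒜} {ν : Nd 𝒜} (hx : Me x ν) : ∃ κ, Ch ν κ ∧ Me x κ := by
  rcases ν with ⟨s, n⟩ | ⟨y, m⟩ <;> rcases x with u | z <;> simp only [Me] at hx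
  · exact ⟨.inl (s, n + 1), ⟨rfl, rfl⟩, hx⟩
  · obtain ⟨k, hk, hk'⟩ := hx
    rcases hk.lt_or_eq with h | h
    · exact ⟨.inl (s, n + 1), ⟨rfl, rfl⟩, ⟨k, h, hk'⟩⟩
    · subst h
      exact ⟨.inr (z, n + 1), ⟨hk', rfl⟩, rfl⟩
  · exact ⟨.inr (y, m + 1), ⟨rfl, rfl⟩, hx⟩

theorem Me_ne (ν : Nd 𝒜) : ∃ x, Me x ν := by
  rcases ν with ⟨s, n⟩ | ⟨y, m⟩
  · exact ⟨.inl s, rfl⟩
  · exact ⟨.inr y, rfl⟩

theorem Me_unique (hA : AD 𝒜) {x : Px 𝒜} {ν a b : Nd 𝒜} (ha : Ch ν a) (hb : Ch ν b)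
    (hxa : Me x a) (hxb : Me x b) : a = b := by
  have hg : gr a = gr b := by rw [Ch_gr ha, Ch_gr hb]
  rcases ν with ⟨s, n⟩ | ⟨y, m⟩ <;> rcases a with ⟨s1, n1⟩ | ⟨y1, m1⟩ <;>
    rcases b with ⟨s2, n2⟩ | ⟨y2, m2⟩ <;> simp only [Ch, gr] at ha hb hg
  · obtain ⟨rfl, rfl⟩ := ha; obtain ⟨rfl, rfl⟩ := hb; rfl
  · exfalso
    obtain ⟨rfl, rfl⟩ := ha
    obtain ⟨rfl, rfl⟩ := hb
    rcases x with u | z
    · exact hxb
    · obtain ⟨k, hk, hk'⟩ := hxa
      have h1 : z = s.1 n := hxb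
      have := (hA.1 s.1 s.2).1 (hk'.trans h1)
      omega
  · exfalso
    obtain ⟨rfl, rfl⟩ := ha
    obtain ⟨rfl, rfl⟩ := hb
    rcases x with u | z
    · exact hxa
    · obtain ⟨k, hk, hk'⟩ := hxb
      have h1 : z = s.1 n := hxa
      have := (hA.1 s.1 s.2).1 (hk'.trans h1)
      omega
  · rw [← ha.1, ← hb.1, hg]
  · rw [← ha.1, ← hb.1, hg]

theorem reach_inl (s : 𝒜) (n k : ℕ) : ReflTransGen Ch (.inl (s, n) : Nd 𝒜) (.inl (s, n + k)) := by
  induction k with
  | zero => exact ReflTransGen.refl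
  | succ k ih => exact ih.tail ⟨rfl, rfl⟩

theorem reach_inr (y : ℝ) (m k : ℕ) : ReflTransGen Ch (.inr (y, m) : Nd 𝒜) (.inr (y, m + k)) := by
  induction k with
  | zero => exact ReflTransGen.refl
  | succ k ih => exact ih.tail ⟨rfl, rfl⟩

/-- A node containing the real `y` reaches all late nodes of `y`. -/
theorem reach_pt {y : ℝ} {ν : Nd 𝒜} (h : Me (.inr y) ν) :
    ∃ M, ∀ m, M ≤ m → ReflTransGen Ch ν (.inr (y, m)) := by
  rcases ν with ⟨s, n⟩ | ⟨y', m'⟩
  · obtain ⟨k, hk, hk'⟩ := h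
    refine ⟨k + 1, fun m hm => ?_⟩
    have h1 := reach_inl s n (k - n)
    have h2 : n + (k - n) = k := by omega
    rw [h2] at h1
    have h3 : ReflTransGen Ch (.inl (s, n) : Nd 𝒜) (.inr (y, k + 1)) := h1.tail ⟨hk', rfl⟩
    have h4 := reach_inr (𝒜 := 𝒜) y (k + 1) (m - (k + 1))
    have h5 : k + 1 + (m - (k + 1)) = m := by omega
    rw [h5] at h4
    exact h3.trans h4
  · obtain rfl : y = y' := h
    refine ⟨m', fun m hm => ?_⟩
    have h4 := reach_inr (𝒜 := 𝒜) y m' (m - m')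
    have h5 : m' + (m - m') = m := by omega
    rw [h5] at h4
    exact h4

/-- The set of indices of the members of a sequence that lie in a node not containing the
sequence is finite. -/
theorem fin_idx (hA : AD 𝒜) (s : 𝒜) {μ : Nd 𝒜} (h : ¬ Me (.inl s) μ) :
    {k | Me (.inr (s.1 k)) μ}.Finite := by
  have hinj := (hA.1 s.1 s.2).1
  rcases μ with ⟨s', n⟩ | ⟨y, m⟩
  · have hne : s.1 ≠ s'.1 := fun h' => h (Subtype.ext h')
    have h1 := hA.2 s.1 s.2 s'.1 s'.2 hne
    refine (h1.preimage hinj.injOn).subset ?_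
    rintro k ⟨l, _, hl⟩
    exact ⟨⟨k, rfl⟩, ⟨l, hl⟩⟩
  · refine ((finite_singleton y).preimage hinj.injOn).subset ?_
    intro k hk
    exact hk

/-- The system. -/
def sys (hA : AD 𝒜) : Pool.Agent.Helper185.Man.Sys where
  N := Nd 𝒜
  X := Px 𝒜
  C := Ch
  g := gr
  mem := Me
  C_fin := by
    rintro (⟨s, n⟩ | ⟨y, m⟩)
    · refine (Set.toFinite ({.inl (s, n + 1), .inr (s.1 n, n + 1)} : Set (Nd 𝒜))).subset ?_
      rintro (⟨s', n'⟩ | ⟨y', m'⟩) h
      · obtain ⟨rfl, rfl⟩ := h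
        exact Or.inl rfl
      · obtain ⟨rfl, rfl⟩ := h
        exact Or.inr rfl
    · refine (Set.toFinite ({.inr (y, m + 1)} : Set (Nd 𝒜))).subset ?_
      rintro (⟨s', n'⟩ | ⟨y', m'⟩) h
      · exact h.elim
      · obtain ⟨rfl, rfl⟩ := h
        rfl
  C_g := fun ν κ h => by rw [Ch_gr h]; exact Nat.lt_succ_self _
  mem_up := fun _ _ _ h1 h2 => Me_up h1 h2
  mem_down := fun _ _ h => Me_down h
  mem_ex := by
    rintro (s | y)
    · exact ⟨.inl (s, 0), rfl⟩
    · exact ⟨.inr (y, 0), rfl⟩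
  disj := by
    intro ν a b ha hb hab κ h1 h2
    obtain ⟨x, hx⟩ := Me_ne κ
    exact hab (Me_unique hA ha hb (Me_up' h1 hx) (Me_up' h2 hx))
  disjX := fun x ν a b ha hb hxa hxb => Me_unique hA ha hb hxa hxb
  limit := by
    intro f hf
    have hup : ∀ n k x, Me x (f (n + k)) → Me x (f n) := by
      intro n k x
      induction k with
      | zero => exact id
      | succ k ih => exact fun h => ih (Me_up (hf (n + k)) h)
    by_cases hex : ∃ n y m, f n = .inr (y, m)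
    · obtain ⟨n, y, m, hn⟩ := hex
      have hlate : ∀ k, ∃ m', f (n + k) = .inr (y, m') := by
        intro k
        induction k with
        | zero => exact ⟨m, hn⟩
        | succ k ih =>
          obtain ⟨m', hm'⟩ := ih
          have h1 := hf (n + k)
          rw [hm'] at h1
          have h2 : n + (k + 1) = n + k + 1 := rfl
          rw [h2]
          rcases h3 : f (n + k + 1) with ⟨s', n'⟩ | ⟨y', m''⟩
          · rw [h3] at h1; exact h1.elim
          · rw [h3] at h1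
            obtain ⟨rfl, rfl⟩ := h1
            exact ⟨_, rfl⟩
      refine ⟨.inr y, fun k => ?_⟩
      obtain ⟨m', hm'⟩ := hlate k
      refine hup k n _ ?_
      rw [add_comm k n, hm']
      rfl
    · push Not at hex
      have hall : ∀ n, ∃ s m, f n = .inl (s, m) := by
        intro n
        rcases h3 : f n with ⟨s', n'⟩ | ⟨y', m''⟩
        · exact ⟨_, _, rfl⟩
        · exact absurd h3 (hex n y' m'')
      obtain ⟨s, m, hs⟩ := hall 0
      have hsall : ∀ n, ∃ m, f n = .inl (s, m) := by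
        intro n
        induction n with
        | zero => exact ⟨m, hs⟩
        | succ n ih =>
          obtain ⟨m', hm'⟩ := ih
          obtain ⟨s'', m'', h''⟩ := hall (n + 1)
          have h1 := hf n
          rw [hm', h''] at h1
          obtain ⟨rfl, rfl⟩ := h1
          exact ⟨_, h''⟩
      refine ⟨.inl s, fun n => ?_⟩
      obtain ⟨m', hm'⟩ := hsall n
      rw [hm']
      rfl
  merge := by
    rintro (s | y) ν μ h1 h2
    · rcases ν with ⟨s1, n1⟩ | ⟨y1, m1⟩
      · rcases μ with ⟨s2, n2⟩ | ⟨y2, m2⟩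
        · obtain rfl : s = s1 := h1
          obtain rfl : s = s2 := h2
          refine ⟨.inl (s, n1 + n2), reach_inl s n1 n2, ?_, rfl⟩
          rw [add_comm]
          exact reach_inl s n2 n1
        · exact h2.elim
      · exact h1.elim
    · obtain ⟨M1, hM1⟩ := reach_pt h1
      obtain ⟨M2, hM2⟩ := reach_pt h2
      exact ⟨.inr (y, M1 + M2), hM1 _ (by omega), hM2 _ (by omega), rfl⟩
  sep := by
    rintro (s | y) ν μ h1 h2
    · rcases ν with ⟨s1, n1⟩ | ⟨y1, m1⟩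
      · obtain rfl : s = s1 := h1
        obtain ⟨K, hK⟩ := (fin_idx hA s h2).bddAbove
        refine ⟨.inl (s, n1 + (K + 1)), reach_inl s n1 (K + 1), rfl, fun τ h3 h4 => ?_⟩
        obtain ⟨x, hx⟩ := Me_ne τ
        have h5 := Me_up' h3 hx
        have h6 := Me_up' h4 hx
        rcases x with u | z
        · obtain rfl : u = s := h5
          exact h2 h6
        · obtain ⟨k, hk, rfl⟩ := h5
          have := hK (show k ∈ {k | Me (.inr (s.1 k)) μ} from h6)
          omega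
      · exact h1.elim
    · obtain ⟨M, hM⟩ := reach_pt h1
      refine ⟨.inr (y, M), hM M le_rfl, rfl, fun τ h3 h4 => ?_⟩
      obtain ⟨x, hx⟩ := Me_ne τ
      have h5 := Me_up' h3 hx
      have h6 := Me_up' h4 hx
      rcases x with u | z
      · exact h5
      · obtain rfl : z = y := h5
        exact h2 h6
  bdd := by
    have key : ∀ (s : 𝒜) (y : ℝ), ∃ n, ∀ ν : Nd 𝒜, Me (.inl s) ν → Me (.inr y) ν → gr ν ≤ n := by
      intro s y
      by_cases hy : ∃ k, s.1 k = y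
      · obtain ⟨k, hk⟩ := hy
        refine ⟨k, ?_⟩
        rintro (⟨s', n⟩ | ⟨y', m⟩) h1 h2
        · obtain rfl : s = s' := h1
          obtain ⟨l, hl, hl'⟩ := h2
          have := (hA.1 s.1 s.2).1 (hl'.trans hk.symm)
          subst this
          exact hl
        · exact h1.elim
      · refine ⟨0, ?_⟩
        rintro (⟨s', n⟩ | ⟨y', m⟩) h1 h2
        · obtain rfl : s = s' := h1
          obtain ⟨l, hl, hl'⟩ := h2
          exact absurd ⟨l, hl'⟩ hy
        · exact h1.elim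
    rintro (s | y) (s' | y') hne
    · refine ⟨0, ?_⟩
      rintro (⟨s'', n⟩ | ⟨y', m⟩) h1 h2
      · obtain rfl : s = s'' := h1
        obtain rfl : s' = s := h2
        exact absurd rfl hne
      · exact h1.elim
    · exact key s y'
    · obtain ⟨n, hn⟩ := key s' y
      exact ⟨n, fun ν h1 h2 => hn ν h2 h1⟩
    · have hd : 0 < |y - y'| := abs_pos.2 (sub_ne_zero.2 (fun h => hne (by rw [h])))
      obtain ⟨n, hn⟩ := exists_pow_lt_of_lt_one hd (show (1 / 2 : ℝ) < 1 by norm_num)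
      refine ⟨n, ?_⟩
      rintro (⟨s, m⟩ | ⟨z, m⟩) h1 h2
      · obtain ⟨k, hk, rfl⟩ := h1
        obtain ⟨l, hl, rfl⟩ := h2
        by_contra hlt
        push Not at hlt
        have h3 := (hA.1 s.1 s.2).2.2 m k l hk hl
        have h4 : ((1 / 2 : ℝ)) ^ m ≤ (1 / 2) ^ n :=
          pow_le_pow_of_le_one (by norm_num) (by norm_num) (le_of_lt hlt)
        linarith
      · obtain rfl : y = z := h1
        obtain rfl : y' = y := h2
        exact absurd rfl hne

end Pool.Agent.H328R3.QD
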