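import Pool.Agent.Helper971.SqR.OmegaTau
import Pool.Agent.Helper185.SelTransport

/-!
The block tower satisfies `S_fin(Ω, T)`.
-/

set_option autoImplicit false
set_option linter.unusedSectionVars false

namespace Pool.Agent.H328R3.SF

open Set Filter Topology Pool.Agent.Helper185.Silver Pool.Agent.Helper185.Sel
  Pool.Agent.Helper185.Blk Pool.Agent.Helper971.SqR

/-- a finite-to-one enumeration of a family with the tau property -/
theorem lin_of_fin {X : Type*} {w : ℕ → Set X} (hw : ∀ u, {i | w i = u}.Finite)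
    (h1 : ∀ x, {i | x ∈ w i}.Infinite)
    (h2 : ∀ x y, {i | x ∈ w i ∧ y ∉ w i}.Finite ∨ {i | y ∈ w i ∧ x ∉ w i}.Finite) :
    Lin (range w) where
  large := by
    intro x hfin
    apply h1 x
    refine (hfin.biUnion (t := fun u => {i | w i = u}) (fun u _ => hw u)).subset ?_
    intro i hi
    exact mem_biUnion (show w i ∈ {u | u ∈ range w ∧ x ∈ u} from ⟨mem_range_self i, hi⟩) rfl
  lin := by
    intro x y
    rcases h2 x y with h | h
    · left
      apply (h.image w).subset
      rintro _ ⟨⟨i, rfl⟩, hi⟩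
      exact ⟨i, hi, rfl⟩
    · right
      apply (h.image w).subset
      rintro _ ⟨⟨i, rfl⟩, hi⟩
      exact ⟨i, hi, rfl⟩

section

variable {I : Type} [LinearOrder I] [WellFoundedLT I]
variable {B : I → Set ℕ} {O : I → ℕ → Set (Set ℕ)} {p : I → ℕ → Finset ℕ}

/-- infinitely many points -/
theorem exists_inj [Nonempty I] (p : I → ℕ → Finset ℕ) :
    ∃ x : ℕ → XT p, Function.Injective x := by
  obtain ⟨i0⟩ := (inferInstance : Nonempty I)
  let T : ℕ → Set ℕ := fun k => {n | (n ∈ UU (p i0) univ ∧ n ≠ k) ∨ (n = k ∧ k ∉ UU (p i0) univ)}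
  have hT : ∀ k, EqS (T k) (UU (p i0) univ) := by
    intro k
    refine ⟨k + 1, fun n hn => ?_⟩
    constructor
    · rintro (h | h)
      · exact h.1
      · omega
    · intro h
      exact Or.inl ⟨h, by omega⟩
  refine ⟨fun k => ⟨ch (T k), ch_mem p i0 (hT k)⟩, ?_⟩
  intro a b hab
  by_contra hne
  have h1 : T a = T b := by
    have h2 : supp (ch (T a)) = supp (ch (T b)) := congrArg (fun z : XT p => supp z.1) hab
    rwa [supp_ch, supp_ch] at h2
  by_cases ha : a ∈ UU (p i0) univ
  · have h2 : a ∈ T b := Or.inl ⟨ha, hne⟩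
    rw [← h1] at h2
    rcases h2 with h | h
    · exact h.2 rfl
    · exact h.2 ha
  · have h2 : a ∈ T a := Or.inr ⟨rfl, ha⟩
    rw [h1] at h2
    rcases h2 with h | h
    · exact ha h.1
    · exact hne h.1

/-- each task is met at late stages -/
theorem exists_late (hI : ∀ i : I, (Iio i).Countable)
    (hall : ∀ (C : Set ℕ) (W : ℕ → Set (Set ℕ)), (∀ n, Op (W n)) → ∃ i, B i = C ∧ O i = W)
    (W : ℕ → Set (Set ℕ)) (hW : ∀ n, Op (W n)) (j : ℕ → I) : ∃ i, O i = W ∧ ∀ k, j k < i := by
  by_contra hcon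
  push Not at hcon
  choose f hf1 hf2 using fun C => hall C W hW
  have hinj : Function.Injective f := fun a b h => by rw [← hf1 a, ← hf1 b, h]
  have hc : (range f).Countable := by
    have h1 : (⋃ k, Iic (j k)).Countable := by
      refine countable_iUnion (fun k => ?_)
      rw [← Iio_insert]
      exact (hI (j k)).insert (j k)
    refine h1.mono ?_
    rintro _ ⟨C, rfl⟩
    obtain ⟨k, hk⟩ := hcon (f C) (hf2 C)
    exact mem_iUnion.2 ⟨k, hk⟩
  have h2 : Countable (range f) := hc.to_subtype
  have h3 : Countable (Set ℕ) := (Equiv.ofInjective f hinj).countable_iff.mpr h2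
  obtain ⟨g, hg⟩ := exists_surjective_nat (Set ℕ)
  exact Function.cantor_surjective g hg

/-- The block tower satisfies `S_fin(Ω, T)`. -/
theorem sfin_XT [Nonempty I] (hI : ∀ i : I, (Iio i).Countable)
    (hp : ∀ i, Req B O i (fun j _ => p j) (p i))
    (hall : ∀ (C : Set ℕ) (W : ℕ → Set (Set ℕ)), (∀ n, Op (W n)) → ∃ i, B i = C ∧ O i = W) :
    Sfin (OmegaOf (OpenFam (XT p))) (TauOf (OpenFam (XT p))) := by
  classical
  intro U hU
  obtain ⟨x, hxinj⟩ := exists_inj (I := I) p
  -- countable subcovers and enumerations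
  have h0 : ∀ k, ∃ v : ℕ → Set (XT p), (∀ n, v n ∈ U k) ∧
      ∀ F : Set (XT p), F.Finite → ∃ n, F ⊆ v n := by
    intro k
    obtain ⟨V, hVU, hVc, hVω⟩ :=
      Pool.Agent.Helper185.Sierp.exists_countable_omega (hU k).1 (hU k).2.2
    obtain ⟨u, hu, -⟩ := hVω ∅ finite_empty
    obtain ⟨v, hv⟩ := hVc.exists_eq_range ⟨u, hu⟩
    refine ⟨v, fun n => hVU (hv ▸ mem_range_self n), fun F hF => ?_⟩
    obtain ⟨u, hu, hFu⟩ := hVω F hF
    rw [hv] at hu
    obtain ⟨n, rfl⟩ := hu
    exact ⟨n, hFu⟩
  choose v hvU hvω using h0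
  have hvo : ∀ k n, IsOpen (v k n) := fun k n => (hU k).1 _ (hvU k n)
  have hvne : ∀ k n, ∃ z : XT p, z ∉ v k n := fun k n =>
    (ne_univ_iff_exists_notMem _).1 (fun h => (hU k).2.1.2 (h ▸ hvU k n))
  choose z hz using hvne
  let e : ℕ ≃ ℕ × ℕ := (Denumerable.eqv (ℕ × ℕ)).symm
  -- the modified sequence
  let w : ℕ → Set (XT p) := fun n => v (e n).1 (e n).2 \ {x (e n).1}
  have hwo : ∀ n, IsOpen (w n) := fun n => (hvo _ _).sdiff isClosed_singleton
  choose W hW hWw using fun n => isOpen_induced_iff.1 (hwo n)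
  -- a late stage
  choose jx hjx using fun k => (x k).2
  choose jz hjz using fun n => (z (e n).1 (e n).2).2
  obtain ⟨i, hi, hlate⟩ := exists_late (B := B) hI hall (fun n => {A | ch A ∈ W n})
    (fun n => op_of_open (hW n)) (fun n => max (jx n) (jz n))
  have hwm : ∀ n (y : XT p), y ∈ w n ↔ supp y ∈ O i n := by
    intro n y
    rw [hi, ← hWw n]
    change (y : Z) ∈ W n ↔ ch (supp y) ∈ W n
    rw [ch_supp]
  rcases (hp i).2.2.2 with ⟨F, hF, hFX, N, hN⟩ | ⟨m, hm1, hm2, hm3⟩
  · exfalso
    -- the finite set as a set of points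
    let F' : Set (XT p) := {y | supp y ∈ F}
    have hF' : F'.Finite := hF.preimage (fun a _ b _ h => Subtype.ext (supp_injective h))
    -- infinitely many rows are good
    have hrow : ∀ k, x k ∉ F' → ∃ n, F' ⊆ w (e.symm (k, n)) := by
      intro k hk
      obtain ⟨n, hn⟩ := hvω k F' hF'
      refine ⟨n, fun y hy => ?_⟩
      simp only [w, Equiv.apply_symm_apply]
      exact ⟨hn hy, fun h => hk (h ▸ hy)⟩
    have hinf : {k | x k ∉ F'}.Infinite := by
      have h1 : {k | x k ∈ F'}.Finite := hF'.preimage hxinj.injOn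
      exact h1.infinite_compl
    choose! c hc using hrow
    have hinj2 : InjOn (fun k => e.symm (k, c k)) {k | x k ∉ F'} := by
      intro a _ b _ hab
      have h1 := e.symm.injective hab
      exact (Prod.ext_iff.1 h1).1
    obtain ⟨_, ⟨k, hk, rfl⟩, hNk⟩ := (hinf.image hinj2).exists_gt N
    apply hN _ hNk.le
    intro A hA
    have hA2 : ∃ j, EqS A (UU (p j) univ) := by
      rcases hFX hA with ⟨j, _, h2⟩ | h2
      · exact ⟨j, h2⟩
      · exact ⟨i, h2⟩
    obtain ⟨j, hj⟩ := hA2
    have h3 : (⟨ch A, ch_mem p j hj⟩ : XT p) ∈ w (e.symm (k, c k)) := by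
      apply hc k hk
      change supp (ch A) ∈ F
      rw [supp_ch]
      exact hA
    rw [hwm] at h3
    change supp (ch A) ∈ O i _ at h3
    rw [supp_ch] at h3
    exact h3
  · have hmono : StrictMono (m false) := by
      apply strictMono_nat_of_lt_succ
      intro k
      have h1 := hm1 k
      omega
    -- old points
    have hold : ∀ y : XT p, (∃ j, j < i ∧ EqS (supp y) (UU (p j) univ)) →
        ∃ i0, ∀ k, i0 ≤ k → y ∈ w (m false k) := by
      rintro y ⟨j, hj, hy⟩
      obtain ⟨i0, hi0⟩ := hm2 (supp y) ⟨j, hj, hy⟩ false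
      exact ⟨i0, fun k hk => (hwm _ _).2 (hi0 k hk)⟩
    have hxold : ∀ k, ∃ j, j < i ∧ EqS (supp (x k)) (UU (p j) univ) := fun k =>
      ⟨jx k, (le_max_left _ _).trans_lt (hlate k), hjx k⟩
    have hzold : ∀ n, ∃ j, j < i ∧ EqS (supp (z (e n).1 (e n).2)) (UU (p j) univ) := fun n =>
      ⟨jz n, (le_max_right _ _).trans_lt (hlate n), hjz n⟩
    let κ : ℕ → ℕ := fun k => (e (m false k)).1
    let s : ℕ → Set (XT p) := fun k => v (e (m false k)).1 (e (m false k)).2
    have hws : ∀ k, w (m false k) ⊆ s k := fun k => sdiff_subset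
    -- each row is used finitely often
    have hrow : ∀ k, {t | κ t = k}.Finite := by
      intro k
      obtain ⟨i0, hi0⟩ := hold (x k) (hxold k)
      apply (finite_lt_nat i0).subset
      intro t ht
      by_contra hcon
      have h1 := hi0 t (not_lt.1 hcon)
      exact h1.2 (by rw [← (ht : κ t = k)]; rfl)
    -- each set is used finitely often
    have hfib : ∀ u, {t | s t = u}.Finite := by
      intro u
      by_cases hu : ∃ t, s t = u
      · obtain ⟨t0, rfl⟩ := hu
        obtain ⟨i0, hi0⟩ := hold _ (hzold (m false t0))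
        apply (finite_lt_nat i0).subset
        intro t ht
        by_contra hcon
        have h1 := hws t (hi0 t (not_lt.1 hcon))
        rw [(ht : s t = s t0)] at h1
        exact hz _ _ h1
      · have h1 : {t | s t = u} = ∅ := by
          ext t
          exact ⟨fun h => hu ⟨t, h⟩, fun h => h.elim⟩
        rw [h1]
        exact finite_empty
    have hst : ∀ y : XT p, (∃ i0, ∀ k, i0 ≤ k → y ∈ s k) ∨
        ∃ J : Set ℕ, J.Infinite ∧ EqS (supp y) (UU (p i) J) ∧
          ∃ i0, ∀ k, i0 ≤ k → (y ∈ s k ↔ k ∈ J) := by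
      intro y
      by_cases hyold : ∃ j, j < i ∧ EqS (supp y) (UU (p j) univ)
      · left
        obtain ⟨i0, hi0⟩ := hold y hyold
        exact ⟨i0, fun k hk => hws k (hi0 k hk)⟩
      · obtain ⟨j, hj⟩ := y.2
        have h : i ≤ j := by
          by_contra hcon
          exact hyold ⟨j, not_le.1 hcon, hj⟩
        have hyx : ∀ k, y ∉ ({x k} : Set (XT p)) := by
          intro k hk
          rw [mem_singleton_iff] at hk
          rw [hk] at hyold
          exact hyold (hxold k)
        have hyw : ∀ k, y ∈ s k ↔ y ∈ w (m false k) := fun k =>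
          ⟨fun h => ⟨h, hyx _⟩, fun h => hws k h⟩
        obtain ⟨J, hJ, hJ2⟩ := (tower_le hp h).exists_index (hp j).1 (hp i).1 infinite_univ
        rcases hm3 false J hJ (supp y) (hj.trans hJ2) with ⟨i0, hi0⟩ | ⟨i0, hi0⟩
        · left
          exact ⟨i0, fun k hk => (hyw k).2 ((hwm _ _).2 (hi0 k hk))⟩
        · right
          exact ⟨J, hJ, hj.trans hJ2, i0, fun k hk =>
            (hyw k).trans ((hwm _ _).trans (hi0 k hk))⟩
    have hlin : Lin (range s) := by
      apply lin_of_fin hfib
      · intro y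
        rcases hst y with ⟨i0, hi0⟩ | ⟨J, hJ, -, i0, hi0⟩
        · intro hfin
          obtain ⟨M, hM⟩ := hfin.bddAbove
          have h1 : max i0 (M + 1) ≤ M := hM (hi0 (max i0 (M + 1)) (le_max_left _ _))
          have h2 := le_max_right i0 (M + 1)
          omega
        · intro hfin
          apply hJ
          apply (hfin.union (finite_lt_nat i0)).subset
          intro k hk
          by_cases h1 : k < i0
          · exact Or.inr h1
          · exact Or.inl ((hi0 k (not_lt.1 h1)).2 hk)
      · have key : ∀ a b : XT p, Sub (supp a) (supp b) →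
            {k | a ∈ s k ∧ b ∉ s k}.Finite ∨ {k | b ∈ s k ∧ a ∉ s k}.Finite := by
          intro a b hab
          rcases hst b with ⟨j0, hj0⟩ | ⟨J', hJ', hb, j0, hj0⟩
          · left
            apply (finite_lt_nat j0).subset
            rintro k ⟨_, hk⟩
            by_contra hcon
            exact hk (hj0 k (le_of_not_gt (fun h' => hcon h')))
          · rcases hst a with ⟨i0, hi0⟩ | ⟨J, hJ, ha, i0, hi0⟩
            · right
              apply (finite_lt_nat i0).subset
              rintro k ⟨_, hk⟩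
              by_contra hcon
              exact hk (hi0 k (le_of_not_gt (fun h' => hcon h')))
            · left
              have h1 := index_sub (hp i).1 ((ha.symm.sub.trans hab).trans hb.sub)
              apply ((h1.union (finite_lt_nat i0)).union (finite_lt_nat j0)).subset
              rintro k ⟨hk1, hk2⟩
              by_cases h2 : k < i0
              · exact Or.inl (Or.inr h2)
              · by_cases h3 : k < j0
                · exact Or.inr h3
                · left
                  left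
                  exact ⟨(hi0 k (not_lt.1 h2)).1 hk1, fun h4 => hk2 ((hj0 k (not_lt.1 h3)).2 h4)⟩
        intro a b
        rcases XT_lin hp a b with h | h
        · exact key a b h
        · exact (key b a h).symm
    refine ⟨fun k => s '' {t | κ t = k}, fun k => ⟨(hrow k).image s, ?_⟩, ?_⟩
    · rintro _ ⟨t, ht, rfl⟩
      rw [← (ht : κ t = k)]
      exact hvU _ _
    · have h1 : (⋃ k, s '' {t | κ t = k}) = range s := by
        ext u
        simp only [mem_iUnion]
        constructor
        · rintro ⟨k, t, _, rfl⟩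
          exact mem_range_self t
        · rintro ⟨t, rfl⟩
          exact ⟨κ t, t, rfl, rfl⟩
      rw [h1]
      apply tau_of_lin _ _ hlin
      · rintro _ ⟨t, rfl⟩
        exact hvo _ _
      · rintro ⟨t, ht⟩
        have h3 := hvU (e (m false t)).1 (e (m false t)).2
        have h4 : v (e (m false t)).1 (e (m false t)).2 = univ := ht
        rw [h4] at h3
        exact (hU _).2.1.2 h3

end

/-- transport of `S_fin` -/
theorem sfin_transport {A B : Type*} [TopologicalSpace A] [TopologicalSpace B] (e : A ≃ₜ B)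
    {CA : Set (Set (Set A))} {CB : Set (Set (Set B))}
    {DA : Set (Set (Set A))} {DB : Set (Set (Set B))}
    (hC : ∀ U ∈ CB, pullFam e U ∈ CA) (hD : ∀ U ∈ DA, pullFam e.symm U ∈ DB)
    (h : Sfin CA DA) : Sfin CB DB := by
  intro U hU
  obtain ⟨F, hF, hFD⟩ := h (fun n => pullFam e (U n)) (fun n => hC _ (hU n))
  refine ⟨fun n => pullFam e.symm (F n), fun n => ⟨(hF n).1.image _, ?_⟩, ?_⟩
  · rintro _ ⟨u, hu, rfl⟩
    obtain ⟨w, hw, hwu⟩ := (hF n).2 hu
    have h1 : e.symm ⁻¹' u = w := by
      rw [← hwu]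
      exact pull_pull_symm e.symm w
    change e.symm ⁻¹' u ∈ U n
    rw [h1]
    exact hw
  · have h1 : (⋃ n, pullFam e.symm (F n)) = pullFam e.symm (⋃ n, F n) := (image_iUnion).symm
    rw [h1]
    exact hD _ hFD

theorem choose_of_sfin {X : Type*} {C D : Set (Set (Set X))} (h : Sfin C D) : Choose C D := by
  intro U hU
  obtain ⟨F, hF, hFD⟩ := h (fun _ => U) (fun _ => hU)
  exact ⟨_, iUnion_subset (fun n => (hF n).2), hFD⟩

/-- Under the continuum hypothesis there is a set of reals satisfying `S_fin(Ω, T)` whose square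
has an open omega-cover without a tau-subcover. -/
theorem sfin_omega_tau (hCH : Cardinal.aleph 1 = Cardinal.continuum.{0}) :
    ∃ X : Set ℝ, Sfin (OmegaOf (OpenFam X)) (TauOf (OpenFam X)) ∧
      ¬ Choose (OmegaOf (OpenFam (Fin 2 → X))) (TauOf (OpenFam (Fin 2 → X))) := by
  obtain ⟨I, _, _, hI, B, O, hO, hBO⟩ := Pool.Agent.Helper185.Blk.exists_enumeration hCH
  obtain ⟨p, hp⟩ := Pool.Agent.Helper185.Blk.exists_tower hI B O hO
  have hU : ∀ n : ℕ, Op ((fun _ => univ : ℕ → Set (Set ℕ)) n) := fun n A _ => ⟨0, fun _ _ => trivial⟩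
  have : Nonempty I := by
    obtain ⟨i, -⟩ := hBO ∅ (fun _ => univ) hU
    exact ⟨i⟩
  have h1 : Sfin (OmegaOf (OpenFam (XT p))) (TauOf (OpenFam (XT p))) := sfin_XT hI hp hBO
  have h2 : ¬ Choose (OmegaOf (OpenFam (Fin 2 → XT p))) (TauOf (OpenFam (Fin 2 → XT p))) :=
    not_choose_sq hp (fun C => by
      obtain ⟨i, hi, _⟩ := hBO C (fun _ => univ) hU
      exact ⟨i, hi⟩)
  obtain ⟨g, hg⟩ := exists_embedding_Z
  obtain ⟨eX⟩ := homeo_image hg (XT p)
  refine ⟨g '' XT p, ?_, fun h => h2 ?_⟩
  · exact sfin_transport eX (fun U hU => pull_omega eX hU) (fun U hU => pull_tau eX.symm hU) h1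
  · have e2 : (Fin 2 → XT p) ≃ₜ (Fin 2 → (g '' XT p)) := Homeomorph.piCongrRight (fun _ => eX)
    exact choose_transport e2.symm (fun U hU => pull_omega e2.symm hU)
      (fun U hU => pull_tau e2 hU) h

end Pool.Agent.H328R3.SF
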