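import Pool.Agent.H328R3.NotHurewicz
import Pool.Agent.Helper185.SelHur
import Pool.Agent.Helper185.SierpPow

/-!
The examples and implications used for the pairs of selection properties.
-/

set_option autoImplicit false
set_option linter.unusedSectionVars false

namespace Pool.Agent.H328R3.GT

open Set Filter MeasureTheory Pool.Agent.Helper185.Blk Pool.Agent.Helper185.Silver
  Pool.Agent.Helper185.Sel Pool.Agent.H328R3.SF

theorem sfin_of_s1 {X : Type*} {A B : Set (Set (Set X))} (h : S1 A B) : Sfin A B := by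
  intro U hU
  obtain ⟨V, hV, hV2⟩ := h U hU
  refine ⟨fun n => {V n}, fun n => ⟨Set.finite_singleton _, Set.singleton_subset_iff.2 (hV n)⟩, ?_⟩
  rw [Set.iUnion_singleton_eq_range]
  exact hV2

theorem sfin_mono {X : Type*} {A B A' B' : Set (Set (Set X))} (hA : A' ⊆ A) (hB : B ⊆ B')
    (h : Sfin A B) : Sfin A' B' := by
  intro U hU
  obtain ⟨F, hF, hF2⟩ := h U (fun n => hA (hU n))
  exact ⟨F, hF, hB hF2⟩

theorem choose_of_s1 {X : Type*} {A B : Set (Set (Set X))} (h : S1 A B) : Choose A B := by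
  intro U hU
  obtain ⟨V, hV, hV2⟩ := h (fun _ => U) (fun _ => hU)
  exact ⟨_, by rintro _ ⟨n, rfl⟩; exact hV n, hV2⟩

/-- Goodness gives the Hurewicz property. -/
theorem ufin_of_good {X : Type*} [TopologicalSpace X] [SecondCountableTopology X]
    (h : Good (OpenFam X) univ) : Ufin (GammaOf (OpenFam X)) (GammaOf (OpenFam X)) := by
  intro U hU hnf
  obtain ⟨F, hF, hx⟩ := hurewicz_of_good h U (fun n => ⟨(hU n).1, (hU n).2.1.1⟩)
  refine ⟨F, hF, range_gamma (adm_open X) (U := fun n => {⋃₀ F n}) ?_ ?_ (fun n => rfl) hx⟩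
  · intro n u hu
    rw [mem_singleton_iff] at hu
    rw [hu]
    exact isOpen_sUnion (fun v hv => (hU n).1 v ((hF n).2 hv))
  · intro n hn
    exact hnf n ⟨F n, (hF n).2, (hF n).1, (mem_singleton_iff.1 hn).symm⟩

theorem sUnion_pull {A B : Type*} [TopologicalSpace A] [TopologicalSpace B] (e : A ≃ₜ B)
    (F : Set (Set B)) : ⋃₀ pullFam e F = e ⁻¹' ⋃₀ F := by
  rw [preimage_sUnion, pullFam, sUnion_image]

theorem ufin_transport {A B : Type*} [TopologicalSpace A] [TopologicalSpace B] (e : A ≃ₜ B)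
    {CA : Set (Set (Set A))} {CB : Set (Set (Set B))}
    {DA : Set (Set (Set A))} {DB : Set (Set (Set B))}
    (hC : ∀ U ∈ CB, pullFam e U ∈ CA) (hD : ∀ U ∈ DA, pullFam e.symm U ∈ DB)
    (h : Ufin CA DA) : Ufin CB DB := by
  intro U hU hnf
  have hsub : ∀ n (F : Set (Set A)), F ⊆ pullFam e (U n) → pullFam e.symm F ⊆ U n := by
    rintro n F hF _ ⟨u, hu, rfl⟩
    obtain ⟨w, hw, hwu⟩ := hF hu
    have h1 : e.symm ⁻¹' u = w := by
      rw [← hwu]
      exact pull_pull_symm e.symm w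
    change e.symm ⁻¹' u ∈ U n
    rw [h1]
    exact hw
  obtain ⟨F, hF, hFD⟩ := h (fun n => pullFam e (U n)) (fun n => hC _ (hU n)) (by
    rintro n ⟨F, hF1, hF2, hF3⟩
    exact hnf n ⟨pullFam e.symm F, hsub n F hF1, hF2.image _, by
      rw [sUnion_pull, hF3, preimage_univ]⟩)
  refine ⟨fun n => pullFam e.symm (F n), fun n => ⟨(hF n).1.image _, hsub n _ (hF n).2⟩, ?_⟩
  have h1 : range (fun n => ⋃₀ pullFam e.symm (F n)) =
      pullFam e.symm (range (fun n => ⋃₀ F n)) := by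
    rw [pullFam, ← range_comp]
    congr 1
    funext n
    exact sUnion_pull e.symm (F n)
  rw [h1]
  exact hD _ hFD

/-- Under the continuum hypothesis there is a set of reals satisfying `S_fin(Ω, T)`, not
Hurewicz, with a tau-cover without gamma-subcovers. -/
theorem exists_block (hCH : Cardinal.aleph 1 = Cardinal.continuum.{0}) :
    ∃ X : Set ℝ, X.Nonempty ∧ Sfin (OmegaOf (OpenFam X)) (TauOf (OpenFam X)) ∧
      ¬ Choose (TauOf (OpenFam X)) (GammaOf (OpenFam X)) ∧
      ¬ Ufin (GammaOf (OpenFam X)) (GammaOf (OpenFam X)) := by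
  obtain ⟨I, _, _, hI, B, O, hO, hBO⟩ := Pool.Agent.Helper185.Blk.exists_enumeration hCH
  obtain ⟨p, hp2⟩ := exists_tower2 hI B O hO
  have hp : ∀ i, Req B O i (fun j _ => p j) (p i) := fun i => (hp2 i).req
  have hU : ∀ n : ℕ, Op ((fun _ => univ : ℕ → Set (Set ℕ)) n) := fun n A _ => ⟨0, fun _ _ => trivial⟩
  have hB : ∀ C : Set ℕ, ∃ i, B i = C := by
    intro C
    obtain ⟨i, hi, _⟩ := hBO C (fun _ => univ) hU
    exact ⟨i, hi⟩
  obtain ⟨i0, -⟩ := hB ∅
  have : Nonempty I := ⟨i0⟩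
  have h1 : Sfin (OmegaOf (OpenFam (XT p))) (TauOf (OpenFam (XT p))) := sfin_XT hI hp hBO
  have h2 := not_choose_XT hp hB
  have h3 := not_ufin_XT hp2 hB
  obtain ⟨g, hg⟩ := exists_embedding_Z
  obtain ⟨eX⟩ := homeo_image hg (XT p)
  have h0 : (XT p).Nonempty := ⟨_, ch_mem p i0 (EqS.refl _)⟩
  refine ⟨g '' XT p, h0.image g, ?_, fun h => h2 ?_, fun h => h3 ?_⟩
  · exact Pool.Agent.H328R3.SF.sfin_transport eX (fun U hU => pull_omega eX hU) (fun U hU => pull_tau eX.symm hU) h1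
  · exact choose_transport eX.symm (fun U hU => pull_tau eX.symm hU)
      (fun U hU => pull_gamma eX hU) h
  · exact ufin_transport eX.symm (fun U hU => pull_gamma eX.symm hU)
      (fun U hU => pull_gamma eX hU) h

/-- `S_fin(Ω, Ω)` gives the Menger property of the square (for gamma-covers). -/
theorem menger_square {X : Type} [TopologicalSpace X]
    (h : Sfin (OmegaOf (OpenFam X)) (OmegaOf (OpenFam X))) :
    Sfin (GammaOf (OpenFam (Fin 2 → X))) (CovOf (OpenFam (Fin 2 → X))) := by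
  classical
  intro U hU
  let P : ℕ → Set (Set X) := fun n => {V | IsOpen V ∧ ∃ u ∈ U n, ∀ g : Fin 2 → X,
    (∀ i, g i ∈ V) → g ∈ u}
  have hUω : ∀ n, ∀ F : Set (Fin 2 → X), F.Finite → ∃ u ∈ U n, F ⊆ u := by
    intro n F hF
    have h1 : (⋃ f ∈ F, {u | u ∈ U n ∧ f ∉ u}).Finite := hF.biUnion (fun f _ => (hU n).2.2.2 f)
    obtain ⟨u, hu, hu2⟩ := ((hU n).2.2.1.sdiff h1).nonempty
    refine ⟨u, hu, fun f hf => ?_⟩
    by_contra hcon
    exact hu2 (mem_biUnion hf ⟨hu, hcon⟩)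
  have hP : ∀ n, P n ∈ OmegaOf (OpenFam X) := by
    intro n
    have hfin : ∀ F : Set X, F.Finite → ∃ V ∈ P n, F ⊆ V := by
      intro F hF
      have hfin : {f : Fin 2 → X | ∀ i, f i ∈ F}.Finite :=
        Set.Finite.pi' (ι := Fin 2) (t := fun _ => F) (fun _ => hF)
      obtain ⟨u, hu, hFu⟩ := hUω n _ hfin
      obtain ⟨V, hV, hFV, hVu⟩ := exists_open_pow hF ((hU n).1 u hu) (fun f hf => hFu hf)
      exact ⟨V, ⟨hV, u, hu, hVu⟩, hFV⟩
    refine ⟨fun V hV => hV.1, ⟨?_, ?_⟩, hfin⟩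
    · rw [eq_univ_iff_forall]
      intro x
      obtain ⟨V, hV, hx⟩ := hfin {x} (finite_singleton x)
      exact ⟨V, hV, hx rfl⟩
    · rintro ⟨_, u, hu, huniv⟩
      apply (hU n).2.1.2
      have : u = univ := by
        rw [eq_univ_iff_forall]
        intro g
        exact huniv g (fun _ => trivial)
      exact this ▸ hu
  obtain ⟨F, hF, hFO⟩ := h P hP
  have hS : ∀ n (V : Set X), ∃ u : Set (Fin 2 → X), V ∈ F n → u ∈ U n ∧ ∀ g : Fin 2 → X,
      (∀ i, g i ∈ V) → g ∈ u := by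
    intro n V
    by_cases hV : V ∈ F n
    · obtain ⟨-, u, hu, hu2⟩ := (hF n).2 hV
      exact ⟨u, fun _ => ⟨hu, hu2⟩⟩
    · exact ⟨∅, fun h => absurd h hV⟩
  choose S hS using hS
  have hsub : ∀ n, S n '' F n ⊆ U n := by
    rintro n _ ⟨V, hV, rfl⟩
    exact (hS n V hV).1
  refine ⟨fun n => S n '' F n, fun n => ⟨(hF n).1.image _, hsub n⟩, ?_, ?_, ?_⟩
  · intro u hu
    obtain ⟨n, hn⟩ := mem_iUnion.1 hu
    exact (hU n).1 u (hsub n hn)
  · rw [eq_univ_iff_forall]
    intro f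
    obtain ⟨V, hV, hfV⟩ := hFO.2.2 (range f) (finite_range f)
    obtain ⟨n, hn⟩ := mem_iUnion.1 hV
    exact ⟨S n V, mem_iUnion.2 ⟨n, V, hn, rfl⟩, (hS n V hn).2 f (fun i => hfV (mem_range_self i))⟩
  · intro hu
    obtain ⟨n, hn⟩ := mem_iUnion.1 hu
    exact (hU n).2.1.2 (hsub n hn)

/-- A set of reals with Rothberger's property and at least two points is null. -/
theorem null_of_rothberger {X : Set ℝ} {a b : ℝ} (ha : a ∈ X) (hb : b ∈ X) (hab : a < b)
    (h : S1 (CovOf (OpenFam X)) (CovOf (OpenFam X))) : volume X = 0 := by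
  by_contra hne
  obtain ⟨δ, hδ, hsum⟩ := ENNReal.exists_pos_sum_of_countable hne ℕ
  let r : ℕ → ℝ := fun n => min (δ n : ℝ) (b - a)
  have hr : ∀ n, 0 < r n := fun n => lt_min (by exact_mod_cast hδ n) (sub_pos.2 hab)
  let U : ℕ → Set (Set X) := fun n => {u | ∃ q : ℝ, u = {y : X | (y : ℝ) ∈ Ioo q (q + r n)}}
  have hU : ∀ n, U n ∈ CovOf (OpenFam X) := by
    intro n
    refine ⟨?_, ?_, ?_⟩
    · rintro _ ⟨q, rfl⟩
      exact isOpen_Ioo.preimage continuous_subtype_val
    · rw [eq_univ_iff_forall]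
      intro y
      refine ⟨_, ⟨(y : ℝ) - r n / 2, rfl⟩, ?_⟩
      have := hr n
      exact ⟨by linarith, by linarith⟩
    · rintro ⟨q, hq⟩
      have h1 : (⟨a, ha⟩ : X) ∈ {y : X | (y : ℝ) ∈ Ioo q (q + r n)} := by rw [← hq]; trivial
      have h2 : (⟨b, hb⟩ : X) ∈ {y : X | (y : ℝ) ∈ Ioo q (q + r n)} := by rw [← hq]; trivial
      have h3 : q < a := h1.1
      have h4 : b < q + r n := h2.2
      have h5 : r n ≤ b - a := min_le_right _ _
      linarith
  obtain ⟨V, hV, hVc⟩ := h U hU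
  choose q hq using hV
  have hcov : X ⊆ ⋃ n, Ioo (q n) (q n + r n) := by
    intro y hy
    have h1 : (⟨y, hy⟩ : X) ∈ ⋃₀ range V := by rw [hVc.2.1]; trivial
    obtain ⟨_, ⟨n, rfl⟩, hn⟩ := h1
    rw [hq n] at hn
    exact mem_iUnion.2 ⟨n, hn⟩
  have h1 : volume X ≤ ∑' n, (δ n : ENNReal) := by
    refine (measure_mono hcov).trans ((measure_iUnion_le _).trans ?_)
    refine ENNReal.tsum_le_tsum (fun n => ?_)
    rw [Real.volume_Ioo, add_sub_cancel_left]
    refine (ENNReal.ofReal_le_ofReal (min_le_left _ _)).trans ?_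
    rw [ENNReal.ofReal_coe_nnreal]
  exact absurd hsum (not_lt.2 h1)

/-- Under the continuum hypothesis there is a set of reals satisfying `S₁(T, Γ)` but not
Rothberger's property. -/
theorem exists_not_rothberger (hCH : Cardinal.aleph 1 = Cardinal.continuum.{0}) :
    ∃ X : Set ℝ, X.Nonempty ∧ S1 (TauOf (OpenFam X)) (GammaOf (OpenFam X)) ∧
      ¬ S1 (CovOf (OpenFam X)) (CovOf (OpenFam X)) := by
  have h6 : Cardinal.mk (ℕ → Bool) = Cardinal.continuum.{0} := by simp
  have hJ : Cardinal.mk (ℕ → Bool) ≤ Cardinal.continuum.{0} := h6.le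
  obtain ⟨x, hx, hd, hSp⟩ := Pool.Agent.Helper185.Sierp.exists_pairs hCH hJ
    Pool.Agent.Helper185.Sierp.code
  have hfin := Pool.Agent.Helper185.Sierp.volume_ne_top
    (g := Pool.Agent.Helper185.Sierp.code) Pool.Agent.Helper185.Sierp.code_bounds hx
  have hinj : Function.Injective x := by
    intro i j hij
    by_contra hne
    apply hd i j hne
    rw [hij]
    exact ⟨j, by ring⟩
  have hne : (range x ∪ range (fun j => x j + Pool.Agent.Helper185.Sierp.code j)).Nonempty :=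
    ⟨x (fun _ => true), Or.inl (mem_range_self _)⟩
  refine ⟨_, hne, Pool.Agent.Helper185.Sierp.s1_tau_gamma_open hfin hSp hne, ?_⟩
  intro h
  have h0 : x (fun _ => true) ≠ x (fun _ => false) := fun h => by
    have := congrFun (hinj h) 0
    cases this
  have hvol : volume (range x ∪ range (fun j => x j + Pool.Agent.Helper185.Sierp.code j)) = 0 := by
    rcases lt_or_gt_of_ne h0 with h1 | h1
    · exact null_of_rothberger (Or.inl (mem_range_self _)) (Or.inl (mem_range_self _)) h1 h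
    · exact null_of_rothberger (Or.inl (mem_range_self _)) (Or.inl (mem_range_self _)) h1 h
  have h1 := hSp _ hvol
  rw [inter_self] at h1
  have h2 : (range x).Countable := h1.mono subset_union_left
  have h3 : Countable (range x) := h2.to_subtype
  have h4 : Countable (ℕ → Bool) := (Equiv.ofInjective x hinj).countable_iff.mpr h3
  have h5 : Cardinal.mk (ℕ → Bool) ≤ Cardinal.aleph0 := Cardinal.mk_le_aleph0_iff.2 h4
  rw [h6] at h5
  exact absurd h5 (not_le.2 Cardinal.aleph0_lt_continuum)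

end Pool.Agent.H328R3.GT
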