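import Mathlib

/-!
# Upper domination and upper total domination
-/

namespace Pool.Agent.H328R3.UTD

variable {V : Type}

/-- Dominating sets. -/
def Dom (G : SimpleGraph V) (S : Finset V) : Prop := ∀ v, v ∉ S → ∃ u ∈ S, G.Adj v u

/-- Total dominating sets. -/
def TDom (G : SimpleGraph V) (S : Finset V) : Prop := ∀ v, ∃ u ∈ S, G.Adj v u

/-- `S` has the property `P` and no proper subset of `S` has it. -/
def IsMin (P : Finset V → Prop) (S : Finset V) : Prop := P S ∧ ∀ T, T ⊂ S → ¬ P T

open Classical in
/-- The largest cardinality of a minimal set with the property `P`. -/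
noncomputable def upper [Fintype V] (P : Finset V → Prop) : ℕ :=
  (Finset.univ.filter (fun S => IsMin P S)).sup Finset.card

/-- The upper domination number. -/
noncomputable def Gam [Fintype V] (G : SimpleGraph V) : ℕ := upper (Dom G)

/-- The upper total domination number. -/
noncomputable def GamT [Fintype V] (G : SimpleGraph V) : ℕ := upper (TDom G)

/-- `x i y i`, `i < k`, are the edges of an induced matching: they are edges, and there is no edge
between the ends of two different ones (so the `2 k` vertices are distinct). -/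
def IsIM (G : SimpleGraph V) {k : ℕ} (x y : Fin k → V) : Prop :=
  (∀ i, G.Adj (x i) (y i)) ∧
    ∀ i j, i ≠ j → ¬ G.Adj (x i) (x j) ∧ ¬ G.Adj (x i) (y j) ∧ ¬ G.Adj (y i) (y j)

section basic

variable [Fintype V]

theorem le_upper {P : Finset V → Prop} {S : Finset V} (h : IsMin P S) : S.card ≤ upper P := by
  classical
  unfold upper
  exact Finset.le_sup (f := Finset.card) (by simpa using h)

theorem exists_upper {P : Finset V → Prop} {S : Finset V} (h : IsMin P S) :
    ∃ T, IsMin P T ∧ T.card = upper P := by
  classical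
  have hne : (Finset.univ.filter (fun S => IsMin P S)).Nonempty := ⟨S, by simpa using h⟩
  obtain ⟨T, hT, hT2⟩ := Finset.exists_mem_eq_sup _ hne Finset.card
  refine ⟨T, by simpa using hT, ?_⟩
  unfold upper
  rw [← hT2]

omit [Fintype V] in
theorem exists_min {P : Finset V → Prop} (S : Finset V) (h : P S) : ∃ T ⊆ S, IsMin P T := by
  classical
  induction S using Finset.strongInduction with
  | H S ih =>
    by_cases h2 : ∃ T, T ⊂ S ∧ P T
    · obtain ⟨T, hT, hPT⟩ := h2
      obtain ⟨T', h3, h4⟩ := ih T hT hPT
      exact ⟨T', h3.trans hT.subset, h4⟩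
    · push Not at h2
      exact ⟨S, subset_rfl, h, h2⟩

omit [Fintype V] in
theorem not_ssubset_of {P : Finset V → Prop} {S T : Finset V} (h : IsMin P S) (hT : T ⊆ S)
    (hPT : P T) : T = S := by
  by_contra hne
  exact h.2 T (lt_of_le_of_ne hT hne) hPT

/-- Independent sets are at most as large as the upper domination number. -/
theorem indep_le (G : SimpleGraph V) (I : Finset V) (hI : ∀ a ∈ I, ∀ b ∈ I, ¬ G.Adj a b) :
    I.card ≤ Gam G := by
  classical
  -- a largest independent set containing `I`
  obtain ⟨J, hJ, hmax⟩ := Finset.exists_max_image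
    (Finset.univ.filter (fun J : Finset V => I ⊆ J ∧ ∀ a ∈ J, ∀ b ∈ J, ¬ G.Adj a b)) Finset.card
    ⟨I, by simp only [Finset.mem_filter, Finset.mem_univ, true_and]; exact ⟨subset_rfl, hI⟩⟩
  simp only [Finset.mem_filter, Finset.mem_univ, true_and] at hJ hmax
  have hdom : IsMin (Dom G) J := by
    refine ⟨?_, ?_⟩
    · intro v hv
      by_contra hcon
      push Not at hcon
      have h1 := hmax (insert v J) ⟨hJ.1.trans (Finset.subset_insert _ _), by
        intro a ha b hb hab
        rcases Finset.mem_insert.1 ha with ha | ha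
        · rcases Finset.mem_insert.1 hb with hb | hb
          · rw [ha, hb] at hab
            exact G.irrefl hab
          · rw [ha] at hab
            exact hcon b hb hab
        · rcases Finset.mem_insert.1 hb with hb | hb
          · rw [hb] at hab
            exact hcon a ha hab.symm
          · exact hJ.2 a ha b hb hab⟩
      rw [Finset.card_insert_of_notMem hv] at h1
      omega
    · intro T hT hdT
      obtain ⟨v, hv1, hv2⟩ := Finset.exists_of_ssubset hT
      obtain ⟨u, hu1, hu2⟩ := hdT v hv2
      exact hJ.2 v hv1 u (hT.subset hu1) hu2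
  exact (Finset.card_le_card hJ.1).trans (le_upper hdom)

omit [Fintype V] in
theorem dom_of_tdom {G : SimpleGraph V} {S : Finset V} (h : TDom G S) : Dom G S :=
  fun v _ => h v

omit [Fintype V] in
/-- Private neighbours. -/
theorem exists_pn {G : SimpleGraph V} {S : Finset V} (h : IsMin (TDom G) S) (v : V) (hv : v ∈ S) :
    ∃ w, G.Adj w v ∧ ∀ u ∈ S, G.Adj w u → u = v := by
  classical
  have h1 := h.2 (S.erase v) (Finset.erase_ssubset hv)
  unfold TDom at h1
  push Not at h1
  obtain ⟨w, hw⟩ := h1
  have h2 : ∀ u ∈ S, G.Adj w u → u = v := by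
    intro u hu hwu
    by_contra hne
    exact hw u (Finset.mem_erase.2 ⟨hne, hu⟩) hwu
  obtain ⟨u, hu1, hu2⟩ := h.1 w
  have := h2 u hu1 hu2
  rw [this] at hu2
  exact ⟨w, hu2, h2⟩

/-- The analysis of a minimal total dominating set. -/
theorem card_le (G : SimpleGraph V) {S : Finset V} (h : IsMin (TDom G) S) :
    S.card ≤ 2 * Gam G := by
  classical
  obtain ⟨D, hDS, hD⟩ := exists_min S (dom_of_tdom h.1)
  choose! pn hpn1 hpn2 using exists_pn h
  have h1 : ∀ v ∈ S \ D, pn v ∈ D := by
    intro v hv
    rw [Finset.mem_sdiff] at hv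
    by_contra hcon
    obtain ⟨u, hu1, hu2⟩ := hD.1 (pn v) hcon
    have := hpn2 v hv.1 u (hDS hu1) hu2
    rw [this] at hu1
    exact hv.2 hu1
  have h2 : Set.InjOn pn (S \ D : Finset V) := by
    intro v hv v' hv' hvv
    have hv1 := (Finset.mem_sdiff.1 (Finset.mem_coe.1 hv)).1
    have hv2 := (Finset.mem_sdiff.1 (Finset.mem_coe.1 hv')).1
    have h3 := hpn1 v' hv2
    rw [← hvv] at h3
    exact (hpn2 v hv1 v' hv2 h3).symm
  have h3 : (S \ D).card ≤ D.card := Finset.card_le_card_of_injOn pn (fun v hv => h1 v hv) h2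
  have h4 := Finset.card_sdiff_add_card_eq_card hDS
  have h5 : D.card ≤ Gam G := le_upper hD
  omega

theorem gamT_le (G : SimpleGraph V) : GamT G ≤ 2 * Gam G := by
  classical
  unfold GamT upper
  refine Finset.sup_le (fun S hS => ?_)
  exact card_le G (by simpa using hS)

/-- A minimal total dominating set of twice the size of the upper domination number consists of the
vertices of an induced matching. -/
theorem matching_of_card (G : SimpleGraph V) {S : Finset V} (h : IsMin (TDom G) S)
    (hS : S.card = 2 * Gam G) : ∃ x y : Fin (Gam G) → V, IsIM G x y ∧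
      ∀ v, v ∈ S ↔ ∃ i, v = x i ∨ v = y i := by
  classical
  obtain ⟨D, hDS, hD⟩ := exists_min S (dom_of_tdom h.1)
  choose! pn hpn1 hpn2 using exists_pn h
  have h1 : ∀ v ∈ S \ D, pn v ∈ D := by
    intro v hv
    rw [Finset.mem_sdiff] at hv
    by_contra hcon
    obtain ⟨u, hu1, hu2⟩ := hD.1 (pn v) hcon
    have := hpn2 v hv.1 u (hDS hu1) hu2
    rw [this] at hu1
    exact hv.2 hu1
  have h2 : Set.InjOn pn (S \ D : Finset V) := by
    intro v hv v' hv' hvv
    have hv1 := (Finset.mem_sdiff.1 (Finset.mem_coe.1 hv)).1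
    have hv2 := (Finset.mem_sdiff.1 (Finset.mem_coe.1 hv')).1
    have h3 := hpn1 v' hv2
    rw [← hvv] at h3
    exact (hpn2 v hv1 v' hv2 h3).symm
  have h3 : (S \ D).card ≤ D.card := Finset.card_le_card_of_injOn pn (fun v hv => h1 v hv) h2
  have h4 := Finset.card_sdiff_add_card_eq_card hDS
  have h5 : D.card ≤ Gam G := le_upper hD
  have hDc : D.card = Gam G := by omega
  have himg : (S \ D).image pn = D := by
    apply Finset.eq_of_subset_of_card_le
    · intro w hw
      obtain ⟨v, hv, rfl⟩ := Finset.mem_image.1 hw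
      exact h1 v hv
    · rw [Finset.card_image_of_injOn h2]
      omega
  -- partners
  have hpart : ∀ w ∈ D, ∃ v ∈ S \ D, pn v = w := by
    intro w hw
    rw [← himg] at hw
    obtain ⟨v, hv, hvw⟩ := Finset.mem_image.1 hw
    exact ⟨v, hv, hvw⟩
  choose! m hm1 hm2 using hpart
  have hmS : ∀ w ∈ D, m w ∈ S := fun w hw => (Finset.mem_sdiff.1 (hm1 w hw)).1
  have hmD : ∀ w ∈ D, m w ∉ D := fun w hw => (Finset.mem_sdiff.1 (hm1 w hw)).2
  have hadj : ∀ w ∈ D, G.Adj w (m w) := by
    intro w hw
    have := hpn1 (m w) (hmS w hw)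
    rwa [hm2 w hw] at this
  have huniq : ∀ w ∈ D, ∀ u ∈ S, G.Adj w u → u = m w := by
    intro w hw u hu hwu
    refine hpn2 (m w) (hmS w hw) u hu ?_
    rwa [hm2 w hw]
  have hDind : ∀ w ∈ D, ∀ w' ∈ D, ¬ G.Adj w w' := by
    intro w hw w' hw' hww
    have := huniq w hw w' (hDS hw') hww
    rw [this] at hw'
    exact hmD w hw hw'
  have hminj : ∀ w ∈ D, ∀ w' ∈ D, m w = m w' → w = w' := by
    intro w hw w' hw' hmm
    rw [← hm2 w hw, ← hm2 w' hw', hmm]
  -- the private neighbours of the elements of `D`
  have hpnD : ∀ w ∈ D, pn w = m w := by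
    intro w hw
    have hwS := hDS hw
    by_cases hx : pn w ∈ S
    · exact huniq w hw _ hx (hpn1 w hwS).symm
    · exfalso
      have hind : ∀ a ∈ insert (pn w) (insert (m w) (D.erase w)),
          ∀ b ∈ insert (pn w) (insert (m w) (D.erase w)), ¬ G.Adj a b := by
        have e1 : ¬ G.Adj (pn w) (m w) := by
          intro hadj'
          have := hpn2 w hwS (m w) (hmS w hw) hadj'
          exact hmD w hw (by rw [this]; exact hw)
        have e2 : ∀ w' ∈ D.erase w, ¬ G.Adj (pn w) w' := by
          intro w' hw' hadj'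
          exact (Finset.mem_erase.1 hw').1
            (hpn2 w hwS w' (hDS (Finset.mem_erase.1 hw').2) hadj')
        have e3 : ∀ w' ∈ D.erase w, ¬ G.Adj (m w) w' := by
          intro w' hw' hadj'
          have hw'D := (Finset.mem_erase.1 hw').2
          have := huniq w' hw'D (m w) (hmS w hw) hadj'.symm
          exact (Finset.mem_erase.1 hw').1 (hminj w hw w' hw'D this).symm
        have e4 : ∀ a ∈ D.erase w, ∀ b ∈ D.erase w, ¬ G.Adj a b := fun a ha b hb =>
          hDind a (Finset.mem_erase.1 ha).2 b (Finset.mem_erase.1 hb).2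
        intro a ha b hb hab
        rcases Finset.mem_insert.1 ha with ha | ha
        · rcases Finset.mem_insert.1 hb with hb | hb
          · rw [ha, hb] at hab; exact G.irrefl hab
          · rcases Finset.mem_insert.1 hb with hb | hb
            · rw [ha, hb] at hab; exact e1 hab
            · rw [ha] at hab; exact e2 b hb hab
        · rcases Finset.mem_insert.1 ha with ha | ha
          · rcases Finset.mem_insert.1 hb with hb | hb
            · rw [ha, hb] at hab; exact e1 hab.symm
            · rcases Finset.mem_insert.1 hb with hb | hb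
              · rw [ha, hb] at hab; exact G.irrefl hab
              · rw [ha] at hab; exact e3 b hb hab
          · rcases Finset.mem_insert.1 hb with hb | hb
            · rw [hb] at hab; exact e2 a ha hab.symm
            · rcases Finset.mem_insert.1 hb with hb | hb
              · rw [hb] at hab; exact e3 a ha hab.symm
              · exact e4 a ha b hb hab
      have hle := indep_le G _ hind
      have c1 : m w ∉ D.erase w := fun hcon => hmD w hw (Finset.mem_erase.1 hcon).2
      have c2 : pn w ∉ insert (m w) (D.erase w) := by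
        intro hcon
        rcases Finset.mem_insert.1 hcon with hcon | hcon
        · exact hx (by rw [hcon]; exact hmS w hw)
        · exact hx (hDS (Finset.mem_erase.1 hcon).2)
      rw [Finset.card_insert_of_notMem c2, Finset.card_insert_of_notMem c1,
        Finset.card_erase_of_mem hw] at hle
      have : 0 < D.card := Finset.card_pos.2 ⟨w, hw⟩
      omega
  have hmm : ∀ w ∈ D, ∀ u ∈ S, G.Adj (m w) u → u = w := by
    intro w hw u hu hadj'
    refine hpn2 w (hDS hw) u hu ?_
    rw [hpnD w hw]
    exact hadj'
  -- the enumeration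
  let e : Fin (Gam G) ≃ D := (finCongr hDc.symm).trans D.equivFin.symm
  have heD : ∀ i, (e i : V) ∈ D := fun i => (e i).2
  refine ⟨fun i => e i, fun i => m (e i), ⟨fun i => hadj _ (heD i), ?_⟩, ?_⟩
  · intro i j hij
    have hne : (e i : V) ≠ e j := fun hcon => hij (e.injective (Subtype.ext hcon))
    refine ⟨hDind _ (heD i) _ (heD j), ?_, ?_⟩
    · intro hadj'
      have := huniq _ (heD i) _ (hmS _ (heD j)) hadj'
      exact hne (hminj _ (heD j) _ (heD i) this).symm
    · intro hadj'
      have := hmm _ (heD i) _ (hmS _ (heD j)) hadj'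
      exact hmD _ (heD j) (by rw [this]; exact heD i)
  · intro v
    constructor
    · intro hv
      by_cases hvD : v ∈ D
      · refine ⟨e.symm ⟨v, hvD⟩, Or.inl ?_⟩
        simp
      · have hv' : v ∈ S \ D := Finset.mem_sdiff.2 ⟨hv, hvD⟩
        have h6 := h1 v hv'
        refine ⟨e.symm ⟨pn v, h6⟩, Or.inr ?_⟩
        simp only [Equiv.apply_symm_apply]
        exact huniq (pn v) h6 v hv (hpn1 v hv)
    · rintro ⟨i, hi | hi⟩
      · rw [hi]; exact hDS (heD i)
      · rw [hi]; exact hmS _ (heD i)

omit [Fintype V] in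
theorem IsIM.injective {G : SimpleGraph V} {k : ℕ} {x y : Fin k → V} (h : IsIM G x y) :
    Function.Injective x ∧ Function.Injective y ∧ ∀ i j, x i ≠ y j := by
  refine ⟨?_, ?_, ?_⟩
  · intro i j hij
    by_contra hne
    refine (h.2 i j hne).2.1 ?_
    rw [hij]
    exact h.1 j
  · intro i j hij
    by_contra hne
    refine (h.2 i j hne).2.1 ?_
    rw [← hij]
    exact h.1 i
  · intro i j hij
    by_cases hne : i = j
    · subst hne
      have := h.1 i
      rw [hij] at this
      exact G.irrefl this
    · refine (h.2 i j hne).2.2 ?_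
      rw [← hij]
      exact (h.1 i).symm

/-- Structure around an induced matching of the largest possible size. -/
theorem both_ends (G : SimpleGraph V) {x y : Fin (Gam G) → V} (h : IsIM G x y) (v : V)
    (hv : ∀ i, v ≠ x i ∧ v ≠ y i) : ∃ i, G.Adj v (x i) ∧ G.Adj v (y i) := by
  classical
  by_contra hcon
  push Not at hcon
  -- a transversal avoiding the neighbours of `v`
  let z : Fin (Gam G) → V := fun i => if G.Adj v (x i) then y i else x i
  have hz : ∀ i, ¬ G.Adj v (z i) := by
    intro i
    by_cases h1 : G.Adj v (x i)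
    · have : z i = y i := if_pos h1
      rw [this]; exact hcon i h1
    · have : z i = x i := if_neg h1
      rw [this]; exact h1
  have hzz : ∀ i j, i ≠ j → ¬ G.Adj (z i) (z j) := by
    intro i j hij
    have h1 : z i = y i ∨ z i = x i := by
      by_cases h1 : G.Adj v (x i)
      · left; exact if_pos h1
      · right; exact if_neg h1
    have h2 : z j = y j ∨ z j = x j := by
      by_cases h1 : G.Adj v (x j)
      · left; exact if_pos h1
      · right; exact if_neg h1
    rcases h1 with h1 | h1 <;> rcases h2 with h2 | h2 <;> rw [h1, h2]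
    · exact (h.2 i j hij).2.2
    · exact fun hcon => (h.2 j i hij.symm).2.1 hcon.symm
    · exact (h.2 i j hij).2.1
    · exact (h.2 i j hij).1
  have hzinj : Function.Injective z := by
    intro i j hij
    by_contra hne
    have h1 : z i = y i ∨ z i = x i := by
      by_cases h1 : G.Adj v (x i)
      · left; exact if_pos h1
      · right; exact if_neg h1
    have h2 : z j = y j ∨ z j = x j := by
      by_cases h1 : G.Adj v (x j)
      · left; exact if_pos h1
      · right; exact if_neg h1
    rcases h1 with h1 | h1 <;> rcases h2 with h2 | h2 <;> rw [h1, h2] at hij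
    · exact hne (h.injective.2.1 hij)
    · exact h.injective.2.2 j i hij.symm
    · exact h.injective.2.2 i j hij
    · exact hne (h.injective.1 hij)
  have hvz : ∀ i, v ≠ z i := by
    intro i
    by_cases h1 : G.Adj v (x i)
    · have : z i = y i := if_pos h1
      rw [this]; exact (hv i).2
    · have : z i = x i := if_neg h1
      rw [this]; exact (hv i).1
  have hle := indep_le G (insert v (Finset.univ.image z)) (by
    intro a ha b hb hab
    rcases Finset.mem_insert.1 ha with ha | ha
    · rcases Finset.mem_insert.1 hb with hb | hb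
      · rw [ha, hb] at hab; exact G.irrefl hab
      · obtain ⟨i, _, rfl⟩ := Finset.mem_image.1 hb
        rw [ha] at hab
        exact hz i hab
    · obtain ⟨i, _, rfl⟩ := Finset.mem_image.1 ha
      rcases Finset.mem_insert.1 hb with hb | hb
      · rw [hb] at hab
        exact hz i hab.symm
      · obtain ⟨j, _, rfl⟩ := Finset.mem_image.1 hb
        by_cases hij : i = j
        · rw [hij] at hab; exact G.irrefl hab
        · exact hzz i j hij hab)
  rw [Finset.card_insert_of_notMem (by
    intro hcon
    obtain ⟨i, _, hi⟩ := Finset.mem_image.1 hcon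
    exact hvz i hi.symm), Finset.card_image_of_injective _ hzinj] at hle
  simp at hle

/-- An induced matching with `Γ` edges is a minimal total dominating set. -/
theorem isMin_of_matching (G : SimpleGraph V) {x y : Fin (Gam G) → V} (h : IsIM G x y)
    (S : Finset V) (hS : ∀ v, v ∈ S ↔ ∃ i, v = x i ∨ v = y i) :
    IsMin (TDom G) S ∧ S.card = 2 * Gam G := by
  classical
  refine ⟨⟨?_, ?_⟩, ?_⟩
  · intro v
    by_cases hv : ∀ i, v ≠ x i ∧ v ≠ y i
    · obtain ⟨i, hi, _⟩ := both_ends G h v hv
      exact ⟨x i, (hS _).2 ⟨i, Or.inl rfl⟩, hi⟩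
    · push Not at hv
      obtain ⟨i, hi⟩ := hv
      by_cases h1 : v = x i
      · refine ⟨y i, (hS _).2 ⟨i, Or.inr rfl⟩, ?_⟩
        rw [h1]; exact h.1 i
      · refine ⟨x i, (hS _).2 ⟨i, Or.inl rfl⟩, ?_⟩
        rw [hi h1]; exact (h.1 i).symm
  · intro T hT hTT
    obtain ⟨s, hs1, hs2⟩ := Finset.exists_of_ssubset hT
    obtain ⟨i, hi⟩ := (hS s).1 hs1
    rcases hi with hi | hi
    · obtain ⟨u, hu1, hu2⟩ := hTT (y i)
      obtain ⟨j, hj⟩ := (hS u).1 (hT.subset hu1)
      by_cases hij : i = j
      · subst hij
        rcases hj with hj | hj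
        · rw [hj, ← hi] at hu1; exact hs2 hu1
        · rw [hj] at hu2; exact G.irrefl hu2
      · rcases hj with hj | hj
        · rw [hj] at hu2; exact (h.2 j i (Ne.symm hij)).2.1 hu2.symm
        · rw [hj] at hu2; exact (h.2 i j hij).2.2 hu2
    · obtain ⟨u, hu1, hu2⟩ := hTT (x i)
      obtain ⟨j, hj⟩ := (hS u).1 (hT.subset hu1)
      by_cases hij : i = j
      · subst hij
        rcases hj with hj | hj
        · rw [hj] at hu2; exact G.irrefl hu2
        · rw [hj, ← hi] at hu1; exact hs2 hu1
      · rcases hj with hj | hj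
        · rw [hj] at hu2; exact (h.2 i j hij).1 hu2
        · rw [hj] at hu2; exact (h.2 i j hij).2.1 hu2
  · have : S = Finset.univ.image x ∪ Finset.univ.image y := by
      ext v
      rw [hS v]
      simp only [Finset.mem_union, Finset.mem_image, Finset.mem_univ, true_and]
      constructor
      · rintro ⟨i, hi | hi⟩
        · exact Or.inl ⟨i, hi.symm⟩
        · exact Or.inr ⟨i, hi.symm⟩
      · rintro (⟨i, hi⟩ | ⟨i, hi⟩)
        · exact ⟨i, Or.inl hi.symm⟩
        · exact ⟨i, Or.inr hi.symm⟩
    rw [this, Finset.card_union_of_disjoint, Finset.card_image_of_injective _ h.injective.1,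
      Finset.card_image_of_injective _ h.injective.2.1, Finset.card_univ, Fintype.card_fin]
    · ring
    · rw [Finset.disjoint_left]
      intro v hv1 hv2
      obtain ⟨i, _, hi⟩ := Finset.mem_image.1 hv1
      obtain ⟨j, _, hj⟩ := Finset.mem_image.1 hv2
      exact h.injective.2.2 i j (hi.trans hj.symm)

/-- The characterisation. -/
theorem char (G : SimpleGraph V) (hG : ∀ v, ∃ u, G.Adj v u) :
    GamT G = 2 * Gam G ↔ ∃ x y : Fin (Gam G) → V, IsIM G x y := by
  classical
  constructor
  · intro h
    have hT : TDom G Finset.univ := fun v => by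
      obtain ⟨u, hu⟩ := hG v
      exact ⟨u, Finset.mem_univ _, hu⟩
    obtain ⟨S, _, hS⟩ := exists_min Finset.univ hT
    obtain ⟨T, hT1, hT2⟩ := exists_upper hS
    obtain ⟨x, y, h1, _⟩ := matching_of_card G hT1 (hT2.trans h)
    exact ⟨x, y, h1⟩
  · rintro ⟨x, y, h⟩
    refine le_antisymm (gamT_le G) ?_
    obtain ⟨h1, h2⟩ := isMin_of_matching G h
      (Finset.univ.image x ∪ Finset.univ.image y) (by
        intro v
        simp only [Finset.mem_union, Finset.mem_image, Finset.mem_univ, true_and]
        constructor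
        · rintro (⟨i, hi⟩ | ⟨i, hi⟩)
          · exact ⟨i, Or.inl hi.symm⟩
          · exact ⟨i, Or.inr hi.symm⟩
        · rintro ⟨i, hi | hi⟩
          · exact Or.inl ⟨i, hi.symm⟩
          · exact Or.inr ⟨i, hi.symm⟩)
    rw [← h2]
    exact le_upper h1

end basic

end Pool.Agent.H328R3.UTD
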