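import Mathlib
import Pool.Agent.H328R3.UTD

/-!
# Membership in the class is as complex as the upper domination number
-/

namespace Pool.Agent.H328R3.UTD

variable {A : Type}

/-- Add an isolated vertex. -/
def addIso (H : SimpleGraph A) : SimpleGraph (Option A) where
  Adj a b := ∃ u v, a = some u ∧ b = some v ∧ H.Adj u v
  symm := ⟨by
    rintro a b ⟨u, v, h1, h2, h3⟩
    exact ⟨v, u, h2, h1, h3.symm⟩⟩
  loopless := ⟨by
    rintro a ⟨u, v, h1, h2, h3⟩
    rw [h1] at h2
    rw [Option.some.inj h2] at h3
    exact H.irrefl h3⟩

/-- The join of `L` with `k` disjoint edges. -/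
def joinK (L : SimpleGraph A) (k : ℕ) : SimpleGraph (A ⊕ (Fin k × Bool)) where
  Adj a b := match a, b with
    | .inl a, .inl b => L.Adj a b
    | .inl _, .inr _ => True
    | .inr _, .inl _ => True
    | .inr p, .inr q => p.1 = q.1 ∧ p.2 ≠ q.2
  symm := ⟨by
    rintro (a | a) (b | b) h
    · exact SimpleGraph.Adj.symm (G := L) h
    · trivial
    · trivial
    · exact ⟨h.1.symm, h.2.symm⟩⟩
  loopless := ⟨by
    rintro (a | a) h
    · exact L.irrefl h
    · exact h.2 rfl⟩

variable [Fintype A]

theorem gam_addIso (H : SimpleGraph A) : Gam (addIso H) = Gam H + 1 := by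
  classical
  have hN : ∀ S : Finset (Option A), Dom (addIso H) S → none ∈ S := by
    intro S hS
    by_contra hcon
    obtain ⟨u, _, u', v', h1, _, _⟩ := hS none hcon
    exact absurd h1 (by simp)
  have hlift : ∀ T : Finset A, Dom H T → Dom (addIso H) (insert none (T.image some)) := by
    intro T hT v hv
    rcases v with _ | v
    · exact absurd (Finset.mem_insert_self _ _) hv
    · have : v ∉ T := fun hcon => hv (Finset.mem_insert_of_mem (Finset.mem_image_of_mem _ hcon))
      obtain ⟨u, hu1, hu2⟩ := hT v this
      exact ⟨some u, Finset.mem_insert_of_mem (Finset.mem_image_of_mem _ hu1), v, u, rfl, rfl, hu2⟩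
  have hdrop : ∀ S : Finset (Option A), Dom (addIso H) S →
      Dom H (Finset.univ.filter (fun a => some a ∈ S)) := by
    intro S hS v hv
    have : some v ∉ S := fun hcon => hv (by simpa using hcon)
    obtain ⟨u, hu1, v', u', h1, h2, h3⟩ := hS (some v) this
    refine ⟨u', ?_, ?_⟩
    · rw [h2] at hu1
      simpa using hu1
    · rw [Option.some.inj h1]
      exact h3
  have hback : ∀ S : Finset (Option A), none ∈ S →
      insert none ((Finset.univ.filter (fun a => some a ∈ S)).image some) = S := by
    intro S hS
    ext v
    rcases v with _ | v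
    · simp [hS]
    · simp
  have hcard : ∀ T : Finset A, (insert none (T.image some) : Finset (Option A)).card =
      T.card + 1 := by
    intro T
    rw [Finset.card_insert_of_notMem (by simp), Finset.card_image_of_injective _
      (Option.some_injective A)]
  apply le_antisymm
  · have hdu : Dom (addIso H) Finset.univ := fun v hv => absurd (Finset.mem_univ v) hv
    obtain ⟨S0, _, hS0⟩ := exists_min Finset.univ hdu
    obtain ⟨S, hS, hSc⟩ := exists_upper hS0
    change Gam (addIso H) ≤ _
    have e : Gam (addIso H) = S.card := hSc.symm
    rw [e]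
    have hn := hN S hS.1
    have hmin : IsMin (Dom H) (Finset.univ.filter (fun a => some a ∈ S)) := by
      refine ⟨hdrop S hS.1, fun T hT hTd => ?_⟩
      have h1 : insert none (T.image some) ⊆ S := by
        intro v hv
        rcases Finset.mem_insert.1 hv with hv | hv
        · rw [hv]; exact hn
        · obtain ⟨a, ha, rfl⟩ := Finset.mem_image.1 hv
          simpa using hT.subset ha
      have h2 := not_ssubset_of hS h1 (hlift T hTd)
      have h3 := Finset.card_lt_card hT
      have h4 := hcard T
      have h5 := hcard (Finset.univ.filter (fun a => some a ∈ S))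
      rw [hback S hn] at h5
      rw [h2] at h4
      omega
    have h5 := hcard (Finset.univ.filter (fun a => some a ∈ S))
    rw [hback S hn] at h5
    have h6 := le_upper hmin
    change _ ≤ Gam H at h6
    omega
  · have hdu : Dom H Finset.univ := fun v hv => absurd (Finset.mem_univ v) hv
    obtain ⟨S0, _, hS0⟩ := exists_min Finset.univ hdu
    obtain ⟨S, hS, hSc⟩ := exists_upper hS0
    have e : Gam H = S.card := hSc.symm
    rw [e, ← hcard S]
    refine le_upper ⟨hlift S hS.1, fun T hT hTd => ?_⟩
    have hn := hN T hTd
    have h1 : Finset.univ.filter (fun a => some a ∈ T) ⊆ S := by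
      intro a ha
      have h2 : some a ∈ T := by simpa using ha
      have := hT.subset h2
      simpa using this
    have h2 := not_ssubset_of hS h1 (hdrop T hTd)
    have h3 := Finset.card_lt_card hT
    have h5 := hcard (Finset.univ.filter (fun a => some a ∈ T))
    rw [hback T hn] at h5
    rw [h2] at h5
    have := hcard S
    omega

theorem le_gam_joinK_right (L : SimpleGraph A) (k : ℕ) : k ≤ Gam (joinK L k) := by
  classical
  have := indep_le (joinK L k) (Finset.univ.image (fun i : Fin k => Sum.inr (i, true))) (by
    intro a ha b hb hab
    obtain ⟨i, _, rfl⟩ := Finset.mem_image.1 ha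
    obtain ⟨j, _, rfl⟩ := Finset.mem_image.1 hb
    exact hab.2 rfl)
  rw [Finset.card_image_of_injective _ (by
    intro i j hij
    simpa using hij)] at this
  simpa using this

theorem le_gam_joinK_left (L : SimpleGraph A) (a0 : A) (k : ℕ) : Gam L ≤ Gam (joinK L k) := by
  classical
  have hdu : Dom L Finset.univ := fun v hv => absurd (Finset.mem_univ v) hv
  obtain ⟨S0, _, hS0⟩ := exists_min Finset.univ hdu
  obtain ⟨S, hS, hSc⟩ := exists_upper hS0
  have e : Gam L = S.card := hSc.symm
  have hne : S.Nonempty := by
    by_cases h : a0 ∈ S
    · exact ⟨a0, h⟩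
    · obtain ⟨u, hu, _⟩ := hS.1 a0 h
      exact ⟨u, hu⟩
  have hinj : Function.Injective (Sum.inl : A → A ⊕ (Fin k × Bool)) := Sum.inl_injective
  rw [e, ← Finset.card_image_of_injective S hinj]
  refine le_upper ⟨?_, ?_⟩
  · intro v hv
    rcases v with v | v
    · have : v ∉ S := fun hcon => hv (Finset.mem_image_of_mem _ hcon)
      obtain ⟨u, hu1, hu2⟩ := hS.1 v this
      exact ⟨Sum.inl u, Finset.mem_image_of_mem _ hu1, hu2⟩
    · obtain ⟨u, hu⟩ := hne
      exact ⟨Sum.inl u, Finset.mem_image_of_mem _ hu, trivial⟩
  · intro T hT hTd
    have h1 : Finset.univ.filter (fun a => Sum.inl a ∈ T) ⊆ S := by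
      intro a ha
      have h2 : (Sum.inl a : A ⊕ (Fin k × Bool)) ∈ T := by simpa using ha
      have := hT.subset h2
      simpa using this
    have h2 : Dom L (Finset.univ.filter (fun a => Sum.inl a ∈ T)) := by
      intro v hv
      have : (Sum.inl v : A ⊕ (Fin k × Bool)) ∉ T := fun hcon => hv (by simpa using hcon)
      obtain ⟨u, hu1, hu2⟩ := hTd _ this
      have := hT.subset hu1
      obtain ⟨u', _, rfl⟩ := Finset.mem_image.1 this
      exact ⟨u', by simpa using hu1, hu2⟩
    have h3 := not_ssubset_of hS h1 h2
    have h4 : T = S.image Sum.inl := by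
      apply Finset.Subset.antisymm hT.subset
      intro v hv
      obtain ⟨a, ha, rfl⟩ := Finset.mem_image.1 hv
      rw [← h3] at ha
      simpa using ha
    exact absurd h4 hT.ne

theorem gam_joinK_le (L : SimpleGraph A) (k : ℕ) (hk : 2 ≤ k) (hL : Gam L ≤ k) :
    Gam (joinK L k) ≤ k := by
  classical
  change upper _ ≤ k
  unfold upper
  refine Finset.sup_le (fun S hS => ?_)
  have hS : IsMin (Dom (joinK L k)) S := by simpa using hS
  by_cases hl : ∃ a, Sum.inl a ∈ S
  · obtain ⟨a, ha⟩ := hl
    by_cases hr : ∃ p, Sum.inr p ∈ S
    · obtain ⟨p, hp⟩ := hr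
      have h1 : ({Sum.inl a, Sum.inr p} : Finset (A ⊕ (Fin k × Bool))) ⊆ S := by
        intro v hv
        rcases Finset.mem_insert.1 hv with hv | hv
        · rw [hv]; exact ha
        · rw [Finset.mem_singleton.1 hv]; exact hp
      have h2 : Dom (joinK L k) ({Sum.inl a, Sum.inr p} : Finset (A ⊕ (Fin k × Bool))) := by
        intro v _
        rcases v with v | v
        · exact ⟨Sum.inr p, by simp, trivial⟩
        · exact ⟨Sum.inl a, by simp, trivial⟩
      rw [← not_ssubset_of hS h1 h2]
      exact (Finset.card_le_two).trans hk
    · push Not at hr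
      -- all on the left
      have h1 : S = (Finset.univ.filter (fun a => Sum.inl a ∈ S)).image Sum.inl := by
        ext v
        rcases v with v | v
        · simp
        · simp [hr v]
      have h2 : IsMin (Dom L) (Finset.univ.filter (fun a => Sum.inl a ∈ S)) := by
        refine ⟨?_, ?_⟩
        · intro v hv
          have : (Sum.inl v : A ⊕ (Fin k × Bool)) ∉ S := fun hcon => hv (by simpa using hcon)
          obtain ⟨u, hu1, hu2⟩ := hS.1 _ this
          rcases u with u | u
          · exact ⟨u, by simpa using hu1, hu2⟩
          · exact absurd hu1 (hr u)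
        · intro T hT hTd
          refine hS.2 (T.image Sum.inl) ?_ ?_
          · rw [h1]
            exact Finset.image_ssubset_image Sum.inl_injective |>.2 hT
          · intro v hv
            rcases v with v | v
            · have : v ∉ T := fun hcon => hv (Finset.mem_image_of_mem _ hcon)
              obtain ⟨u, hu1, hu2⟩ := hTd v this
              exact ⟨Sum.inl u, Finset.mem_image_of_mem _ hu1, hu2⟩
            · have hne : T.Nonempty := by
                by_cases h : a ∈ T
                · exact ⟨a, h⟩
                · obtain ⟨u, hu, _⟩ := hTd a h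
                  exact ⟨u, hu⟩
              obtain ⟨u, hu⟩ := hne
              exact ⟨Sum.inl u, Finset.mem_image_of_mem _ hu, trivial⟩
      have h3 := le_upper h2
      change _ ≤ Gam L at h3
      have h4 := congrArg Finset.card h1
      rw [Finset.card_image_of_injective _ Sum.inl_injective] at h4
      omega
  · push Not at hl
    -- all on the right: at most one vertex of each edge
    have h1 : Set.InjOn (fun v : A ⊕ (Fin k × Bool) => Sum.elim (fun _ => none)
        (fun p => some p.1) v) (S : Set (A ⊕ (Fin k × Bool))) := by
      rintro (v | v) hv (w | w) hw hvw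
      · exact absurd hv (hl v)
      · exact absurd hv (hl v)
      · exact absurd hw (hl w)
      · simp only [Sum.elim_inr, Option.some.injEq] at hvw
        by_contra hne
        have hvw2 : v.2 ≠ w.2 := fun h => hne (by rw [Prod.ext hvw h])
        -- remove `w`
        refine hS.2 (S.erase (Sum.inr w)) (Finset.erase_ssubset hw) ?_
        have hv' : (Sum.inr v : A ⊕ (Fin k × Bool)) ∈ S.erase (Sum.inr w) :=
          Finset.mem_erase.2 ⟨hne, hv⟩
        intro u hu
        rcases u with u | u
        · exact ⟨Sum.inr v, hv', trivial⟩
        · by_cases huw : u = w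
          · refine ⟨Sum.inr v, hv', ?_⟩
            rw [huw]
            exact ⟨hvw.symm, hvw2.symm⟩
          · have hu' : (Sum.inr u : A ⊕ (Fin k × Bool)) ∉ S := by
              intro hcon
              exact hu (Finset.mem_erase.2 ⟨by simpa using huw, hcon⟩)
            obtain ⟨x, hx1, hx2⟩ := hS.1 _ hu'
            by_cases hxw : x = Sum.inr w
            · -- then `u` is on the edge of `v` and `w`
              exfalso
              rw [hxw] at hx2
              have e1 : u.1 = w.1 := hx2.1
              have e2 : u.2 ≠ w.2 := hx2.2
              have e3 : u.2 = v.2 := by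
                cases hu2 : u.2 <;> cases hv2 : v.2 <;> cases hw2 : w.2 <;> simp_all
              exact hu' (by rw [Prod.ext (e1.trans hvw.symm) e3]; exact hv)
            · exact ⟨x, Finset.mem_erase.2 ⟨hxw, hx1⟩, hx2⟩
    have h2 : (S.image (fun v : A ⊕ (Fin k × Bool) => Sum.elim (fun _ => none)
        (fun p => some p.1) v)) ⊆ Finset.univ.image (some : Fin k → Option (Fin k)) := by
      intro o ho
      obtain ⟨v, hv, rfl⟩ := Finset.mem_image.1 ho
      rcases v with v | v
      · exact absurd hv (hl v)
      · exact Finset.mem_image_of_mem _ (Finset.mem_univ _)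
    have h3 := Finset.card_le_card h2
    rw [Finset.card_image_of_injOn h1, Finset.card_image_of_injective _
      (Option.some_injective _)] at h3
    simpa using h3

theorem joinK_iff (L : SimpleGraph A) (z : A) (hz : ∀ u, ¬ L.Adj z u) (k : ℕ) (hk : 2 ≤ k) :
    GamT (joinK L k) = 2 * Gam (joinK L k) ↔ Gam L ≤ k := by
  classical
  have hG : ∀ v, ∃ u, (joinK L k).Adj v u := by
    rintro (v | v)
    · exact ⟨Sum.inr (⟨0, by omega⟩, true), trivial⟩
    · exact ⟨Sum.inl z, trivial⟩
  rw [char _ hG]
  constructor
  · rintro ⟨x, y, h⟩
    by_contra hcon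
    rw [not_le] at hcon
    have h1 := le_gam_joinK_left L z k
    have hm : k < Gam (joinK L k) := hcon.trans_le h1
    -- sides
    have hside : ∀ i j, (x i).isLeft = (x j).isLeft ∧ (x i).isLeft = (y j).isLeft := by
      have hx : ∀ i j, i ≠ j → (x i).isLeft = (x j).isLeft := by
        intro i j hij
        have h2 := (h.2 i j hij).1
        rcases hxi : x i with a | a <;> rcases hxj : x j with b | b <;> simp
        · rw [hxi, hxj] at h2; exact h2 trivial
        · rw [hxi, hxj] at h2; exact h2 trivial
      have hy : ∀ i j, i ≠ j → (x i).isLeft = (y j).isLeft := by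
        intro i j hij
        have h2 := (h.2 i j hij).2.1
        rcases hxi : x i with a | a <;> rcases hxj : y j with b | b <;> simp
        · rw [hxi, hxj] at h2; exact h2 trivial
        · rw [hxi, hxj] at h2; exact h2 trivial
      have hother : ∀ i : Fin (Gam (joinK L k)), ∃ j, i ≠ j := by
        intro i
        by_cases hi : (i : ℕ) = 0
        · exact ⟨⟨1, by omega⟩, fun hcon => by rw [hcon] at hi; simp at hi⟩
        · exact ⟨⟨0, by omega⟩, fun hcon => by rw [hcon] at hi; simp at hi⟩
      intro i j
      refine ⟨?_, ?_⟩
      · by_cases hij : i = j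
        · rw [hij]
        · exact hx i j hij
      · by_cases hij : i = j
        · subst hij
          obtain ⟨l, hl⟩ := hother i
          rw [hx i l hl, hy l i hl.symm]
        · exact hy i j hij
    let i0 : Fin (Gam (joinK L k)) := ⟨0, by omega⟩
    rcases hb : (x i0).isLeft with _ | _
    · -- all on the right
      have hx : ∀ i, ∃ p, x i = Sum.inr p := by
        intro i
        have := (hside i0 i).1
        rw [hb] at this
        rcases hxi : x i with a | a
        · rw [hxi] at this; simp at this
        · exact ⟨a, rfl⟩
      choose p hp using hx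
      have hinj : Function.Injective (fun i => (p i).1) := by
        intro i j hij
        by_contra hne
        simp only at hij
        have h2 := h.2 i j hne
        have h3 : ∃ q, y i = Sum.inr q := by
          have := (hside i0 i).2
          rw [hb] at this
          rcases hyi : y i with a | a
          · rw [hyi] at this; simp at this
          · exact ⟨a, rfl⟩
        obtain ⟨q, hq⟩ := h3
        have h4 := h.1 i
        rw [hp i, hq] at h4
        have e1 : (p i).1 = q.1 := h4.1
        have e2 : (p i).2 ≠ q.2 := h4.2
        have h5 := h2.1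
        rw [hp i, hp j] at h5
        have h6 : (p i).2 = (p j).2 := by
          by_contra hne2
          exact h5 ⟨hij, hne2⟩
        have h7 := (h.2 j i (Ne.symm hne)).2.1
        rw [hp j, hq] at h7
        exact h7 ⟨hij.symm.trans e1, fun hcon => e2 (h6.trans hcon)⟩
      have := Fintype.card_le_of_injective _ hinj
      simp at this
      omega
    · -- all on the left
      have hx : ∀ i, ∃ p, x i = Sum.inl p := by
        intro i
        have := (hside i0 i).1
        rw [hb] at this
        rcases hxi : x i with a | a
        · exact ⟨a, rfl⟩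
        · rw [hxi] at this; simp at this
      choose p hp using hx
      have hpinj : Function.Injective p := by
        intro i j hij
        apply h.injective.1
        rw [hp i, hp j, hij]
      have hzp : ∀ i, z ≠ p i := by
        intro i hcon
        have h3 : ∃ q, y i = Sum.inl q := by
          have := (hside i0 i).2
          rw [hb] at this
          rcases hyi : y i with a | a
          · exact ⟨a, rfl⟩
          · rw [hyi] at this; simp at this
        obtain ⟨q, hq⟩ := h3
        have h4 := h.1 i
        rw [hp i, hq, ← hcon] at h4
        exact hz q h4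
      have hle := indep_le L (insert z (Finset.univ.image p)) (by
        intro a ha b hb hab
        rcases Finset.mem_insert.1 ha with ha | ha
        · rw [ha] at hab; exact hz b hab
        · rcases Finset.mem_insert.1 hb with hb | hb
          · rw [hb] at hab; exact hz a hab.symm
          · obtain ⟨i, _, rfl⟩ := Finset.mem_image.1 ha
            obtain ⟨j, _, rfl⟩ := Finset.mem_image.1 hb
            by_cases hij : i = j
            · rw [hij] at hab; exact L.irrefl hab
            · have := (h.2 i j hij).1
              rw [hp i, hp j] at this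
              exact this hab)
      rw [Finset.card_insert_of_notMem (by
        intro hcon
        obtain ⟨i, _, hi⟩ := Finset.mem_image.1 hcon
        exact hzp i hi.symm), Finset.card_image_of_injective _ hpinj] at hle
      simp at hle
      omega
  · intro hL
    have e : Gam (joinK L k) = k := le_antisymm (gam_joinK_le L k hk hL)
      (le_gam_joinK_right L k)
    refine ⟨fun i => Sum.inr (Fin.cast e i, true), fun i => Sum.inr (Fin.cast e i, false), ?_, ?_⟩
    · intro i
      exact ⟨rfl, by simp⟩
    · intro i j hij
      have hij' : Fin.cast e i ≠ Fin.cast e j := fun hcon => hij (by simpa using hcon)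
      exact ⟨fun hcon => hij' hcon.1, fun hcon => hij' hcon.1, fun hcon => hij' hcon.1⟩

end Pool.Agent.H328R3.UTD
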